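import Mathlib

/-! Fewer equations than unknowns: a nontrivial common zero; transfer between algebraically
closed fields. -/

namespace Pool.Agent.H952R2.Sextic

open MvPolynomial

theorem exists_common_zero {K : Type*} [Field K] [IsAlgClosed K] {ι κ : Type*} [Fintype ι]
    [Fintype κ] (hcard : Fintype.card κ < Fintype.card ι) (f : κ → MvPolynomial ι K)
    (h0 : ∀ k, eval 0 (f k) = 0) : ∃ x : ι → K, x ≠ 0 ∧ ∀ k, eval x (f k) = 0 := by
  classical
  by_contra hcon
  push Not at hcon
  have hcon' : ∀ x : ι → K, (∀ k, eval x (f k) = 0) → x = 0 := by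
    intro x hx
    by_contra hx0
    obtain ⟨k, hk⟩ := hcon x hx0
    exact hk (hx k)
  set I : Ideal (MvPolynomial ι K) := Ideal.span (Finset.univ.image f : Finset _) with hI
  have hzl : zeroLocus K I = {0} := by
    rw [hI, zeroLocus_span]
    ext x
    simp only [Finset.coe_image, Finset.coe_univ, Set.image_univ, Set.mem_range,
      forall_exists_index, forall_apply_eq_imp_iff, Set.mem_singleton_iff, Set.mem_ofPred_eq]
    constructor
    · intro h
      exact hcon' x (fun k => by rw [← coe_aeval_eq_eval]; exact h k)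
    · rintro rfl k
      have := h0 k
      rw [← coe_aeval_eq_eval] at this
      exact this
  set m0 : Ideal (MvPolynomial ι K) := vanishingIdeal K {(0 : ι → K)} with hm0
  have hrad : I.radical = m0 := by
    rw [← vanishingIdeal_zeroLocus_eq_radical (K := K), hzl]
  have hmax : m0.IsMaximal := isMaximal_iff_eq_vanishingIdeal_singleton.mpr ⟨0, rfl⟩
  have hmin : m0 ∈ I.minimalPrimes := by
    refine ⟨⟨hmax.isPrime, ?_⟩, ?_⟩
    · rw [← hrad]; exact Ideal.le_radical
    · rintro q ⟨hq, hIq⟩ _
      rw [← hrad]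
      exact (hq.radical_le_iff).mpr hIq
  have hh0 : m0.height ≤ (Fintype.card κ : ℕ) := by
    refine (Ideal.height_le_card_of_mem_minimalPrimes_span_finset hmin).trans ?_
    exact_mod_cast Finset.card_image_le
  have hdim : ringKrullDim (MvPolynomial ι K) ≤ (Fintype.card κ : ℕ) := by
    have : ((Fintype.card κ : ℕ) : WithBot ℕ∞) = ((Fintype.card κ : ℕ∞) : WithBot ℕ∞) := rfl
    rw [this, ringKrullDim_le_iff_isMaximal_height_le]
    intro m hm
    obtain ⟨a, rfl⟩ := isMaximal_iff_eq_vanishingIdeal_singleton.mp hm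
    -- translation
    let φ : MvPolynomial ι K →ₐ[K] MvPolynomial ι K := aeval (fun i => X i + C (a i))
    let ψ : MvPolynomial ι K →ₐ[K] MvPolynomial ι K := aeval (fun i => X i - C (a i))
    have h1 : φ.comp ψ = AlgHom.id K _ := by
      ext i
      simp [φ, ψ]
    have h2 : ψ.comp φ = AlgHom.id K _ := by
      ext i
      simp [φ, ψ]
    let e : MvPolynomial ι K ≃ₐ[K] MvPolynomial ι K := AlgEquiv.ofAlgHom φ ψ h1 h2
    have h3 : vanishingIdeal K {a} = m0.comap (e.toRingEquiv : MvPolynomial ι K ≃+* _) := by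
      ext p
      rw [Ideal.mem_comap, hm0, mem_vanishingIdeal_singleton_iff, mem_vanishingIdeal_singleton_iff]
      have h4 := comp_aeval_apply (f := fun i => (X i + C (a i) : MvPolynomial ι K))
        (aeval (0 : ι → K) : MvPolynomial ι K →ₐ[K] K) p
      have h5 : (e.toRingEquiv p : MvPolynomial ι K) = φ p := rfl
      have h6 : (aeval (0 : ι → K) (φ p) : K) = aeval a p := by
        rw [h4]
        congr 2
        funext i
        simp
      change _ ↔ aeval 0 (φ p) = 0
      rw [h6]
    rw [h3, RingEquiv.height_comap]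
    exact_mod_cast hh0
  rw [MvPolynomial.ringKrullDim_of_isNoetherianRing, ringKrullDim_eq_zero_of_field, zero_add,
    Nat.card_eq_fintype_card] at hdim
  have : Fintype.card ι ≤ Fintype.card κ := by exact_mod_cast hdim
  omega

/-- Transfer of solutions of polynomial systems down to an algebraically closed field. -/
theorem transfer {k : Type*} [Field k] {M : Type*} [Field M] [Algebra k M]
    {kb : Type*} [Field kb] [Algebra k kb] [IsAlgClosed kb] {ι κ : Type*} [Finite ι]
    (f : κ → MvPolynomial ι k) (g : MvPolynomial ι k)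
    (h : ∃ x : ι → M, (∀ i, aeval x (f i) = 0) ∧ aeval x g ≠ 0) :
    ∃ x : ι → kb, (∀ i, aeval x (f i) = 0) ∧ aeval x g ≠ 0 := by
  by_contra hcon
  push Not at hcon
  obtain ⟨x, hx, hg⟩ := h
  have h1 : g ∈ vanishingIdeal k (zeroLocus kb (Ideal.span (Set.range f))) := by
    rw [mem_vanishingIdeal_iff]
    intro y hy
    apply hcon
    intro i
    rw [mem_zeroLocus_iff] at hy
    exact hy _ (Ideal.subset_span ⟨i, rfl⟩)
  rw [vanishingIdeal_zeroLocus_eq_radical] at h1
  obtain ⟨n, hn⟩ := h1
  have h2 : Ideal.span (Set.range f) ≤ RingHom.ker (aeval x : MvPolynomial ι k →ₐ[k] M) := by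
    rw [Ideal.span_le]
    rintro _ ⟨i, rfl⟩
    exact hx i
  have h3 := h2 hn
  rw [RingHom.mem_ker, map_pow] at h3
  exact pow_ne_zero n hg h3

end Pool.Agent.H952R2.Sextic
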