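import Pool.Agent.H952R2.Sextic.Flex

/-! Not all asymptotic directions have contact of order at least four. -/

namespace Pool.Agent.H952R2.Sextic

open MvPolynomial

section

variable {ι : Type*} [Fintype ι]

theorem lp_top {F : MvPolynomial ι ℂ} {d : ℕ} (hF : F.IsHomogeneous d) (p x : ι → ℂ) :
    (lp F p x).coeff d = eval x F := by
  set Q := lp F x p with hQ
  have h1 : lp F p x = ∑ i ∈ Finset.range (d + 1),
      Polynomial.C (Q.coeff i) * Polynomial.X ^ (d - i) := by
    rw [← sub_eq_zero]
    apply Polynomial.eq_zero_of_infinite_isRoot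
    have hinf : (Set.univ \ {0} : Set ℂ).Infinite :=
      Set.infinite_univ.sdiff (Set.finite_singleton 0)
    refine hinf.mono ?_
    intro s hs
    have hs0 : s ≠ 0 := by simpa using hs.2
    rw [Set.mem_ofPred_eq, Polynomial.IsRoot.def, Polynomial.eval_sub, sub_eq_zero, lp_eval]
    have h2 : (fun j => p j + x j * s) = fun j => s * (x j + p j * s⁻¹) := by
      funext j; field_simp; ring
    rw [h2, aeval_homog hF, ← lp_eval, Polynomial.eval_finsetSum,
      Polynomial.eval_eq_sum_range' (n := d + 1)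
        (Nat.lt_succ_of_le (lp_natDegree_le hF.totalDegree_le _ _)), Finset.mul_sum]
    refine Finset.sum_congr rfl fun i hi => ?_
    have hid : i ≤ d := Nat.lt_succ_iff.mp (Finset.mem_range.mp hi)
    simp only [Polynomial.eval_mul, Polynomial.eval_C, Polynomial.eval_pow, Polynomial.eval_X]
    have h3 : s ^ d = s ^ (d - i) * s ^ i := by rw [← pow_add, Nat.sub_add_cancel hid]
    rw [h3, inv_pow, hQ]
    field_simp
  rw [h1, Polynomial.finsetSum_coeff, Finset.sum_eq_single 0]
  · simp only [Polynomial.coeff_C_mul, Nat.sub_zero, Polynomial.coeff_X_pow_self, mul_one]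
    rw [hQ, lp_coeff_zero, aevalC]
  · intro i hi hi0
    rw [Polynomial.coeff_C_mul, Polynomial.coeff_X_pow, if_neg (by
      have := Finset.mem_range.mp hi
      omega), mul_zero]
  · intro h
    exact absurd (Finset.mem_range.mpr (Nat.succ_pos d)) h

omit [Fintype ι] in
/-- evaluation of `lp` coefficients as polynomials in the direction -/
theorem eval_lp_coeff (F : MvPolynomial ι ℂ) (p x : ι → ℂ) (i : ℕ) :
    eval x ((lp F (fun j => (C (p j) : MvPolynomial ι ℂ)) (fun j => X j)).coeff i) =
      (lp F p x).coeff i := by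
  have h := lp_coeff_map (aeval x : MvPolynomial ι ℂ →ₐ[ℂ] ℂ) F
    (fun j => (C (p j) : MvPolynomial ι ℂ)) (fun j => X j) i
  rw [aevalC] at h
  rw [h]
  congr 2
  · funext j; simp
  · funext j; simp

/-- three vectors in echelon form -/
theorem dual3 {p d d' : ι → ℂ} {i0 i1 i2 : ι} (h0 : p i0 ≠ 0) (hd0 : d i0 = 0) (hd1 : d i1 ≠ 0)
    (hd'0 : d' i0 = 0) (hd'1 : d' i1 = 0) (hd'2 : d' i2 ≠ 0) (α β γ : ℂ) :
    ∃ u : ι → ℂ, ∑ j, p j * u j = α ∧ ∑ j, d j * u j = β ∧ ∑ j, d' j * u j = γ := by
  classical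
  set c := γ / d' i2 with hc
  set b := (β - d i2 * c) / d i1 with hb
  set a := (α - p i1 * b - p i2 * c) / p i0 with ha
  refine ⟨fun j => a * (if j = i0 then 1 else 0) + b * (if j = i1 then 1 else 0) +
    c * (if j = i2 then 1 else 0), ?_, ?_, ?_⟩
  · have : ∑ j, p j * (a * (if j = i0 then 1 else 0) + b * (if j = i1 then 1 else 0) +
        c * (if j = i2 then 1 else 0)) = a * p i0 + b * p i1 + c * p i2 := by
      simp only [mul_add, Finset.sum_add_distrib, mul_ite, mul_one, mul_zero, Finset.sum_ite_eq',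
        Finset.mem_univ, if_true]
      ring
    rw [this, ha]
    field_simp
    ring
  · have : ∑ j, d j * (a * (if j = i0 then 1 else 0) + b * (if j = i1 then 1 else 0) +
        c * (if j = i2 then 1 else 0)) = a * d i0 + b * d i1 + c * d i2 := by
      simp only [mul_add, Finset.sum_add_distrib, mul_ite, mul_one, mul_zero, Finset.sum_ite_eq',
        Finset.mem_univ, if_true]
      ring
    rw [this, hd0, hb]
    field_simp
    ring
  · have : ∑ j, d' j * (a * (if j = i0 then 1 else 0) + b * (if j = i1 then 1 else 0) +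
        c * (if j = i2 then 1 else 0)) = a * d' i0 + b * d' i1 + c * d' i2 := by
      simp only [mul_add, Finset.sum_add_distrib, mul_ite, mul_one, mul_zero, Finset.sum_ite_eq',
        Finset.mem_univ, if_true]
      ring
    rw [this, hd'0, hd'1, hc]
    field_simp
    ring

theorem hs_smul_right (F : MvPolynomial ι ℂ) (p x y : ι → ℂ) (W : ℂ) :
    hs F p x (fun j => W * y j) = W * hs F p x y := by
  rw [hs_comm, hs_smul_left, hs_comm]

theorem hs_add_right (F : MvPolynomial ι ℂ) (p x y y' : ι → ℂ) :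
    hs F p x (fun j => y j + y' j) = hs F p x y + hs F p x y' := by
  rw [hs_comm, hs_add_left, hs_comm F p y, hs_comm F p y']

theorem not_all_zero {F : MvPolynomial ι ℂ} (hF : F.IsHomogeneous 6) [DecidableEq ι]
    (hι : 6 ≤ Fintype.card ι)
    (hsm : ∀ x : ι → ℂ, (∀ j, eval x (pderiv j F) = 0) → x = 0) :
    ∃ p D : ι → ℂ, eval p F = 0 ∧
      (Matrix.of fun i j => eval p (pderiv j (pderiv i F))).det ≠ 0 ∧
      (lp F p D).coeff 1 = 0 ∧ (lp F p D).coeff 2 = 0 ∧ (lp F p D).coeff 3 ≠ 0 := by
  by_contra hcon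
  push Not at hcon
  obtain ⟨p, hp, hdet⟩ := exists_hess_ne_zero (by omega) (by norm_num) hF hsm
  have all := all_coeff_zero hF (fun p D h0 hd h1 h2 => hcon p D h0 hd h1 h2)
  -- `p ≠ 0`
  have hpne : ∃ i0, p i0 ≠ 0 := by
    by_contra hc
    push Not at hc
    have hpz : p = 0 := funext hc
    apply hdet
    have hne : Nonempty ι := Fintype.card_pos_iff.mp (by omega)
    have : (Matrix.of fun i j => eval p (pderiv j (pderiv i F))) = 0 := by
      ext i j
      rw [Matrix.of_apply, Matrix.zero_apply]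
      have h6 : (pderiv j (pderiv i F)).IsHomogeneous 4 :=
        (hF.pderiv (i := i)).pderiv (i := j)
      have := aeval_homog h6 (0 : ℂ) (0 : ι → ℂ)
      simp only [aevalC] at this
      rw [hpz]
      simpa using this
    rw [this, Matrix.det_zero]
  obtain ⟨i0, hi0⟩ := hpne
  set φ : ℕ → MvPolynomial ι ℂ := fun i =>
    (lp F (fun j => (C (p j) : MvPolynomial ι ℂ)) (fun j => X j)).coeff i with hφ
  have evφ : ∀ i x, eval x (φ i) = (lp F p x).coeff i := fun i x => eval_lp_coeff F p x i
  have lp0 : lp F p (0 : ι → ℂ) = 0 := by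
    have := lp_self_smul hF hp 0
    simp only [zero_mul] at this
    exact this
  have evφ0 : ∀ i, eval 0 (φ i) = 0 := fun i => by rw [evφ, lp0, Polynomial.coeff_zero]
  -- first isotropic vector
  obtain ⟨d, hd0, hd⟩ := exists_common_zero (κ := Fin 3) (by simp; omega)
    (![X i0, φ 1, φ 2] : Fin 3 → MvPolynomial ι ℂ) (by
      intro k
      fin_cases k
      · simp
      · exact evφ0 1
      · exact evφ0 2)
  have hdi0 : d i0 = 0 := by simpa using hd 0
  have hd1 : (lp F p d).coeff 1 = 0 := by rw [← evφ]; exact hd 1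
  have hd2 : (lp F p d).coeff 2 = 0 := by rw [← evφ]; exact hd 2
  obtain ⟨i1, hi1⟩ : ∃ i1, d i1 ≠ 0 := by
    by_contra hc
    push Not at hc
    exact hd0 (funext hc)
  -- second isotropic vector
  set Md : MvPolynomial ι ℂ := ∑ j, C (∑ k, d k * aeval p (pderiv k (pderiv j F))) * X j with hMd
  have evMd : ∀ x, eval x Md = hs F p x d := by
    intro x
    rw [hMd, map_sum, hs]
    refine Finset.sum_congr rfl fun j _ => ?_
    simp [mul_comm]
  obtain ⟨d', hd'0, hd'⟩ := exists_common_zero (κ := Fin 5) (by simp; omega)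
    (![X i0, X i1, φ 1, φ 2, Md] : Fin 5 → MvPolynomial ι ℂ) (by
      intro k
      fin_cases k
      · simp
      · simp
      · exact evφ0 1
      · exact evφ0 2
      · change eval 0 Md = 0
        rw [evMd, hs]
        simp)
  have hd'i0 : d' i0 = 0 := by simpa using hd' 0
  have hd'i1 : d' i1 = 0 := by simpa using hd' 1
  have hd'1 : (lp F p d').coeff 1 = 0 := by rw [← evφ]; exact hd' 2
  have hd'2 : (lp F p d').coeff 2 = 0 := by rw [← evφ]; exact hd' 3
  have hdd' : hs F p d' d = 0 := by rw [← evMd]; exact hd' 4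
  obtain ⟨i2, hi2⟩ : ∃ i2, d' i2 ≠ 0 := by
    by_contra hc
    push Not at hc
    exact hd'0 (funext hc)
  -- the Gram matrix vanishes
  have hG1 : (lp F p p).coeff 1 = 0 := by
    have := lp_self_smul hF hp 1
    simp only [one_mul] at this
    rw [show (fun j => p j) = p from rfl] at this
    rw [this, Polynomial.coeff_zero]
  have gpx : ∀ x, (lp F p x).coeff 1 = 0 → hs F p x p = 0 := fun x hx => by
    rw [hs_point hF, hx, mul_zero]
  have gdd : hs F p d d = 0 := by rw [hs_self, hd2, zero_mul]
  have gd'd' : hs F p d' d' = 0 := by rw [hs_self, hd'2, zero_mul]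
  -- the plane
  set y : ℂ → ℂ → ℂ → ι → ℂ := fun x s t j => x * p j + s * d j + t * d' j with hy
  have hy1 : ∀ x s t, (lp F p (y x s t)).coeff 1 = 0 := by
    intro x s t
    have h1 := lp_coeff_one_add F p (fun j => x * p j + s * d j) d' 1 t
    have h2 := lp_coeff_one_add F p p d x s
    simp only [one_mul] at h1
    rw [hy, h1, h2, hG1, hd1, hd'1]
    ring
  have hsy : ∀ x s t z, hs F p (y x s t) z =
      x * hs F p p z + s * hs F p d z + t * hs F p d' z := by
    intro x s t z
    rw [hy, hs_add_left F p (fun j => x * p j + s * d j) (fun j => t * d' j),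
      hs_add_left F p (fun j => x * p j) (fun j => s * d j), hs_smul_left, hs_smul_left,
      hs_smul_left]
  have hy2 : ∀ x s t, (lp F p (y x s t)).coeff 2 = 0 := by
    intro x s t
    have h1 : hs F p (y x s t) (y x s t) = 0 := by
      rw [hsy, hs_comm F p p, hs_comm F p d, hs_comm F p d', hsy, hsy, hsy,
        gpx p hG1, gpx d hd1, gpx d' hd'1, gdd, gd'd', hdd', hs_comm F p p d, hs_comm F p p d',
        gpx d hd1, gpx d' hd'1, hs_comm F p d d', hdd']
      ring
    rw [hs_self] at h1
    exact (mul_eq_zero.mp h1).resolve_right two_ne_zero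
  have indep : ∀ x s t : ℂ, (∀ j, x * p j + s * d j + t * d' j = 0) → x = 0 ∧ s = 0 ∧ t = 0 := by
    intro x s t h
    have hx : x = 0 := by
      have := h i0
      rw [hdi0, hd'i0, mul_zero, mul_zero, add_zero, add_zero] at this
      exact (mul_eq_zero.mp this).resolve_right hi0
    have hs : s = 0 := by
      have := h i1
      rw [hx, hd'i1, mul_zero, zero_mul, add_zero, zero_add] at this
      exact (mul_eq_zero.mp this).resolve_right hi1
    refine ⟨hx, hs, ?_⟩
    have := h i2
    rw [hx, hs, zero_mul, zero_mul, zero_add, zero_add] at this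
    exact (mul_eq_zero.mp this).resolve_right hi2
  -- the tangent space along the plane
  have tang : ∀ x s t, (s, t) ≠ (0, 0) → ∀ z : ι → ℂ, (lp F p z).coeff 1 = 0 →
      hs F p z (y x s t) = 0 → ∑ j, z j * eval (y x s t) (pderiv j F) = 0 := by
    intro x s t hst z hz1 hz2
    have hD : y x s t ∉ Submodule.span ℂ {p} := by
      intro h
      obtain ⟨c, hc⟩ := Submodule.mem_span_singleton.mp h
      obtain ⟨-, h1, h2⟩ := indep (x - c) s t (fun j => by
        have := congrFun hc j
        simp only [Pi.smul_apply, smul_eq_mul, hy] at this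
        linear_combination -this)
      exact hst (by rw [h1, h2])
    have hp' : p ∉ Submodule.span ℂ {y x s t} := by
      intro h
      obtain ⟨c, hc⟩ := Submodule.mem_span_singleton.mp h
      obtain ⟨h0, h1, h2⟩ := indep (c * x - 1) (c * s) (c * t) (fun j => by
        have := congrFun hc j
        simp only [Pi.smul_apply, smul_eq_mul, hy] at this
        linear_combination this)
      have hc0 : c ≠ 0 := by
        rintro rfl
        simp at h0
      rcases mul_eq_zero.mp h1 with h | h
      · exact hc0 h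
      rcases mul_eq_zero.mp h2 with h' | h'
      · exact hc0 h'
      exact hst (by rw [h, h'])
    have h6 := lagr_step hF hdet hD hp' hp (hy1 x s t) (hy2 x s t) 6
      (all 6 (by norm_num)) (0, z) (by simp) (by
        simp only [Pi.zero_apply, zero_mul, zero_add, lp_coeff_zero]
        rw [← lp_coeff_one]
        exact hz1) (by
        simp only [Pi.zero_apply, zero_mul, zero_add]
        rw [lp_pderiv_one]
        exact hz2)
    simp only [Pi.zero_apply, zero_mul, zero_add] at h6
    rw [← h6]
    refine Finset.sum_congr rfl fun j _ => ?_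
    have h7 : (Polynomial.X * lp (pderiv j F) p (y x s t)).coeff 6 =
        (lp (pderiv j F) p (y x s t)).coeff 5 := Polynomial.coeff_X_mul _ 5
    rw [h7, lp_top (hF.pderiv (i := j))]
  -- polynomials on the plane
  set Y : ι → MvPolynomial (Fin 3) ℂ := fun j => C (p j) * X 0 + C (d j) * X 1 + C (d' j) * X 2
    with hY
  have hYhom : ∀ j, (Y j).IsHomogeneous 1 := by
    intro j
    have h1 : ∀ (c : ℂ) (i : Fin 3), (C c * X i : MvPolynomial (Fin 3) ℂ).IsHomogeneous 1 := by
      intro c i
      have := (isHomogeneous_C (Fin 3) c).mul (isHomogeneous_X ℂ i)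
      simpa using this
    exact ((h1 _ _).add (h1 _ _)).add (h1 _ _)
  set A : (ι → ℂ) → MvPolynomial (Fin 3) ℂ := fun e => ∑ j, C (e j) * aeval Y (pderiv j F) with hA
  have evA : ∀ e v, eval v (A e) = ∑ j, e j * eval (y (v 0) (v 1) (v 2)) (pderiv j F) := by
    intro e v
    rw [hA, map_sum]
    refine Finset.sum_congr rfl fun j _ => ?_
    rw [map_mul, eval_C]
    congr 1
    have := MvPolynomial.comp_aeval_apply (f := Y) (aeval v : MvPolynomial (Fin 3) ℂ →ₐ[ℂ] ℂ)
      (pderiv j F)
    rw [aevalC] at this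
    rw [this, aevalC]
    congr 2
    funext k
    simp [hY, hy, mul_comm]
  have hAhom : ∀ e, (A e).IsHomogeneous 5 := by
    intro e
    refine IsHomogeneous.sum _ _ _ fun j _ => ?_
    have h1 : (aeval Y (pderiv j F)).IsHomogeneous (1 * 5) :=
      (hF.pderiv (i := j)).aeval Y hYhom
    have := (isHomogeneous_C (Fin 3) (e j)).mul h1
    simpa using this
  -- dual vectors
  have hdual : ∀ α β γ : ℂ, ∃ e : ι → ℂ, (lp F p e).coeff 1 = α ∧ hs F p e d = β ∧
      hs F p e d' = γ := by
    intro α β γ
    obtain ⟨u, h1, h2, h3⟩ := dual3 hi0 hdi0 hi1 hd'i0 hd'i1 hi2 (5 * α) β γ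
    obtain ⟨e, he⟩ := exists_hs hdet u
    refine ⟨e, ?_, ?_, ?_⟩
    · have h4 := hs_point hF p e
      rw [hs_comm, he, h1] at h4
      exact (mul_left_cancel₀ (by norm_num : (5 : ℂ) ≠ 0) h4).symm
    · rw [hs_comm, he, h2]
    · rw [hs_comm, he, h3]
  obtain ⟨e0, a0, a1, a2⟩ := hdual 1 0 0
  obtain ⟨e1, b0, b1, b2⟩ := hdual 0 1 0
  obtain ⟨e2, c0, c1, c2⟩ := hdual 0 0 1
  have hsz : ∀ z x s t, hs F p z (y x s t) = x * (5 * (lp F p z).coeff 1) + s * hs F p z d +
      t * hs F p z d' := by
    intro z x s t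
    rw [hs_comm, hsy, hs_comm F p p z, hs_comm F p d z, hs_comm F p d' z, hs_point hF]
  have hrel : X 2 * A e1 = X 1 * A e2 := by
    apply MvPolynomial.funext
    intro v
    rw [map_mul, map_mul, eval_X, eval_X, evA, evA]
    by_cases hst : (v 1, v 2) = (0, 0)
    · rw [Prod.mk.injEq] at hst
      rw [hst.1, hst.2]
      ring
    · have h1 := tang (v 0) (v 1) (v 2) hst (fun j => v 2 * e1 j + (-v 1) * e2 j) (by
        rw [lp_coeff_one_add, b0, c0]; ring) (by
        rw [hsz, lp_coeff_one_add, b0, c0, hs_add_left F p (fun j => v 2 * e1 j)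
          (fun j => -v 1 * e2 j), hs_add_left F p (fun j => v 2 * e1 j)
          (fun j => -v 1 * e2 j), hs_smul_left, hs_smul_left, hs_smul_left, hs_smul_left,
          b1, c1, b2, c2]
        ring)
      have h2 : ∑ j, (v 2 * e1 j + (-v 1) * e2 j) * eval (y (v 0) (v 1) (v 2)) (pderiv j F) =
          v 2 * ∑ j, e1 j * eval (y (v 0) (v 1) (v 2)) (pderiv j F) -
          v 1 * ∑ j, e2 j * eval (y (v 0) (v 1) (v 2)) (pderiv j F) := by
        simp only [Finset.mul_sum, ← Finset.sum_sub_distrib]
        exact Finset.sum_congr rfl fun j _ => by ring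
      rw [h2] at h1
      exact sub_eq_zero.mp h1
  obtain ⟨B, hB⟩ : (X 1 : MvPolynomial (Fin 3) ℂ) ∣ A e1 := by
    have h1 : (X 1 : MvPolynomial (Fin 3) ℂ) ∣ X 2 * A e1 := ⟨A e2, hrel⟩
    rcases X_prime.dvd_or_dvd h1 with h | h
    · exfalso
      obtain ⟨c, hc⟩ := h
      have := congrArg (eval (![0, 0, 1] : Fin 3 → ℂ)) hc
      simp at this
    · exact h
  have hB2 : A e2 = X 2 * B := by
    have h1 : (X 1 : MvPolynomial (Fin 3) ℂ) * A e2 = X 1 * (X 2 * B) := by
      rw [← hrel, hB]; ring
    exact mul_left_cancel₀ (X_ne_zero 1) h1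
  have hB0 : eval 0 B = 0 := by
    have h1 : coeff (Finsupp.single 1 1) (A e1) = coeff 0 B := by
      rw [hB]
      have := coeff_X_mul (R := ℂ) 0 (1 : Fin 3) B
      rw [add_zero] at this
      exact this
    have h2 : coeff (Finsupp.single 1 1) (A e1) = 0 := by
      refine (hAhom e1).coeff_eq_zero ?_
      simp
    rw [← h1.symm.trans h2, eval_zero, constantCoeff_eq]
  have hA00 : eval 0 (A e0) = 0 := by
    rw [eval_zero, constantCoeff_eq]
    refine (hAhom e0).coeff_eq_zero ?_
    simp
  obtain ⟨v, hv0, hv⟩ := exists_common_zero (κ := Fin 2) (ι := Fin 3) (by simp)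
    (![A e0, B] : Fin 2 → MvPolynomial (Fin 3) ℂ) (by
      intro k
      fin_cases k
      · exact hA00
      · exact hB0)
  have hvA : eval v (A e0) = 0 := hv 0
  have hvB : eval v B = 0 := hv 1
  have hv1 : eval v (A e1) = 0 := by rw [hB, map_mul, hvB, mul_zero]
  have hv2 : eval v (A e2) = 0 := by rw [hB2, map_mul, hvB, mul_zero]
  rw [evA] at hvA hv1 hv2
  by_cases hst : (v 1, v 2) = (0, 0)
  · rw [Prod.mk.injEq] at hst
    have hx : v 0 ≠ 0 := by
      intro h
      apply hv0
      funext i
      fin_cases i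
      · exact h
      · exact hst.1
      · exact hst.2
    have h1 : y (v 0) (v 1) (v 2) = fun j => v 0 * p j := by
      funext j
      simp [hy, hst.1, hst.2]
    have h2 : ∑ j, e0 j * eval (y (v 0) (v 1) (v 2)) (pderiv j F) = v 0 ^ 5 * 1 := by
      rw [← a0, lp_coeff_one, Finset.mul_sum]
      refine Finset.sum_congr rfl fun j _ => ?_
      have h3 := aeval_homog (hF.pderiv (i := j)) (v 0) p
      rw [aevalC] at h3
      rw [h1, h3]
      ring
    rw [h2] at hvA
    simp [hx] at hvA
  · -- the gradient vanishes at `y`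
    have hgrad : y (v 0) (v 1) (v 2) = 0 := by
      apply hsm
      intro j
      set z : ι → ℂ := Pi.single j 1 with hz
      set α := (lp F p z).coeff 1 with hα
      set β := hs F p z d with hβ
      set γ := hs F p z d' with hγ
      have h1 := tang (v 0) (v 1) (v 2) hst
        (fun k => 1 * (1 * (1 * z k + (-α) * e0 k) + (-β) * e1 k) + (-γ) * e2 k) (by
        rw [lp_coeff_one_add F p (fun k => 1 * (1 * z k + (-α) * e0 k) + (-β) * e1 k) e2 1 (-γ),
          lp_coeff_one_add F p (fun k => 1 * z k + (-α) * e0 k) e1 1 (-β),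
          lp_coeff_one_add F p z e0 1 (-α), a0, b0, c0, ← hα]
        ring) (by
        have h2 : ∀ q, hs F p (fun k => 1 * (1 * (1 * z k + (-α) * e0 k) + (-β) * e1 k) +
            (-γ) * e2 k) q = hs F p z q - α * hs F p e0 q - β * hs F p e1 q -
              γ * hs F p e2 q := by
          intro q
          rw [hs_add_left F p (fun k => 1 * (1 * (1 * z k + (-α) * e0 k) + (-β) * e1 k))
            (fun k => (-γ) * e2 k), hs_smul_left, hs_add_left F p
            (fun k => 1 * (1 * z k + (-α) * e0 k)) (fun k => (-β) * e1 k), hs_smul_left,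
            hs_add_left F p (fun k => 1 * z k) (fun k => (-α) * e0 k), hs_smul_left,
            hs_smul_left, hs_smul_left, hs_smul_left]
          ring
        rw [h2, hsz, hsz, hsz, hsz, a0, b0, c0, a1, a2, b1, b2, c1, c2, ← hα, ← hβ, ← hγ]
        ring)
      have h3 : ∑ k, (1 * (1 * (1 * z k + (-α) * e0 k) + (-β) * e1 k) + (-γ) * e2 k) *
          eval (y (v 0) (v 1) (v 2)) (pderiv k F) =
          ∑ k, z k * eval (y (v 0) (v 1) (v 2)) (pderiv k F) -
          α * ∑ k, e0 k * eval (y (v 0) (v 1) (v 2)) (pderiv k F) -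
          β * ∑ k, e1 k * eval (y (v 0) (v 1) (v 2)) (pderiv k F) -
          γ * ∑ k, e2 k * eval (y (v 0) (v 1) (v 2)) (pderiv k F) := by
        simp only [Finset.mul_sum, ← Finset.sum_sub_distrib]
        exact Finset.sum_congr rfl fun j _ => by ring
      rw [h3, hvA, hv1, hv2] at h1
      simpa [hz, Pi.single_apply] using h1
    obtain ⟨-, h1, h2⟩ := indep (v 0) (v 1) (v 2) (fun j => by
      have := congrFun hgrad j
      simpa [hy] using this)
    exact hst (by rw [h1, h2])

end

end Pool.Agent.H952R2.Sextic
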