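import Pool.Agent.H952R2.Sextic.Density

/-! The double cover. -/

namespace Pool.Agent.H952R2.Sextic

open MvPolynomial

variable {K : Type*} [Field K] {ι : Type*} [Fintype ι]

/-- evaluation at `(w, x)` -/
theorem cover_density [CharZero K] [Algebra.IsAlgebraic ℚ K] {M : Type*} [Field M] [Algebra K M]
    [IsAlgClosed M] {F : MvPolynomial ι K} (hF : F.IsHomogeneous 6)
    (hsm : ∀ x : ι → M, (∀ j, aeval x (pderiv j F) = 0) → x = 0)
    (a b : ι → K) (hab : LinearIndependent K ![a, b])
    (hline : lp F a b = (0 : Polynomial K))
    (H : ∃ (t : M) (D : ι → M),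
      (lp F (pt M a b t) D).coeff 1 = 0 ∧ (lp F (pt M a b t) D).coeff 2 = 0 ∧
      (lp F (pt M a b t) D).coeff 3 ≠ 0 ∧ hs F (pt M a b t) D (cst M b) ≠ 0)
    (G : MvPolynomial (Option ι) M)
    (hG : ∀ (x : ι → K) (w : K), x ≠ 0 → w ^ 2 = eval x F →
      eval (fun o : Option ι => o.elim (algebraMap K M w) (fun i => algebraMap K M (x i))) G = 0) :
    ∀ (x : ι → M) (w : M), w ^ 2 = aeval x F →
      eval (fun o : Option ι => o.elim w x) G = 0 := by
  classical
  have : Infinite M := IsAlgClosed.instInfinite
  set F' : MvPolynomial ι M := MvPolynomial.map (algebraMap K M) F with hF'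
  have evF' : ∀ x, eval x F' = aeval x F := by
    intro x
    rw [hF', eval_map, aeval_def]
  have evF'2 : ∀ x : ι → K, eval (fun i => algebraMap K M (x i)) F' = algebraMap K M (eval x F) := by
    intro x
    rw [hF', eval_map, ← aeval_def]
    have := MvPolynomial.comp_aeval_apply (f := x) (Algebra.ofId K M) F
    rw [aeval_eval] at this
    exact this.symm
  set G' : Polynomial (MvPolynomial ι M) :=
    aeval (fun o : Option ι => o.elim Polynomial.X (fun i => Polynomial.C (X i))) G with hG'
  have evG' : ∀ (x : ι → M) (w : M), (G'.map (eval x)).eval w =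
      eval (fun o : Option ι => o.elim w x) G := by
    intro x w
    have h := MvPolynomial.comp_aeval_apply
      (f := fun o : Option ι => o.elim (Polynomial.X : Polynomial (MvPolynomial ι M))
        (fun i => Polynomial.C (X i)))
      (((Polynomial.aeval w : Polynomial M →ₐ[M] M)).comp
        (Polynomial.mapAlgHom (aeval x : MvPolynomial ι M →ₐ[M] M))) G
    rw [← hG'] at h
    have e2 : ((aeval x : MvPolynomial ι M →ₐ[M] M) : MvPolynomial ι M →+* M) =
        eval x := RingHom.ext fun p => aeval_eval x p
    simp only [AlgHom.comp_apply, Polynomial.coe_mapAlgHom, Polynomial.coe_aeval_eq_eval] at h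
    rw [e2] at h
    rw [h, ← aeval_eval]
    congr 2
    funext o
    cases o with
    | none => simp
    | some i => simp
  set Q : Polynomial (MvPolynomial ι M) := Polynomial.X ^ 2 - Polynomial.C F' with hQ
  have hQm : Q.Monic := Polynomial.monic_X_pow_sub_C _ (by norm_num)
  have hQd : Q.natDegree = 2 := Polynomial.natDegree_X_pow_sub_C
  set r := G' %ₘ Q with hr
  have hrd : r.natDegree < 2 := by
    have := Polynomial.natDegree_modByMonic_lt G' hQm (by
      intro h1
      rw [h1] at hQd
      simp at hQd)
    rwa [hQd] at this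
  set G0 := r.coeff 0 with hG0
  set G1 := r.coeff 1 with hG1
  have evr : ∀ (x : ι → M) (w : M), w ^ 2 = aeval x F →
      eval (fun o : Option ι => o.elim w x) G = eval x G0 + eval x G1 * w := by
    intro x w hw
    rw [← evG']
    have h1 : G' = r + Q * (G' /ₘ Q) := (Polynomial.modByMonic_add_div G' Q).symm
    have hQe : (Q.map (eval x)).eval w = 0 := by
      rw [hQ, Polynomial.map_sub, Polynomial.map_pow, Polynomial.map_X, Polynomial.map_C,
        Polynomial.eval_sub, Polynomial.eval_pow, Polynomial.eval_X, Polynomial.eval_C, evF', hw,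
        sub_self]
    have h2 : (r.map (eval x)).eval w = eval x G0 + eval x G1 * w := by
      rw [Polynomial.eval_eq_sum_range' (n := 2)
        (lt_of_le_of_lt Polynomial.natDegree_map_le hrd)]
      simp [Finset.sum_range_succ, hG0, hG1]
    rw [h1, Polynomial.map_add, Polynomial.map_mul, Polynomial.eval_add, Polynomial.eval_mul, hQe,
      zero_mul, add_zero, h2]
  set N := G0 ^ 2 - F' * G1 ^ 2 with hN
  have ha0 : a ≠ 0 := by
    have := hab.ne_zero 0
    simpa using this
  have evN1 : ∀ (x : ι → K) (w : K), x ≠ 0 → w ^ 2 = eval x F →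
      eval (fun i => algebraMap K M (x i)) N = 0 := by
    intro x w hx hw
    have hw' : (algebraMap K M w) ^ 2 = aeval (fun i => algebraMap K M (x i)) F := by
      rw [← evF', evF'2, ← hw, map_pow]
    have h1 := hG x w hx hw
    rw [evr _ _ hw'] at h1
    rw [hN, map_sub, map_mul, map_pow, map_pow, evF', ← hw']
    linear_combination (eval (fun i => algebraMap K M (x i)) G0 -
      eval (fun i => algebraMap K M (x i)) G1 * algebraMap K M w) * h1
  have hFa : ∀ l : K, eval (fun i => l * a i) F = 0 := by
    intro l
    rw [← aeval_eval, aeval_homog hF, ← lp_coeff_zero F a b, hline]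
    simp
  have evN0 : eval (0 : ι → M) N = 0 := by
    have hz : lp N 0 (cst M a) = 0 := by
      apply Polynomial.eq_zero_of_infinite_isRoot
      have hinf : (Set.univ \ {0} : Set K).Infinite := by
        have : Infinite K := inferInstance
        exact Set.infinite_univ.sdiff (Set.finite_singleton 0)
      refine (hinf.image (algebraMap K M).injective.injOn).mono ?_
      rintro _ ⟨l, hl, rfl⟩
      have hl0 : l ≠ 0 := by simpa using hl.2
      have h1 := evN1 (fun i => l * a i) 0 (by
        intro h
        apply ha0
        funext i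
        have := congrFun h i
        simpa [hl0] using this) (by rw [hFa]; norm_num)
      rw [Set.mem_ofPred_eq, Polynomial.IsRoot.def, lp_eval, aeval_eval, ← h1]
      congr 2
      funext i
      simp [cst, mul_comm]
    have := lp_coeff_zero N (0 : ι → M) (cst M a)
    rw [hz, Polynomial.coeff_zero, aeval_eval] at this
    exact this.symm
  have hNz : N = 0 := by
    refine density hF hsm a b hab hline H N ?_
    intro x w hw
    rw [aeval_eval]
    by_cases hx : x = 0
    · subst hx
      have : (fun j => algebraMap K M ((0 : ι → K) j)) = 0 := by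
        funext j; simp
      rw [this]
      exact evN0
    · exact evN1 x w hx (by rw [hw, aeval_eval])
  have hG1z : G1 = 0 := by
    by_contra hG10
    have h1 : G1 ^ 2 ∣ G0 ^ 2 := ⟨F', by linear_combination hNz⟩
    have h2 : G1 ∣ G0 := (IsIntegrallyClosed.pow_dvd_pow_iff two_ne_zero).mp h1
    obtain ⟨T, hT⟩ := h2
    have h3 : F' = T ^ 2 := by
      have : G1 ^ 2 * F' = G1 ^ 2 * T ^ 2 := by
        rw [hN, hT] at hNz
        linear_combination -hNz
      exact mul_left_cancel₀ (pow_ne_zero 2 hG10) this
    have ha : eval (cst M a) T = 0 := by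
      have h4 : eval (cst M a) F' = 0 := by
        have := evF'2 a
        have h5 := hFa 1
        simp only [one_mul] at h5
        rw [h5, map_zero] at this
        exact this
      rw [h3, map_pow] at h4
      exact pow_eq_zero_iff two_ne_zero |>.mp h4
    have h5 := hsm (cst M a) (fun j => by
      have h6 : aeval (cst M a) (pderiv j F) = eval (cst M a) (pderiv j F') := by
        rw [hF', pderiv_map, eval_map, aeval_def]
      rw [h6, h3, pderiv_pow]
      simp [ha])
    apply ha0
    funext j
    have := congrFun h5 j
    simpa [cst] using this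
  have hG0z : G0 = 0 := by
    rw [hN, hG1z] at hNz
    have : G0 ^ 2 = 0 := by linear_combination hNz
    exact pow_eq_zero_iff two_ne_zero |>.mp this
  intro x w hw
  rw [evr x w hw, hG0z, hG1z]
  simp

end Pool.Agent.H952R2.Sextic
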