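import Mathlib

/-!
Double covers of `ℙⁿ` branched along sextic hypersurfaces: definitions.

For a form `F` of degree `6` in `n + 1` variables over a field `L`, the double cover `X` of `ℙⁿ`
branched along `{F = 0}` is the hypersurface `w² = F(x)` in the weighted projective space
`ℙ(1, …, 1, 3)`. For `n ≥ 3` and `{F = 0}` smooth it is a smooth Fano variety of dimension `n`.
-/

set_option autoImplicit false

open MvPolynomial

namespace Pool.Agent.H952R2.SexticDefs

/-- `F` is a form of degree six and the hypersurface `{F = 0}` is smooth (there is no point over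
the algebraic closure at which all partial derivatives vanish). -/
def IsSmoothSextic {L : Type} [Field L] {n : ℕ} (F : MvPolynomial (Fin (n + 1)) L) : Prop :=
  F.IsHomogeneous 6 ∧
    ∀ x : Fin (n + 1) → AlgebraicClosure L, (∀ j, aeval x (pderiv j F) = 0) → x = 0

/-- The coordinates `(w, x)` as a family indexed by `Option (Fin (n + 1))`, `none` being the index
of `w`. -/
def coord {R : Type} {n : ℕ} (w : R) (x : Fin (n + 1) → R) : Option (Fin (n + 1)) → R :=
  fun o => o.elim w x

/-- The `L`-rational points of `X : w² = F(x)` are Zariski dense in `X`: every polynomial `G` in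
`w, x` with coefficients in the algebraic closure of `L` which vanishes at all `L`-rational points
of `X` vanishes at all points of `X` over the algebraic closure. -/
def DensePoints {L : Type} [Field L] {n : ℕ} (F : MvPolynomial (Fin (n + 1)) L) : Prop :=
  ∀ G : MvPolynomial (Option (Fin (n + 1))) (AlgebraicClosure L),
    (∀ (x : Fin (n + 1) → L) (w : L), x ≠ 0 → w ^ 2 = eval x F →
      eval (coord (algebraMap L (AlgebraicClosure L) w)
        (fun j => algebraMap L (AlgebraicClosure L) (x j))) G = 0) →
    ∀ (x : Fin (n + 1) → AlgebraicClosure L) (w : AlgebraicClosure L), w ^ 2 = aeval x F →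
      eval (coord w x) G = 0

/-- `F(p + σ D)` as a polynomial in `σ`. -/
noncomputable def along {L R : Type} [Field L] [Field R] [Algebra L R] {n : ℕ}
    (F : MvPolynomial (Fin (n + 1)) L) (p D : Fin (n + 1) → R) : Polynomial R :=
  aeval (fun j => Polynomial.C (p j) + Polynomial.C (D j) * Polynomial.X) F

/-- `{F = 0}` contains the line through the points `a, b` of `ℙⁿ(L)`, and at some point
`p = a + t b` of this line over the algebraic closure there is an asymptotic tangent direction `D`
of contact order exactly `3` with `{F = 0}` which is not conjugate to the line, that is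
`F(p + σ D)` has order exactly `3` at `σ = 0` and `F(p + σ (D + b))` has a nonzero coefficient of
`σ ^ 2`. -/
def HasGoodLine {L : Type} [Field L] {n : ℕ} (F : MvPolynomial (Fin (n + 1)) L) : Prop :=
  ∃ a b : Fin (n + 1) → L, LinearIndependent L ![a, b] ∧
    (∀ s t : L, eval (fun j => s * a j + t * b j) F = 0) ∧
    ∃ (t : AlgebraicClosure L) (D p : Fin (n + 1) → AlgebraicClosure L),
      (p = fun j => algebraMap L (AlgebraicClosure L) (a j) +
        algebraMap L (AlgebraicClosure L) (b j) * t) ∧
      (along F p D).coeff 1 = 0 ∧ (along F p D).coeff 2 = 0 ∧ (along F p D).coeff 3 ≠ 0 ∧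
      (along F p (fun j => D j + algebraMap L (AlgebraicClosure L) (b j))).coeff 2 ≠ 0

/-- The diagonal form `∑ cᵢ xᵢ⁶`. -/
noncomputable def diag {L : Type} [Field L] {n : ℕ} (c : Fin (n + 1) → L) :
    MvPolynomial (Fin (n + 1)) L := ∑ i, C (c i) * X i ^ 6

end Pool.Agent.H952R2.SexticDefs
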