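import Pool.Agent.H952R2.Sextic.Param

/-! Density. -/

namespace Pool.Agent.H952R2.Sextic

open MvPolynomial

variable {K : Type*} [Field K] {ι : Type*} [Fintype ι]

/-- linear form -/
noncomputable def lin {M : Type*} [Field M] (g : ι → M) : MvPolynomial ι M := ∑ j, C (g j) * X j

theorem eval_lin {M : Type*} [Field M] (g x : ι → M) : eval x (lin g) = ∑ j, x j * g j := by
  simp [lin, mul_comm]

theorem lin_ne_zero {M : Type*} [Field M] {g : ι → M} {j : ι} (h : g j ≠ 0) : lin g ≠ 0 := by
  classical
  intro h0
  have := eval_lin g (Pi.single j 1)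
  rw [h0, map_zero] at this
  simp [Pi.single_apply] at this
  exact h this.symm

theorem eq_zero_of_infinite {M : Type*} [Field M] [Infinite M] {P : Polynomial M} {S : Finset M}
    (h : ∀ s, s ∉ S → P.eval s = 0) : P = 0 := by
  apply Polynomial.eq_zero_of_infinite_isRoot
  refine Set.Infinite.mono (s := (S : Set M)ᶜ) (fun s hs => h s hs) ?_
  exact S.finite_toSet.infinite_compl

theorem density [CharZero K] [Algebra.IsAlgebraic ℚ K] {M : Type*} [Field M] [Algebra K M]
    [IsAlgClosed M] {F : MvPolynomial ι K} (hF : F.IsHomogeneous 6)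
    (hsm : ∀ x : ι → M, (∀ j, aeval x (pderiv j F) = 0) → x = 0)
    (a b : ι → K) (hab : LinearIndependent K ![a, b])
    (hline : lp F a b = (0 : Polynomial K))
    (H : ∃ (t : M) (D : ι → M),
      (lp F (pt M a b t) D).coeff 1 = 0 ∧ (lp F (pt M a b t) D).coeff 2 = 0 ∧
      (lp F (pt M a b t) D).coeff 3 ≠ 0 ∧ hs F (pt M a b t) D (cst M b) ≠ 0)
    (N : MvPolynomial ι M)
    (hN : ∀ (x : ι → K) (w : K), w ^ 2 = aeval x F →
      aeval (fun j => algebraMap K M (x j)) N = 0) : N = 0 := by
  classical
  have : Infinite M := IsAlgClosed.instInfinite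
  -- the gradient on the line
  set Gp : ι → Polynomial M := fun j => lp (pderiv j F) (cst M a) (cst M b) with hGp
  have evG : ∀ j t, (Gp j).eval t = aeval (pt M a b t) (pderiv j F) := fun j t => lp_eval _ _ _ _
  have evG' : ∀ j t, (Polynomial.derivative (Gp j)).eval t =
      ∑ k, algebraMap K M (b k) * aeval (pt M a b t) (pderiv k (pderiv j F)) := by
    intro j t
    rw [hGp]
    simp only [lp_derivative, Polynomial.eval_finsetSum, Polynomial.eval_mul, Polynomial.eval_C,
      lp_eval]
    rfl
  have g_eq : ∀ t x, (lp F (pt M a b t) x).coeff 1 = ∑ j, x j * (Gp j).eval t := by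
    intro t x
    simp only [lp_coeff_one, evG]
  have b_eq : ∀ t x, hs F (pt M a b t) x (cst M b) =
      ∑ j, x j * (Polynomial.derivative (Gp j)).eval t := by
    intro t x
    simp only [hs, evG', cst]
  have pne : ∀ t : M, pt M a b t ≠ 0 := by
    intro t h
    have h1 : ∀ j, algebraMap K M (a j) + algebraMap K M (b j) * t = 0 := fun j => congrFun h j
    rw [LinearIndependent.pair_iff] at hab
    have hb : ∃ i, b i ≠ 0 := by
      by_contra hcon
      push Not at hcon
      have := hab 0 1 (by funext i; simp [hcon i])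
      simp at this
    obtain ⟨i, hi⟩ := hb
    have ht : t = algebraMap K M (-(a i) / b i) := by
      have h2 : algebraMap K M (b i) ≠ 0 := by simpa using hi
      rw [map_div₀, map_neg, eq_div_iff h2]
      linear_combination h1 i
    have := hab 1 (-(a i) / b i) (by
      funext j
      apply (algebraMap K M).injective
      have := h1 j
      rw [ht, ← map_mul, ← map_add] at this
      simp only [one_smul, Pi.add_apply, Pi.smul_apply, smul_eq_mul, Pi.zero_apply, map_zero]
      rw [← this]
      congr 1
      ring)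
    simp at this
  have Gne : ∀ t : M, ∃ j, (Gp j).eval t ≠ 0 := by
    intro t
    by_contra hcon
    push Not at hcon
    exact pne t (hsm _ (fun j => by rw [← evG, hcon j]))
  have hc : ∀ t : M, ∃ c : ι → M, (lp F (pt M a b t) c).coeff 1 = 1 := by
    intro t
    obtain ⟨j, hj⟩ := Gne t
    refine ⟨Pi.single j ((Gp j).eval t)⁻¹, ?_⟩
    rw [g_eq]
    simp [Pi.single_apply, hj]
  obtain ⟨t1, D1, hD1, hD2, hD3, hW⟩ := H
  have pv := param_vanish hF a b hline (by
    obtain ⟨c, hc⟩ := hc t1
    exact ⟨t1, D1, c, hc, hD1, hD2, hD3, hW⟩) N hN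
  -- step 1
  have s1 : ∀ t x, (lp F (pt M a b t) x).coeff 1 = 0 → hs F (pt M a b t) x (cst M b) ≠ 0 →
      aeval x N = 0 := by
    intro t x hx hWx
    obtain ⟨c, hc⟩ := hc t
    obtain ⟨u, hu⟩ := IsAlgClosed.exists_pow_nat_eq ((lp F (pt M a b t) x).coeff 2)
      (n := 2) (by norm_num)
    have hDp : Dp F (pt M a b t) c x = x := by
      funext j
      simp [Dp, hc, hx]
    have key : ∀ l : M, l ≠ 0 → (lp N x (pt M a b t)).eval l = 0 := by
      intro l hl
      have h1 := pv (Sum.elim ![l, t, u] (Sum.elim c x))
        (l * hs F (pt M a b t) x (cst M b))⁻¹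
      have hDM : DD F a b (Sum.elim ![l, t, u] (Sum.elim c x)) =
          fun j => hs F (pt M a b t) x (cst M b) * x j := by
        change Del F (pt M a b t) (cst M b) u (Dp F (pt M a b t) c x) = _
        rw [hDp]
        funext j
        simp [Del, hu]
      rw [hDM] at h1
      rw [lp_eval, ← h1]
      congr 2
      funext j
      change x j + pt M a b t j * l = l * (pt M a b t j + hs F (pt M a b t) x (cst M b) * x j *
        (l * hs F (pt M a b t) x (cst M b))⁻¹)
      field_simp
      ring
    have hz : lp N x (pt M a b t) = 0 := eq_zero_of_infinite (S := {0}) (fun l hl =>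
      key l (by simpa using hl))
    rw [← lp_coeff_zero N x (pt M a b t), hz, Polynomial.coeff_zero]
  -- step 2
  have s2 : ∀ t, (∃ y, (lp F (pt M a b t) y).coeff 1 = 0 ∧ hs F (pt M a b t) y (cst M b) ≠ 0) →
      ∀ x, (lp F (pt M a b t) x).coeff 1 = 0 → aeval x N = 0 := by
    rintro t ⟨y, hy, hWy⟩ x hx
    have hz : lp N x y = 0 := by
      refine eq_zero_of_infinite (S := {-(hs F (pt M a b t) x (cst M b) /
        hs F (pt M a b t) y (cst M b))}) (fun l hl => ?_)
      rw [lp_eval]
      apply s1 t
      · have := lp_coeff_one_add F (pt M a b t) x y 1 l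
        simp only [one_mul, hx, hy, mul_zero, add_zero] at this
        rw [← this]
        congr 3
        funext j
        ring
      · intro h0
        apply hl
        have h1 : hs F (pt M a b t) (fun j => x j + y j * l) (cst M b) =
            hs F (pt M a b t) x (cst M b) + l * hs F (pt M a b t) y (cst M b) := by
          rw [hs_add_left F (pt M a b t) x (fun j => y j * l), ← hs_smul_left]
          congr 2
          funext j
          ring
        rw [h1] at h0
        rw [Finset.mem_singleton]
        field_simp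
        linear_combination h0
    rw [← lp_coeff_zero N x y, hz, Polynomial.coeff_zero]
  -- step 3
  obtain ⟨j, k, hjk⟩ : ∃ j k, (Gp j * Polynomial.derivative (Gp k) -
      Gp k * Polynomial.derivative (Gp j)).eval t1 ≠ 0 := by
    by_contra hcon
    push Not at hcon
    obtain ⟨j, hj⟩ := Gne t1
    apply hW
    rw [b_eq]
    have h1 : (Gp j).eval t1 * ∑ k, D1 k * (Polynomial.derivative (Gp k)).eval t1 = 0 := by
      have h2 : ∀ k, (Gp j).eval t1 * (D1 k * (Polynomial.derivative (Gp k)).eval t1) =
          (Polynomial.derivative (Gp j)).eval t1 * (D1 k * (Gp k).eval t1) := by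
        intro k
        have := hcon j k
        simp only [Polynomial.eval_sub, Polynomial.eval_mul] at this
        linear_combination D1 k * this
      rw [Finset.mul_sum, Finset.sum_congr rfl fun k _ => h2 k, ← Finset.mul_sum, ← g_eq, hD1,
        mul_zero]
    exact (mul_eq_zero.mp h1).resolve_left hj
  set m := Gp j * Polynomial.derivative (Gp k) - Gp k * Polynomial.derivative (Gp j) with hm
  have hm0 : m ≠ 0 := by
    intro h
    rw [h, Polynomial.eval_zero] at hjk
    exact hjk rfl
  have good : ∀ t, m.eval t ≠ 0 → ∀ x, (lp F (pt M a b t) x).coeff 1 = 0 → aeval x N = 0 := by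
    intro t ht
    apply s2
    refine ⟨fun i => (Gp j).eval t * (if i = k then 1 else 0) -
      (Gp k).eval t * (if i = j then 1 else 0), ?_, ?_⟩
    · rw [g_eq]
      simp only [sub_mul, Finset.sum_sub_distrib, mul_assoc, ite_mul, one_mul, zero_mul,
        mul_ite, mul_zero, Finset.sum_ite_eq', Finset.mem_univ, if_true]
      ring
    · rw [b_eq]
      simp only [sub_mul, Finset.sum_sub_distrib, mul_assoc, ite_mul, one_mul, zero_mul,
        mul_ite, mul_zero, Finset.sum_ite_eq', Finset.mem_univ, if_true]
      simpa [hm] using ht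
  -- step 4
  by_contra hN0
  have hW1 : ∃ i, (Polynomial.derivative (Gp i)).eval t1 ≠ 0 := by
    by_contra hcon
    push Not at hcon
    apply hW
    rw [b_eq]
    simp [hcon]
  obtain ⟨i1, hi1⟩ := hW1
  have hTheta : N * (∏ r ∈ m.roots.toFinset, lin (fun j => (Gp j).eval r)) *
      lin (fun j => (Polynomial.derivative (Gp j)).eval t1) ≠ 0 := by
    refine mul_ne_zero (mul_ne_zero hN0 (Finset.prod_ne_zero_iff.mpr fun r _ => ?_))
      (lin_ne_zero hi1)
    obtain ⟨j, hj⟩ := Gne r
    exact lin_ne_zero hj
  obtain ⟨x, hx⟩ : ∃ x : ι → M, eval x (N * (∏ r ∈ m.roots.toFinset,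
      lin (fun j => (Gp j).eval r)) * lin (fun j => (Polynomial.derivative (Gp j)).eval t1)) ≠ 0 := by
    by_contra hcon
    push Not at hcon
    exact hTheta (MvPolynomial.funext (fun x => by rw [hcon x, map_zero]))
  rw [map_mul, map_mul, map_prod] at hx
  have hx1 := left_ne_zero_of_mul (left_ne_zero_of_mul hx)
  have hx2 := right_ne_zero_of_mul (left_ne_zero_of_mul hx)
  have hx3 := right_ne_zero_of_mul hx
  rw [Finset.prod_ne_zero_iff] at hx2
  set pi : Polynomial M := ∑ j, Polynomial.C (x j) * Gp j with hpi
  have hpi_ev : ∀ t, pi.eval t = ∑ j, x j * (Gp j).eval t := by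
    intro t
    simp [hpi, Polynomial.eval_finsetSum]
  have hpi_der : (Polynomial.derivative pi).eval t1 ≠ 0 := by
    have : (Polynomial.derivative pi).eval t1 =
        ∑ j, x j * (Polynomial.derivative (Gp j)).eval t1 := by
      simp [hpi, Polynomial.eval_finsetSum]
    rw [this, ← eval_lin]
    exact hx3
  have hdeg : pi.degree ≠ 0 := by
    intro h0
    rw [Polynomial.eq_C_of_degree_eq_zero h0] at hpi_der
    simp at hpi_der
  obtain ⟨t, ht⟩ := IsAlgClosed.exists_root pi hdeg
  have htm : m.eval t ≠ 0 := by
    intro h0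
    have h1 : t ∈ m.roots.toFinset := by
      rw [Multiset.mem_toFinset, Polynomial.mem_roots hm0]
      exact h0
    apply hx2 t h1
    rw [eval_lin, ← hpi_ev]
    exact ht
  apply hx1
  have h2 := good t htm x (by rw [g_eq, ← hpi_ev]; exact ht)
  rwa [aeval_eval] at h2

end Pool.Agent.H952R2.Sextic
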