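import Pool.Agent.H952R2.Sextic.Exist
import Pool.Agent.H952R2.Sextic.Cover

/-! From `ℂ` to number fields. -/

namespace Pool.Agent.H952R2.Sextic

open MvPolynomial

section base

variable {A : Type*} [Field A] {R : Type*} [Field R] [Algebra A R] {S : Type*} [Field S]
  [Algebra A S] [Algebra R S] [IsScalarTower A R S] {ι : Type*} [Fintype ι]

omit [Fintype ι] in
theorem aeval_base (F : MvPolynomial ι A) (p : ι → S) :
    aeval p (MvPolynomial.map (algebraMap A R) F) = aeval p F := by
  rw [aeval_def, eval₂_map, aeval_def, ← IsScalarTower.algebraMap_eq]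

omit [Fintype ι] in
theorem lp_base (F : MvPolynomial ι A) (p x : ι → S) :
    lp (MvPolynomial.map (algebraMap A R) F) p x = lp F p x := by
  rw [lp, lp, aeval_def, eval₂_map, aeval_def]
  congr 1
  rw [IsScalarTower.algebraMap_eq A S (Polynomial S), IsScalarTower.algebraMap_eq R S (Polynomial S),
    RingHom.comp_assoc, ← IsScalarTower.algebraMap_eq]

theorem hs_base (F : MvPolynomial ι A) (p x y : ι → S) :
    hs (MvPolynomial.map (algebraMap A R) F) p x y = hs F p x y := by
  simp only [hs, pderiv_map, aeval_base]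

end base

/-- smoothness over an algebraically closed extension -/
theorem smooth_transfer {k : Type*} [Field k] {M : Type*} [Field M] [Algebra k M]
    {kb : Type*} [Field kb] [Algebra k kb] [IsAlgClosed kb] {ι : Type*} [Finite ι]
    {F : MvPolynomial ι k} (hsm : ∀ x : ι → kb, (∀ j, aeval x (pderiv j F) = 0) → x = 0) :
    ∀ x : ι → M, (∀ j, aeval x (pderiv j F) = 0) → x = 0 := by
  intro x hx
  by_contra hx0
  have : ∃ i, x i ≠ 0 := by
    by_contra hc
    push Not at hc
    exact hx0 (funext hc)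
  obtain ⟨i, hi⟩ := this
  obtain ⟨y, hy, hyi⟩ := transfer (kb := kb) (fun j => pderiv j F) (X i)
    ⟨x, hx, by simpa using hi⟩
  have := hsm y hy
  rw [this] at hyi
  simp at hyi

theorem exists_data_closure {k : Type*} [Field k] [CharZero k] [Algebra.IsAlgebraic ℚ k]
    {kb : Type*} [Field kb] [Algebra k kb] [IsAlgClosed kb] {ι : Type*} [Fintype ι]
    {F : MvPolynomial ι k} (hF : F.IsHomogeneous 6) (hι : 8 ≤ Fintype.card ι)
    (hsm : ∀ x : ι → kb, (∀ j, aeval x (pderiv j F) = 0) → x = 0) :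
    ∃ (p b D : ι → kb) (i0 i1 : ι), p i0 ≠ 0 ∧ b i0 = 0 ∧ b i1 ≠ 0 ∧ lp F p b = 0 ∧
      (lp F p D).coeff 1 = 0 ∧ (lp F p D).coeff 2 = 0 ∧ (lp F p D).coeff 3 ≠ 0 ∧
      hs F p D b ≠ 0 := by
  classical
  let φ : k →ₐ[ℚ] ℂ := IsAlgClosed.lift
  let _ : Algebra k ℂ := φ.toRingHom.toAlgebra
  set FC : MvPolynomial ι ℂ := MvPolynomial.map (algebraMap k ℂ) F with hFC
  have hFCh : FC.IsHomogeneous 6 := hF.map _
  have hsmC : ∀ x : ι → ℂ, (∀ j, eval x (pderiv j FC) = 0) → x = 0 := by
    intro x hx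
    refine smooth_transfer (kb := kb) hsm x (fun j => ?_)
    have := hx j
    rw [hFC, pderiv_map, eval_map, ← aeval_def] at this
    exact this
  obtain ⟨p, b, D, i0, i1, h1, h2, h3, h4, h5, h6, h7, h8⟩ := exists_data hFCh hι hsmC
  rw [hFC, lp_base] at h4 h5 h6 h7
  rw [hFC, hs_base] at h8
  set R := MvPolynomial (ι ⊕ (ι ⊕ ι)) k with hR
  set P : ι → R := fun j => X (Sum.inl j) with hP
  set B : ι → R := fun j => X (Sum.inr (Sum.inl j)) with hB
  set E : ι → R := fun j => X (Sum.inr (Sum.inr j)) with hE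
  set f : ℕ ⊕ Fin 3 → R := Sum.elim (fun i => (lp F P B).coeff i)
    ![B i0, (lp F P E).coeff 1, (lp F P E).coeff 2] with hf
  set g : R := P i0 * B i1 * (lp F P E).coeff 3 * hs F P E B with hg
  obtain ⟨y, hy, hyg⟩ := transfer (M := ℂ) (kb := kb) f g
    ⟨Sum.elim p (Sum.elim b D), by
      rintro (i | i)
      · simp only [hf, Sum.elim_inl, lp_coeff_map, hP, hB, aeval_X, Sum.elim_inr]
        rw [show (lp F (fun j => p j) fun j => b j) = lp F p b from rfl, h4, Polynomial.coeff_zero]
      · fin_cases i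
        · simpa [hf, hB] using h2
        · change aeval _ ((lp F P E).coeff 1) = 0
          simp only [lp_coeff_map, hP, hE, aeval_X, Sum.elim_inl, Sum.elim_inr]
          exact h5
        · change aeval _ ((lp F P E).coeff 2) = 0
          simp only [lp_coeff_map, hP, hE, aeval_X, Sum.elim_inl, Sum.elim_inr]
          exact h6, by
      simp only [hg, map_mul, lp_coeff_map, map_hs, hP, hB, hE, aeval_X, Sum.elim_inl,
        Sum.elim_inr]
      exact mul_ne_zero (mul_ne_zero (mul_ne_zero h1 h3) h7) h8⟩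
  refine ⟨fun j => y (Sum.inl j), fun j => y (Sum.inr (Sum.inl j)),
    fun j => y (Sum.inr (Sum.inr j)), i0, i1, ?_⟩
  simp only [hg, map_mul, lp_coeff_map, map_hs, hP, hB, hE, aeval_X] at hyg
  have q0 := left_ne_zero_of_mul (left_ne_zero_of_mul (left_ne_zero_of_mul hyg))
  have q1 := right_ne_zero_of_mul (left_ne_zero_of_mul (left_ne_zero_of_mul hyg))
  have q2 := right_ne_zero_of_mul (left_ne_zero_of_mul hyg)
  have q3 := right_ne_zero_of_mul hyg
  refine ⟨q0, ?_, q1, ?_, ?_, ?_, q2, q3⟩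
  · have := hy (Sum.inr 0)
    simpa [hf, hB] using this
  · ext i
    have := hy (Sum.inl i)
    simp only [hf, Sum.elim_inl, lp_coeff_map, hP, hB, aeval_X] at this
    rw [this, Polynomial.coeff_zero]
  · have : aeval y ((lp F P E).coeff 1) = 0 := hy (Sum.inr 1)
    simpa only [lp_coeff_map, hP, hE, aeval_X] using this
  · have : aeval y ((lp F P E).coeff 2) = 0 := hy (Sum.inr 2)
    simpa only [lp_coeff_map, hP, hE, aeval_X] using this

end Pool.Agent.H952R2.Sextic
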