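import Pool.Agent.H952R2.Sextic.Contra

/-! Existence of a line and a good tangent direction over `ℂ` for smooth sextics in `ℙⁿ`, `n ≥ 7`. -/

namespace Pool.Agent.H952R2.Sextic

open MvPolynomial

theorem exists_data {ι : Type*} [Fintype ι] {F : MvPolynomial ι ℂ} (hF : F.IsHomogeneous 6)
    (hι : 8 ≤ Fintype.card ι)
    (hsm : ∀ x : ι → ℂ, (∀ j, eval x (pderiv j F) = 0) → x = 0) :
    ∃ (p b D : ι → ℂ) (i0 i1 : ι), p i0 ≠ 0 ∧ b i0 = 0 ∧ b i1 ≠ 0 ∧ lp F p b = 0 ∧
      (lp F p D).coeff 1 = 0 ∧ (lp F p D).coeff 2 = 0 ∧ (lp F p D).coeff 3 ≠ 0 ∧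
      hs F p D b ≠ 0 := by
  classical
  obtain ⟨p, D1, hp, hdet, h1, h2, h3⟩ := not_all_zero hF (by omega) hsm
  have hpne : ∃ i0, p i0 ≠ 0 := by
    by_contra hc
    push Not at hc
    have hpz : p = 0 := funext hc
    apply hdet
    have hne : Nonempty ι := Fintype.card_pos_iff.mp (by omega)
    have : (Matrix.of fun i j => eval p (pderiv j (pderiv i F))) = 0 := by
      ext i j
      rw [Matrix.of_apply, Matrix.zero_apply]
      have h6 : (pderiv j (pderiv i F)).IsHomogeneous 4 :=
        (hF.pderiv (i := i)).pderiv (i := j)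
      have := aeval_homog h6 (0 : ℂ) (0 : ι → ℂ)
      simp only [aevalC] at this
      rw [hpz]
      simpa using this
    rw [this, Matrix.det_zero]
  obtain ⟨i0, hi0⟩ := hpne
  set φ : ℕ → MvPolynomial ι ℂ := fun i =>
    (lp F (fun j => (C (p j) : MvPolynomial ι ℂ)) (fun j => X j)).coeff i with hφ
  have evφ : ∀ i x, eval x (φ i) = (lp F p x).coeff i := fun i x => eval_lp_coeff F p x i
  have lp0 : lp F p (0 : ι → ℂ) = 0 := by
    have := lp_self_smul hF hp 0
    simp only [zero_mul] at this
    exact this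
  have evφ0 : ∀ i, eval 0 (φ i) = 0 := fun i => by rw [evφ, lp0, Polynomial.coeff_zero]
  -- the line
  obtain ⟨b, hb0, hb⟩ := exists_common_zero (κ := Fin 7) (by simp; omega)
    (![X i0, φ 1, φ 2, φ 3, φ 4, φ 5, φ 6] : Fin 7 → MvPolynomial ι ℂ) (by
      intro k
      fin_cases k
      · simp
      all_goals exact evφ0 _)
  have hbi0 : b i0 = 0 := by simpa using hb 0
  obtain ⟨i1, hi1⟩ : ∃ i1, b i1 ≠ 0 := by
    by_contra hc
    push Not at hc
    exact hb0 (funext hc)
  have hline : lp F p b = 0 := by
    ext k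
    rw [Polynomial.coeff_zero]
    by_cases hk : 6 < k
    · exact Polynomial.coeff_eq_zero_of_natDegree_lt
        (lt_of_le_of_lt (lp_natDegree_le hF.totalDegree_le _ _) hk)
    · have hk' : k = 0 ∨ k = 1 ∨ k = 2 ∨ k = 3 ∨ k = 4 ∨ k = 5 ∨ k = 6 := by omega
      rcases hk' with rfl | rfl | rfl | rfl | rfl | rfl | rfl
      · rw [lp_coeff_zero, aevalC, hp]
      · rw [← evφ]; exact hb 1
      · rw [← evφ]; exact hb 2
      · rw [← evφ]; exact hb 3
      · rw [← evφ]; exact hb 4
      · rw [← evφ]; exact hb 5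
      · rw [← evφ]; exact hb 6
  have hb1 : (lp F p b).coeff 1 = 0 := by rw [hline, Polynomial.coeff_zero]
  have hbb : hs F p b b = 0 := by rw [hs_self, hline, Polynomial.coeff_zero, zero_mul]
  by_cases hW : hs F p D1 b ≠ 0
  · exact ⟨p, b, D1, i0, i1, hi0, hbi0, hi1, hline, h1, h2, h3, hW⟩
  · push Not at hW
    -- `D1` is not in the span of `p, b`
    have hspan : ∀ x y : ℂ, D1 ≠ fun j => x * p j + y * b j := by
      intro x y hD
      apply h3
      have hz : lp F p D1 = 0 := by
        apply Polynomial.eq_zero_of_infinite_isRoot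
        have hinf : (Set.univ \ {-x⁻¹} : Set ℂ).Infinite :=
          Set.infinite_univ.sdiff (Set.finite_singleton _)
        refine hinf.mono ?_
        intro s hs
        have hs0 : s ≠ -x⁻¹ := by simpa using hs.2
        rw [Set.mem_ofPred_eq, Polynomial.IsRoot.def, lp_eval, hD]
        have h4 : 1 + x * s ≠ 0 := by
          intro h
          by_cases hx : x = 0
          · simp [hx] at h
          · apply hs0
            field_simp
            linear_combination h
        have h5 : (fun j => p j + (x * p j + y * b j) * s) =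
            fun j => (1 + x * s) * (p j + b j * (y * s / (1 + x * s))) := by
          funext j; field_simp; ring
        rw [h5, aeval_homog hF, ← lp_eval, hline]
        simp
      rw [hz, Polynomial.coeff_zero]
    have hbspan : b ∉ Submodule.span ℂ {p, D1} := by
      intro h
      obtain ⟨α, β, hαβ⟩ := Submodule.mem_span_pair.mp h
      by_cases hβ : β = 0
      · have h4 := congrFun hαβ i0
        rw [hβ] at h4
        simp only [zero_smul, add_zero, Pi.smul_apply, smul_eq_mul, hbi0] at h4
        have hα : α = 0 := (mul_eq_zero.mp h4).resolve_right hi0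
        apply hi1
        rw [← hαβ, hα, hβ]
        simp
      · apply hspan (-α / β) (1 / β)
        funext j
        have := congrFun hαβ j
        simp only [Pi.add_apply, Pi.smul_apply, smul_eq_mul] at this
        field_simp
        linear_combination this
    obtain ⟨u, hu, hu'⟩ := exists_dual hbspan
    obtain ⟨w, hw⟩ := exists_hs hdet u
    have w1 : (lp F p w).coeff 1 = 0 := by
      have h4 := hs_point hF p w
      rw [hs_comm, hw, hu p (Submodule.subset_span (by simp))] at h4
      exact (mul_eq_zero.mp h4.symm).resolve_left (by norm_num)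
    have wD : hs F p w D1 = 0 := by
      rw [hs_comm, hw, hu D1 (Submodule.subset_span (by simp))]
    have wb : hs F p w b = 1 := by rw [hs_comm, hw, hu']
    set κ := (lp F p w).coeff 2 with hκ
    set w' : ι → ℂ := fun j => 1 * w j + (-κ) * b j with hw'
    have hw's : ∀ z, hs F p w' z = hs F p w z - κ * hs F p b z := by
      intro z
      rw [hw', hs_add_left F p (fun j => 1 * w j) (fun j => (-κ) * b j), hs_smul_left,
        hs_smul_left]
      ring
    have w'1 : (lp F p w').coeff 1 = 0 := by rw [hw', lp_coeff_one_add, w1, hb1]; ring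
    have w'D : hs F p w' D1 = 0 := by rw [hw's, wD, hs_comm F p b, hW]; ring
    have w'b : hs F p w' b = 1 := by rw [hw's, wb, hbb]; ring
    have w'w' : hs F p w' w' = 0 := by
      rw [hw's, hs_comm F p w, hs_comm F p b, hw's, hw's, wb, hbb, hs_self, ← hκ,
        hs_comm F p b w, wb]
      ring
    -- the pencil of isotropic vectors
    set ψ : Polynomial ℂ := lp (φ 3) D1 w' with hψ
    have evψ : ∀ ε, ψ.eval ε = (lp F p (fun j => D1 j + w' j * ε)).coeff 3 := by
      intro ε
      rw [hψ, lp_eval, aevalC, evφ]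
    have hψ0 : ψ ≠ 0 := by
      intro h
      apply h3
      have := evψ 0
      rw [h, Polynomial.eval_zero] at this
      simp only [mul_zero, add_zero] at this
      exact this.symm
    obtain ⟨ε, hε⟩ : ∃ ε : ℂ, ε ∉ (ψ.roots.toFinset ∪ {0} : Finset ℂ) :=
      Infinite.exists_notMem_finset _
    rw [Finset.notMem_union, Multiset.mem_toFinset, Polynomial.mem_roots hψ0,
      Finset.mem_singleton] at hε
    obtain ⟨hε1, hε0⟩ := hε
    have hDε : (fun j => D1 j + w' j * ε) = fun j => 1 * D1 j + ε * w' j := by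
      funext j; ring
    refine ⟨p, b, fun j => 1 * D1 j + ε * w' j, i0, i1, hi0, hbi0, hi1, hline, ?_, ?_, ?_, ?_⟩
    · rw [lp_coeff_one_add, h1, w'1]; ring
    · have h4 : hs F p (fun j => 1 * D1 j + ε * w' j) (fun j => 1 * D1 j + ε * w' j) = 0 := by
        rw [hs_add_smul, hs_self, h2, hs_comm F p D1 w', w'D, w'w']
        ring
      rw [hs_self] at h4
      exact (mul_eq_zero.mp h4).resolve_right two_ne_zero
    · rw [← hDε, ← evψ]
      exact hε1
    · rw [hs_add_left F p (fun j => 1 * D1 j) (fun j => ε * w' j), hs_smul_left, hs_smul_left, hW,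
        w'b]
      simpa using hε0

end Pool.Agent.H952R2.Sextic
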