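import Pool.Agent.H952R2.Sextic.CommonZero

/-! Forms without common zero: the polynomial ring is integral over the algebra they generate. -/

namespace Pool.Agent.H952R2.Sextic

open MvPolynomial

theorem homogeneousComponent_mul_right {K : Type*} [Field K] {ι : Type*} {d n : ℕ}
    (h g : MvPolynomial ι K) (hg : g.IsHomogeneous d) (hn : d ≤ n) :
    homogeneousComponent n (h * g) = homogeneousComponent (n - d) h * g := by
  conv_lhs => rw [← sum_homogeneousComponent h, Finset.sum_mul, map_sum]
  have h1 : ∀ i, homogeneousComponent n (homogeneousComponent i h * g) =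
      if i = n - d then homogeneousComponent i h * g else 0 := by
    intro i
    rw [homogeneousComponent_of_mem (n := i + d)
      ((homogeneousComponent_isHomogeneous i h).mul hg)]
    by_cases hi : i = n - d
    · rw [if_pos hi, if_pos (by omega)]
    · rw [if_neg hi, if_neg (by omega)]
  simp only [h1, Finset.sum_ite_eq']
  split_ifs with h2
  · rfl
  · rw [homogeneousComponent_eq_zero (n - d) h (by
      rw [Finset.mem_range] at h2
      omega), zero_mul]

theorem isIntegral_adjoin {K : Type*} [Field K] [IsAlgClosed K] {ι κ : Type*} [Fintype ι]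
    [Fintype κ] {d : ℕ} (hd : 1 ≤ d) (g : κ → MvPolynomial ι K)
    (hg : ∀ i, (g i).IsHomogeneous d) (hz : ∀ x : ι → K, (∀ i, eval x (g i) = 0) → x = 0)
    (q : MvPolynomial ι K) : IsIntegral (Algebra.adjoin K (Set.range g)) q := by
  classical
  set I : Ideal (MvPolynomial ι K) := Ideal.span (Set.range g) with hI
  have hrad : idealOfVars ι K ≤ I.radical := by
    rw [← vanishingIdeal_zeroLocus_eq_radical (K := K), idealOfVars, Ideal.span_le]
    rintro _ ⟨j, rfl⟩
    rw [SetLike.mem_coe, mem_vanishingIdeal_iff]
    intro x hx
    have : x = 0 := hz x (fun i => by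
      rw [mem_zeroLocus_iff] at hx
      have := hx _ (Ideal.subset_span ⟨i, rfl⟩)
      rw [aeval_def, Algebra.algebraMap_self] at this
      exact this)
    simp [this]
  obtain ⟨D, hD⟩ := Ideal.exists_pow_le_of_le_radical_of_fg hrad (idealOfVars_fg _ _)
  obtain ⟨T, hT⟩ := (Module.Finite.iff_fg.mp
    (inferInstance : Module.Finite K (restrictTotalDegree ι K (D + d))))
  set S0 := Algebra.adjoin K (Set.range g) with hS0
  set W : Submodule S0 (MvPolynomial ι K) := Submodule.span S0 (T : Set (MvPolynomial ι K)) with hW
  have hTW : restrictTotalDegree ι K (D + d) ≤ W.restrictScalars K := by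
    rw [← hT, Submodule.span_le]
    exact Submodule.subset_span
  have key : ∀ n, ∀ q : MvPolynomial ι K, q.IsHomogeneous n → q ∈ W := by
    intro n
    induction n using Nat.strong_induction_on with
    | _ n ih =>
      intro q hq
      by_cases hn : n ≤ D + d
      · apply hTW
        rw [mem_restrictTotalDegree]
        exact hq.totalDegree_le.trans hn
      · have hqI : q ∈ I := by
          apply hD
          rw [mem_pow_idealOfVars_iff]
          intro x hx
          have := hq (mem_support_iff.mp hx)
          have h5 : Finsupp.degree x = n := by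
            rw [← this, Finsupp.degree_eq_weight_one]
            rfl
          omega
        obtain ⟨c, hc⟩ := (Ideal.mem_span_range_iff_exists_fun).mp hqI
        have h1 : q = ∑ i, homogeneousComponent (n - d) (c i) * g i := by
          conv_lhs => rw [← homogeneousComponent_eq_self hq, ← hc, map_sum]
          exact Finset.sum_congr rfl fun i _ =>
            homogeneousComponent_mul_right (c i) (g i) (hg i) (by omega)
        rw [h1]
        refine Submodule.sum_mem _ fun i _ => ?_
        have h2 := W.smul_mem ⟨g i, Algebra.subset_adjoin ⟨i, rfl⟩⟩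
          (ih (n - d) (by omega) _ (homogeneousComponent_isHomogeneous (n - d) (c i)))
        rw [mul_comm]
        exact h2
  have hWtop : W = ⊤ := by
    rw [eq_top_iff]
    intro q _
    rw [← sum_homogeneousComponent q]
    exact Submodule.sum_mem _ fun i _ => key i _ (homogeneousComponent_isHomogeneous i q)
  have : Module.Finite S0 (MvPolynomial ι K) := ⟨⟨T, hWtop⟩⟩
  exact IsIntegral.of_finite S0 q

end Pool.Agent.H952R2.Sextic
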