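import Pool.Agent.H952R2.Sextic.Finite

/-! The Hessian determinant of a smooth form does not vanish identically on the hypersurface. -/

namespace Pool.Agent.H952R2.Sextic

open MvPolynomial

theorem exists_zero_ne_zero {K : Type*} [Field K] [IsAlgClosed K] {ι : Type*} [Fintype ι]
    (hι : 2 ≤ Fintype.card ι) (P : MvPolynomial ι K) (hP : ¬ IsUnit P) :
    ∃ x : ι → K, x ≠ 0 ∧ eval x P = 0 := by
  by_cases h0 : eval 0 P = 0
  · obtain ⟨x, hx, h⟩ := exists_common_zero (κ := Unit) (by simp; omega) (fun _ => P)
      (fun _ => h0)
    exact ⟨x, hx, h ()⟩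
  · have h1 : Ideal.span {P} ≠ ⊤ := by
      rwa [Ne, Ideal.span_singleton_eq_top]
    obtain ⟨m, hm, hPm⟩ := Ideal.exists_le_maximal _ h1
    obtain ⟨x, rfl⟩ := isMaximal_iff_eq_vanishingIdeal_singleton.mp hm
    have h2 : P ∈ vanishingIdeal K {x} := hPm (Ideal.mem_span_singleton_self P)
    rw [mem_vanishingIdeal_singleton_iff, aeval_def, Algebra.algebraMap_self] at h2
    refine ⟨x, ?_, h2⟩
    rintro rfl
    exact h0 h2

/-- a derivation with given values on the variables -/
theorem exists_derivation {K : Type*} [Field K] {ι : Type*} [Fintype ι]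
    (k : ι → MvPolynomial ι K) :
    ∃ δ : Derivation K (MvPolynomial ι K) (MvPolynomial ι K),
      ∀ q, δ q = ∑ j, k j * pderiv j q := by
  classical
  refine ⟨mkDerivation K k, fun q => ?_⟩
  induction q using MvPolynomial.induction_on with
  | C a => simp
  | add p q hp hq => simp only [map_add, hp, hq, mul_add, Finset.sum_add_distrib]
  | mul_X p i hp =>
    simp only [Derivation.leibniz, hp, mkDerivation_X, smul_eq_mul, pderiv_X, mul_add,
      Finset.sum_add_distrib, Pi.single_apply, mul_ite, mul_one, mul_zero, Finset.sum_ite_eq,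
      Finset.sum_ite_eq', Finset.mem_univ, if_true, Finset.mul_sum]
    congr 1
    · ring
    · exact Finset.sum_congr rfl fun j _ => by ring

theorem exists_hess_ne_zero {K : Type*} [Field K] [IsAlgClosed K] [CharZero K] {ι : Type*}
    [Fintype ι] [DecidableEq ι] (hι : 2 ≤ Fintype.card ι) {F : MvPolynomial ι K} {d : ℕ}
    (hd : 2 ≤ d) (hF : F.IsHomogeneous d)
    (hsm : ∀ x : ι → K, (∀ j, eval x (pderiv j F) = 0) → x = 0) :
    ∃ p : ι → K, eval p F = 0 ∧
      (Matrix.of fun i j => eval p (pderiv j (pderiv i F))).det ≠ 0 := by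
  classical
  have hF0 : F ≠ 0 := by
    rintro rfl
    have : Nonempty ι := Fintype.card_pos_iff.mp (by omega)
    have h1 := hsm (fun _ => 1) (by simp)
    have := congrFun h1 (Classical.arbitrary ι)
    simp at this
  have hFu : ¬ IsUnit F := by
    intro h
    obtain ⟨c, hc, hFc⟩ := MvPolynomial.isUnit_iff_eq_C_of_isReduced.mp h
    have h1 : (C c : MvPolynomial ι K).IsHomogeneous 0 := isHomogeneous_C _ _
    rw [← hFc] at h1
    have := hF.inj_right h1 hF0
    omega
  obtain ⟨P, hPirr, Q, hPQ⟩ := WfDvdMonoid.exists_irreducible_factor hFu hF0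
  have hPp : Prime P := hPirr.prime
  set I : Ideal (MvPolynomial ι K) := Ideal.span {P} with hI
  have hIp : I.IsPrime := (Ideal.span_singleton_prime hPp.ne_zero).mpr hPp
  have memI : ∀ q, q ∈ I ↔ P ∣ q := fun q => Ideal.mem_span_singleton
  -- `Q` is not divisible by `P`
  have hQ : Q ∉ I := by
    rw [memI]
    rintro ⟨Q', hQ'⟩
    obtain ⟨x, hx, hPx⟩ := exists_zero_ne_zero hι P hPirr.not_isUnit
    apply hx
    apply hsm
    intro j
    rw [hPQ, hQ']
    simp [Derivation.leibniz, hPx]
  by_contra hcon
  push Not at hcon
  -- the determinant vanishes modulo `P`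
  set Hs : Matrix ι ι (MvPolynomial ι K) := Matrix.of fun i j => pderiv j (pderiv i F) with hHs
  have hdet : Hs.det ∈ I := by
    have h1 : Hs.det ∈ vanishingIdeal K (zeroLocus K I) := by
      rw [mem_vanishingIdeal_iff]
      intro x hx
      have hx' : eval x P = 0 := by
        rw [mem_zeroLocus_iff] at hx
        have := hx P (Ideal.mem_span_singleton_self P)
        rwa [aeval_def, Algebra.algebraMap_self] at this
      have h2 := hcon x (by rw [hPQ, map_mul, hx', zero_mul])
      rw [aeval_def, Algebra.algebraMap_self]
      change eval x Hs.det = 0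
      rw [RingHom.map_det, ← h2]
      congr 1
    rwa [IsPrime.vanishingIdeal_zeroLocus] at h1
  have hdet' : (Hs.map (Ideal.Quotient.mk I)).det = 0 := by
    have := RingHom.map_det (Ideal.Quotient.mk I) Hs
    rw [RingHom.mapMatrix_apply] at this
    rw [← this]
    exact Ideal.Quotient.eq_zero_iff_mem.mpr hdet
  have : IsDomain (MvPolynomial ι K ⧸ I) := Ideal.Quotient.isDomain I
  obtain ⟨v, hv0, hv⟩ := Matrix.exists_mulVec_eq_zero_iff.mpr hdet'
  choose k hk using fun j => Ideal.Quotient.mk_surjective (v j)
  have hker : ∀ i, ∑ j, k j * pderiv j (pderiv i F) ∈ I := by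
    intro i
    rw [← Ideal.Quotient.eq_zero_iff_mem, map_sum]
    have := congrFun hv i
    simp only [Matrix.mulVec, dotProduct, Matrix.map_apply, hHs, Matrix.of_apply,
      Pi.zero_apply] at this
    rw [← this]
    exact Finset.sum_congr rfl fun j _ => by rw [map_mul, hk, mul_comm]
  obtain ⟨δ, hδ⟩ := exists_derivation k
  have hδg : ∀ i, δ (pderiv i F) ∈ I := fun i => by rw [hδ]; exact hker i
  -- `δ F ∈ I`
  have hδF : δ F ∈ I := by
    have h1 : (d - 1 : ℕ) • δ F ∈ I := by
      have h2 : (d - 1 : ℕ) • δ F = ∑ i, X i * δ (pderiv i F) := by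
        rw [hδ F, Finset.smul_sum]
        have h3 : ∀ j, (d - 1 : ℕ) • (k j * pderiv j F) =
            ∑ i, k j * (X i * pderiv i (pderiv j F)) := by
          intro j
          rw [← Finset.mul_sum, (hF.pderiv (i := j)).sum_X_mul_pderiv, mul_smul_comm]
        simp only [h3, hδ, Finset.mul_sum]
        rw [Finset.sum_comm]
        refine Finset.sum_congr rfl fun i _ => Finset.sum_congr rfl fun j _ => ?_
        have h4 : pderiv i (pderiv j F) = pderiv j (pderiv i F) := by
          have h5 : ⁅(pderiv i : Derivation K (MvPolynomial ι K) (MvPolynomial ι K)),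
              (pderiv j : Derivation K (MvPolynomial ι K) (MvPolynomial ι K))⁆ = 0 := by
            apply MvPolynomial.derivation_ext
            intro k
            rw [Derivation.commutator_apply, pderiv_X, pderiv_X]
            simp [Pi.single_apply]
            split_ifs <;> simp
          have h6 := congrArg (fun D => D F) h5
          simp only [Derivation.commutator_apply, Derivation.coe_zero, Pi.zero_apply] at h6
          exact sub_eq_zero.mp h6
        rw [h4]; ring
      rw [h2]
      exact Ideal.sum_mem _ fun i _ => I.mul_mem_left _ (hδg i)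
    rw [nsmul_eq_mul] at h1
    rcases hIp.mem_or_mem h1 with h | h
    · exfalso
      have h2 : (C ((d - 1 : ℕ) : K) : MvPolynomial ι K) ∈ I := by simpa using h
      have h3 : IsUnit (C ((d - 1 : ℕ) : K) : MvPolynomial ι K) := by
        have : ((d - 1 : ℕ) : K) ≠ 0 := Nat.cast_ne_zero.mpr (by omega)
        exact (this.isUnit).map C
      exact hIp.ne_top (Ideal.eq_top_of_isUnit_mem _ h2 h3)
    · exact h
  have hδP : δ P ∈ I := by
    have h1 : Q * δ P ∈ I := by
      have h2 : δ F = P * δ Q + Q * δ P := by
        rw [hPQ, Derivation.leibniz]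
        simp
      have h3 : Q * δ P = δ F - P * δ Q := by rw [h2]; ring
      rw [h3]
      exact I.sub_mem hδF (I.mul_mem_right _ (Ideal.mem_span_singleton_self P))
    exact (hIp.mem_or_mem h1).resolve_left hQ
  have hδI : ∀ q ∈ I, δ q ∈ I := by
    intro q hq
    obtain ⟨c, rfl⟩ := (memI q).mp hq
    rw [Derivation.leibniz]
    refine I.add_mem (I.mul_mem_right _ (Ideal.mem_span_singleton_self P)) ?_
    exact I.mul_mem_left _ hδP
  -- `δ` maps the algebra of partial derivatives into `I`
  set S0 := Algebra.adjoin K (Set.range fun i => pderiv i F) with hS0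
  have hδS : ∀ s ∈ S0, δ s ∈ I := by
    intro s hs
    induction hs using Algebra.adjoin_induction with
    | mem x hx =>
      obtain ⟨i, rfl⟩ := hx
      exact hδg i
    | algebraMap r => simp
    | add x y _ _ hx hy => rw [map_add]; exact I.add_mem hx hy
    | mul x y _ _ hx hy =>
      rw [Derivation.leibniz]
      exact I.add_mem (I.mul_mem_left _ hy) (I.mul_mem_left _ hx)
  -- all `k j ∈ I`
  have hkI : ∀ j, k j ∈ I := by
    intro j
    have hδX : δ (X j) = k j := by
      rw [hδ]
      simp [pderiv_X, Pi.single_apply]
    obtain ⟨p0, hp0m, hp0⟩ := isIntegral_adjoin (d := d - 1) (by omega) (fun i => pderiv i F)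
      (fun i => hF.pderiv) hsm (X j : MvPolynomial ι K)
    have hex : ∃ n, ∃ p : Polynomial S0, p.natDegree = n ∧
        (∃ i, (p.coeff i : MvPolynomial ι K) ∉ I) ∧ Polynomial.aeval (X j : MvPolynomial ι K) p ∈ I := by
      refine ⟨_, p0, rfl, ⟨p0.natDegree, ?_⟩, ?_⟩
      · rw [Polynomial.Monic.coeff_natDegree hp0m]
        intro h
        exact hIp.ne_top ((Ideal.eq_top_iff_one _).mpr (by simpa using h))
      · rw [Polynomial.aeval_def, hp0]
        exact I.zero_mem
    obtain ⟨p, hpd, hpc, hpI⟩ := Nat.find_spec hex
    have hmin : ∀ m < Nat.find hex, ¬ ∃ p : Polynomial S0, p.natDegree = m ∧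
        (∃ i, (p.coeff i : MvPolynomial ι K) ∉ I) ∧
        Polynomial.aeval (X j : MvPolynomial ι K) p ∈ I := fun m hm => Nat.find_min hex hm
    rw [← hpd] at hmin
    -- Leibniz modulo `I`
    have hL : ∀ q : Polynomial S0, δ (Polynomial.aeval (X j : MvPolynomial ι K) q) -
        Polynomial.aeval (X j : MvPolynomial ι K) (Polynomial.derivative q) * δ (X j) ∈ I := by
      intro q
      induction q using Polynomial.induction_on' with
      | add p q hp hq =>
        have : δ (Polynomial.aeval (X j : MvPolynomial ι K) (p + q)) -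
            Polynomial.aeval (X j : MvPolynomial ι K) (Polynomial.derivative (p + q)) * δ (X j) =
            (δ (Polynomial.aeval (X j : MvPolynomial ι K) p) -
            Polynomial.aeval (X j : MvPolynomial ι K) (Polynomial.derivative p) * δ (X j)) +
            (δ (Polynomial.aeval (X j : MvPolynomial ι K) q) -
            Polynomial.aeval (X j : MvPolynomial ι K) (Polynomial.derivative q) * δ (X j)) := by
          simp only [map_add]; ring
        rw [this]
        exact I.add_mem hp hq
      | monomial n c =>
        have : δ (Polynomial.aeval (X j : MvPolynomial ι K) (Polynomial.monomial n c)) -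
            Polynomial.aeval (X j : MvPolynomial ι K)
              (Polynomial.derivative (Polynomial.monomial n c)) * δ (X j) =
            (X j) ^ n * δ (c : MvPolynomial ι K) := by
          rw [Polynomial.aeval_monomial, Polynomial.derivative_monomial, Polynomial.aeval_monomial]
          have h1 : (algebraMap S0 (MvPolynomial ι K)) c = (c : MvPolynomial ι K) := rfl
          rw [Derivation.leibniz, Derivation.leibniz_pow, map_mul, h1, map_natCast]
          simp only [smul_eq_mul, nsmul_eq_mul]
          ring
        rw [this]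
        exact I.mul_mem_left _ (hδS c c.2)
    have hLp := hL p
    have h1 : Polynomial.aeval (X j : MvPolynomial ι K) (Polynomial.derivative p) * δ (X j) ∈ I := by
      have := I.sub_mem (hδI _ hpI) hLp
      simpa using this
    rcases hIp.mem_or_mem h1 with h | h
    · exfalso
      by_cases hdeg : p.natDegree = 0
      · obtain ⟨i, hi⟩ := hpc
        rw [Polynomial.eq_C_of_natDegree_eq_zero hdeg] at hpI hi
        rw [Polynomial.aeval_C] at hpI
        by_cases hi0 : i = 0
        · subst hi0
          apply hi
          simpa using hpI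
        · apply hi
          rw [Polynomial.coeff_C_of_ne_zero hi0]
          exact I.zero_mem
      · refine hmin _ (Polynomial.natDegree_derivative_lt hdeg) ⟨_, rfl, ?_, h⟩
        by_contra hc
        push Not at hc
        have h2 : ∀ i, i ≠ 0 → (p.coeff i : MvPolynomial ι K) ∈ I := by
          intro i hi
          obtain ⟨i, rfl⟩ := Nat.exists_eq_succ_of_ne_zero hi
          have h3 := hc i
          rw [Polynomial.coeff_derivative] at h3
          have h4 : ((p.coeff (i + 1) * ((i : S0) + 1) : S0) : MvPolynomial ι K) =
              (p.coeff (i + 1) : MvPolynomial ι K) * ((i : MvPolynomial ι K) + 1) := by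
            push_cast; ring
          rw [h4] at h3
          rcases hIp.mem_or_mem h3 with h5 | h5
          · exact h5
          · exfalso
            have h6 : (C ((i : K) + 1) : MvPolynomial ι K) ∈ I := by simpa using h5
            have h7 : IsUnit (C ((i : K) + 1) : MvPolynomial ι K) := by
              have : ((i : K) + 1) ≠ 0 := by exact_mod_cast Nat.succ_ne_zero i
              exact (this.isUnit).map C
            exact hIp.ne_top (Ideal.eq_top_of_isUnit_mem _ h6 h7)
        have h8 : (p.coeff 0 : MvPolynomial ι K) ∈ I := by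
          rw [Polynomial.aeval_eq_sum_range, Finset.sum_range_succ'] at hpI
          have h9 : ∑ i ∈ Finset.range p.natDegree,
              p.coeff (i + 1) • (X j : MvPolynomial ι K) ^ (i + 1) ∈ I :=
            Ideal.sum_mem _ fun i _ => I.mul_mem_right _ (h2 (i + 1) (Nat.succ_ne_zero i))
          have := (I.add_mem_iff_right h9).mp hpI
          rw [pow_zero] at this
          have h10 : p.coeff 0 • (1 : MvPolynomial ι K) = (p.coeff 0 : MvPolynomial ι K) := by
            change (p.coeff 0 : MvPolynomial ι K) * 1 = _
            rw [mul_one]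
          rwa [h10] at this
        obtain ⟨i, hi⟩ := hpc
        by_cases hi0 : i = 0
        · subst hi0; exact hi h8
        · exact hi (h2 i hi0)
    · rwa [hδX] at h
  apply hv0
  funext j
  rw [← hk j]
  exact Ideal.Quotient.eq_zero_iff_mem.mpr (hkI j)

end Pool.Agent.H952R2.Sextic
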