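import Pool.Agent.H952R2.Sextic.LinePoly

/-! Tangent lines along a line contained in the branch divisor. -/

namespace Pool.Agent.H952R2.Sextic

open MvPolynomial

section defs

variable {K : Type*} [Field K] {ι : Type*} [Fintype ι] {R : Type*} [CommRing R] [Algebra K R]

/-- the point `a + b t` of the line -/
def pt (R : Type*) [CommRing R] [Algebra K R] (a b : ι → K) (t : R) : ι → R :=
  fun j => algebraMap K R (a j) + algebraMap K R (b j) * t

/-- constants -/
def cst (R : Type*) [CommRing R] [Algebra K R] (b : ι → K) : ι → R := fun j => algebraMap K R (b j)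

/-- the tangent vector made of `c` and `D` -/
noncomputable def Dp (F : MvPolynomial ι K) (p c D : ι → R) : ι → R :=
  fun j => (lp F p c).coeff 1 * D j - (lp F p D).coeff 1 * c j

/-- the direction, `y` tangent, `b` an isotropic vector -/
noncomputable def Del (F : MvPolynomial ι K) (p b : ι → R) (u : R) (y : ι → R) : ι → R :=
  fun j => hs F p y b * y j + (u ^ 2 - (lp F p y).coeff 2) * b j

end defs

section coeffs

variable {K : Type*} [Field K] {ι : Type*} [Fintype ι] {R : Type*} [CommRing R] [Algebra K R]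

theorem lp_coeff_one_add (F : MvPolynomial ι K) (p x y : ι → R) (α β : R) :
    (lp F p (fun j => α * x j + β * y j)).coeff 1 =
      α * (lp F p x).coeff 1 + β * (lp F p y).coeff 1 := by
  simp only [lp_coeff_one, Finset.mul_sum, ← Finset.sum_add_distrib]
  exact Finset.sum_congr rfl fun j _ => by ring

theorem Dp_coeff_one (F : MvPolynomial ι K) (p c D : ι → R) :
    (lp F p (Dp F p c D)).coeff 1 = 0 := by
  have := lp_coeff_one_add F p D c ((lp F p c).coeff 1) (-(lp F p D).coeff 1)
  unfold Dp
  simp only [neg_mul, ← sub_eq_add_neg] at this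
  rw [this]; ring

theorem hs_add_smul (F : MvPolynomial ι K) (p x y : ι → R) (α β : R) :
    hs F p (fun j => α * x j + β * y j) (fun j => α * x j + β * y j) =
      α ^ 2 * hs F p x x + 2 * α * β * hs F p x y + β ^ 2 * hs F p y y := by
  have h1 : ∀ z, hs F p (fun j => α * x j + β * y j) z = α * hs F p x z + β * hs F p y z := by
    intro z
    rw [hs_add_left F p (fun j => α * x j) (fun j => β * y j) z, hs_smul_left, hs_smul_left]
  have h2 : ∀ z, hs F p z (fun j => α * x j + β * y j) = α * hs F p z x + β * hs F p z y := by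
    intro z
    rw [hs_comm, h1, hs_comm F p x z, hs_comm F p y z]
  rw [h1, h2, h2, hs_comm F p y x]
  ring

theorem Del_coeff (h2 : IsUnit (2 : R)) (F : MvPolynomial ι K) (p b : ι → R) (hb : lp F p b = 0)
    (u : R) (y : ι → R) (hy : (lp F p y).coeff 1 = 0) :
    (lp F p (Del F p b u y)).coeff 0 = 0 ∧ (lp F p (Del F p b u y)).coeff 1 = 0 ∧
      (lp F p (Del F p b u y)).coeff 2 = (hs F p y b * u) ^ 2 := by
  refine ⟨?_, ?_, ?_⟩
  · rw [lp_coeff_zero, ← lp_coeff_zero F p b, hb, Polynomial.coeff_zero]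
  · unfold Del
    rw [lp_coeff_one_add, hy, hb, Polynomial.coeff_zero, mul_zero, mul_zero, add_zero]
  · rw [← h2.mul_left_inj, ← hs_self]
    unfold Del
    rw [hs_add_smul, hs_self, hs_self, hb,
      Polynomial.coeff_zero]
    ring

omit [Fintype ι] in
theorem lp_shift (F : MvPolynomial ι K) (p x : ι → R) (t : R) :
    lp F (fun j => p j + x j * t) x = (lp F p x).comp (Polynomial.X + Polynomial.C t) := by
  have h := MvPolynomial.comp_aeval_apply
    (f := fun j => Polynomial.C (p j) + Polynomial.C (x j) * Polynomial.X)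
    ((Polynomial.aeval (Polynomial.X + Polynomial.C t) :
      Polynomial R →ₐ[R] Polynomial R).restrictScalars K) F
  simp only [AlgHom.coe_restrictScalars'] at h
  rw [Polynomial.comp_eq_aeval, lp, lp, h]
  congr 2
  funext j
  simp only [map_add, map_mul, Polynomial.aeval_C, Polynomial.aeval_X,
    Polynomial.algebraMap_eq]
  ring

omit [Fintype ι] in
theorem lp_line (F : MvPolynomial ι K) (a b : ι → K) (hline : lp F a b = (0 : Polynomial K))
    (t : R) : lp F (pt R a b t) (cst R b) = 0 := by
  have h1 := lp_map (Algebra.ofId K R) F a b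
  rw [hline, Polynomial.map_zero] at h1
  have h2 := lp_shift F (cst R a) (cst R b) t
  have h3 : lp F (cst R a) (cst R b) = 0 := h1.symm
  rw [h3, Polynomial.zero_comp] at h2
  exact h2

end coeffs

section natural

variable {K : Type*} [Field K] {ι : Type*} [Fintype ι] {R : Type*} [CommRing R] [Algebra K R]
  {R' : Type*} [CommRing R'] [Algebra K R'] (φ : R →ₐ[K] R')

omit [Fintype ι] in
theorem map_pt (a b : ι → K) (t : R) : (fun j => φ (pt R a b t j)) = pt R' a b (φ t) := by
  funext j
  simp [pt]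

omit [Fintype ι] in
theorem map_cst (b : ι → K) : (fun j => φ (cst R b j)) = cst R' b := by
  funext j
  simp [cst]

omit [Fintype ι] in
theorem map_Dp (F : MvPolynomial ι K) (p c D : ι → R) :
    (fun j => φ (Dp F p c D j)) =
      Dp F (fun j => φ (p j)) (fun j => φ (c j)) (fun j => φ (D j)) := by
  funext j
  simp only [Dp, map_sub, map_mul, lp_coeff_map]

theorem map_hs (F : MvPolynomial ι K) (p x y : ι → R) :
    φ (hs F p x y) = hs F (fun j => φ (p j)) (fun j => φ (x j)) (fun j => φ (y j)) := by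
  have h : ∀ G : MvPolynomial ι K, φ (aeval p G) = aeval (fun j => φ (p j)) G := fun G =>
    MvPolynomial.comp_aeval_apply (f := p) φ G
  simp only [hs, map_sum, map_mul, h]

theorem map_Del (F : MvPolynomial ι K) (p b : ι → R) (u : R) (y : ι → R) :
    (fun j => φ (Del F p b u y j)) =
      Del F (fun j => φ (p j)) (fun j => φ (b j)) (φ u) (fun j => φ (y j)) := by
  funext j
  simp only [Del, map_sub, map_mul, map_add, map_pow, lp_coeff_map, map_hs]

end natural

section main

variable {K : Type*} [Field K] {ι : Type*} [Fintype ι]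

/-- parameters: `l, t, u` and the vectors `c, D` -/
abbrev Prm (ι : Type*) := Fin 3 ⊕ (ι ⊕ ι)

/-- total direction with the parameters in `R` -/
noncomputable def DD {R : Type*} [CommRing R] [Algebra K R] (F : MvPolynomial ι K) (a b : ι → K)
    (v : Prm ι → R) : ι → R :=
  Del F (pt R a b (v (Sum.inl 1))) (cst R b) (v (Sum.inl 2))
    (Dp F (pt R a b (v (Sum.inl 1))) (fun j => v (Sum.inr (Sum.inl j)))
      (fun j => v (Sum.inr (Sum.inr j))))

noncomputable def WW {R : Type*} [CommRing R] [Algebra K R] (F : MvPolynomial ι K) (a b : ι → K)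
    (v : Prm ι → R) : R :=
  hs F (pt R a b (v (Sum.inl 1)))
    (Dp F (pt R a b (v (Sum.inl 1))) (fun j => v (Sum.inr (Sum.inl j)))
      (fun j => v (Sum.inr (Sum.inr j)))) (cst R b)

theorem map_DD {R : Type*} [CommRing R] [Algebra K R] {R' : Type*} [CommRing R'] [Algebra K R']
    (φ : R →ₐ[K] R') (F : MvPolynomial ι K) (a b : ι → K) (v : Prm ι → R) :
    (fun j => φ (DD F a b v j)) = DD F a b (fun i => φ (v i)) := by
  unfold DD
  rw [map_Del, map_pt, map_cst, map_Dp, map_pt]

theorem map_WW {R : Type*} [CommRing R] [Algebra K R] {R' : Type*} [CommRing R'] [Algebra K R']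
    (φ : R →ₐ[K] R') (F : MvPolynomial ι K) (a b : ι → K) (v : Prm ι → R) :
    φ (WW F a b v) = WW F a b (fun i => φ (v i)) := by
  unfold WW
  rw [map_hs, map_pt, map_cst, map_Dp, map_pt]

theorem DD_coeff {R : Type*} [CommRing R] [Algebra K R] [CharZero K]
    (F : MvPolynomial ι K) (a b : ι → K) (hline : lp F a b = (0 : Polynomial K)) (v : Prm ι → R) :
    (lp F (pt R a b (v (Sum.inl 1))) (DD F a b v)).coeff 0 = 0 ∧
    (lp F (pt R a b (v (Sum.inl 1))) (DD F a b v)).coeff 1 = 0 ∧
    (lp F (pt R a b (v (Sum.inl 1))) (DD F a b v)).coeff 2 =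
      (WW F a b v * v (Sum.inl 2)) ^ 2 := by
  have h2 : IsUnit (2 : R) := by
    have : IsUnit (2 : K) := (two_ne_zero).isUnit
    have := this.map (algebraMap K R)
    rwa [map_ofNat] at this
  exact Del_coeff h2 F _ _ (lp_line F a b hline _) _ _ (Dp_coeff_one F _ _ _)

theorem aeval_homog {R : Type*} [CommRing R] [Algebra K R] {F : MvPolynomial ι K} {d : ℕ}
    (hF : F.IsHomogeneous d) (l : R) (x : ι → R) :
    aeval (fun j => l * x j) F = l ^ d * aeval x F := by
  rw [aeval_def, aeval_def, eval₂_eq', eval₂_eq', Finset.mul_sum]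
  refine Finset.sum_congr rfl fun m hm => ?_
  have h1 : ∑ i, m i = d := by
    have := hF (mem_support_iff.mp hm)
    rw [Finsupp.weight_apply, Finsupp.sum_fintype _ _ (by simp)] at this
    simpa using this
  simp only [mul_pow, Finset.prod_mul_distrib, Finset.prod_pow_eq_pow_sum, h1]
  ring

theorem aeval_line {R : Type*} [CommRing R] [Algebra K R] [CharZero K] {F : MvPolynomial ι K}
    (hF : F.IsHomogeneous 6) (a b : ι → K) (hline : lp F a b = (0 : Polynomial K))
    (v : Prm ι → R) (l s : R) :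
    aeval (fun j => l * (pt R a b (v (Sum.inl 1)) j + DD F a b v j * s)) F =
      (l ^ 3 * s) ^ 2 * ((WW F a b v * v (Sum.inl 2)) ^ 2 +
        (lp F (pt R a b (v (Sum.inl 1))) (DD F a b v)).coeff 3 * s +
        (lp F (pt R a b (v (Sum.inl 1))) (DD F a b v)).coeff 4 * s ^ 2 +
        (lp F (pt R a b (v (Sum.inl 1))) (DD F a b v)).coeff 5 * s ^ 3 +
        (lp F (pt R a b (v (Sum.inl 1))) (DD F a b v)).coeff 6 * s ^ 4) := by
  rw [aeval_homog hF, ← lp_eval, Polynomial.eval_eq_sum_range' (n := 7)
    (Nat.lt_succ_of_le (lp_natDegree_le hF.totalDegree_le _ _))]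
  obtain ⟨h0, h1, h2⟩ := DD_coeff F a b hline v
  simp only [Finset.sum_range_succ, Finset.sum_range_zero, h0, h1, h2]
  ring

/-- generic coefficient -/
noncomputable def genQ (F : MvPolynomial ι K) (a b : ι → K) (i : ℕ) : MvPolynomial (Prm ι) K :=
  (lp F (pt (MvPolynomial (Prm ι) K) a b (X (Sum.inl 1))) (DD F a b X)).coeff i

noncomputable def genU (F : MvPolynomial ι K) (a b : ι → K) : MvPolynomial (Prm ι) K :=
  WW F a b X * X (Sum.inl 2)

theorem aeval_genQ {S : Type*} [CommRing S] [Algebra K S] (F : MvPolynomial ι K) (a b : ι → K)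
    (i : ℕ) (v : Prm ι → S) :
    aeval v (genQ F a b i) = (lp F (pt S a b (v (Sum.inl 1))) (DD F a b v)).coeff i := by
  rw [genQ, lp_coeff_map, map_pt, map_DD]
  simp only [aeval_X]

theorem aeval_genU {S : Type*} [CommRing S] [Algebra K S] (F : MvPolynomial ι K) (a b : ι → K)
    (v : Prm ι → S) :
    aeval v (genU F a b) = WW F a b v * v (Sum.inl 2) := by
  rw [genU, map_mul, map_WW]
  simp only [aeval_X]

omit [Fintype ι] in
theorem aeval_eval {κ : Type*} (v : κ → K) (p : MvPolynomial κ K) : aeval v p = eval v p := by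
  rw [aeval_def, Algebra.algebraMap_self]
  rfl

theorem eval_genQ (F : MvPolynomial ι K) (a b : ι → K) (i : ℕ) (v : Prm ι → K) :
    eval v (genQ F a b i) = (lp F (pt K a b (v (Sum.inl 1))) (DD F a b v)).coeff i := by
  rw [← aeval_genQ, aeval_eval]

theorem eval_genU (F : MvPolynomial ι K) (a b : ι → K) (v : Prm ι → K) :
    eval v (genU F a b) = WW F a b v * v (Sum.inl 2) := by
  rw [← aeval_genU, aeval_eval]

/-- The key vanishing statement. -/
theorem param_vanish [CharZero K] [Algebra.IsAlgebraic ℚ K] {M : Type*} [Field M] [Algebra K M]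
    {F : MvPolynomial ι K} (hF : F.IsHomogeneous 6) (a b : ι → K)
    (hline : lp F a b = (0 : Polynomial K))
    (H : ∃ (t : M) (D c : ι → M), (lp F (pt M a b t) c).coeff 1 = 1 ∧
      (lp F (pt M a b t) D).coeff 1 = 0 ∧ (lp F (pt M a b t) D).coeff 2 = 0 ∧
      (lp F (pt M a b t) D).coeff 3 ≠ 0 ∧ hs F (pt M a b t) D (cst M b) ≠ 0)
    (N : MvPolynomial ι M)
    (hN : ∀ (x : ι → K) (w : K), w ^ 2 = aeval x F →
      aeval (fun j => algebraMap K M (x j)) N = 0) :
    ∀ (v : Prm ι → M) (s : M),
      aeval (fun j => v (Sum.inl 0) * (pt M a b (v (Sum.inl 1)) j + DD F a b v j * s)) N = 0 := by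
  classical
  obtain ⟨t1, D1, c1, hc, hD1, hD2, hD3, hW⟩ := H
  -- the special point over `M`
  set vM : Prm ι → M := Sum.elim ![1, t1, 0] (Sum.elim c1 D1) with hvM
  have hv1 : vM (Sum.inl 1) = t1 := rfl
  have hv2 : vM (Sum.inl 2) = 0 := rfl
  have hDp : Dp F (pt M a b t1) c1 D1 = D1 := by
    funext j
    simp [Dp, hc, hD1]
  have hWM : WW F a b vM = hs F (pt M a b t1) D1 (cst M b) := by
    change hs F (pt M a b t1) (Dp F (pt M a b t1) c1 D1) (cst M b) = _
    rw [hDp]
  have hDM : DD F a b vM = fun j => hs F (pt M a b t1) D1 (cst M b) * D1 j := by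
    change Del F (pt M a b t1) (cst M b) 0 (Dp F (pt M a b t1) c1 D1) = _
    rw [hDp]
    funext j
    simp [Del, hD2]
  have hq1M : aeval vM (genQ F a b 3) ≠ 0 := by
    rw [aeval_genQ, hDM, hv1, lp_smul_coeff]
    exact mul_ne_zero (pow_ne_zero _ hW) hD3
  -- the special point over `K`
  obtain ⟨t0, ht0, hq0⟩ : ∃ t0 : Prm ι → K, t0 (Sum.inl 2) = 0 ∧ eval t0 (genQ F a b 3) ≠ 0 := by
    set g : Prm ι → MvPolynomial (Prm ι) K := fun i => if i = Sum.inl 2 then 0 else X i with hg
    have hne : aeval g (genQ F a b 3) ≠ 0 := by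
      intro h0
      apply hq1M
      have h1 := MvPolynomial.comp_aeval_apply (f := g)
        (aeval vM : MvPolynomial (Prm ι) K →ₐ[K] M) (genQ F a b 3)
      rw [h0, map_zero] at h1
      rw [h1]
      congr 2
      funext i
      by_cases hi : i = Sum.inl 2
      · simp [hg, hi, hv2]
      · simp [hg, hi]
    obtain ⟨x, hx⟩ : ∃ x : Prm ι → K, eval x (aeval g (genQ F a b 3)) ≠ 0 := by
      by_contra hcon
      push Not at hcon
      exact hne (MvPolynomial.funext (fun x => by rw [hcon x, map_zero]))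
    refine ⟨fun i => if i = Sum.inl 2 then 0 else x i, by simp, ?_⟩
    intro h0
    apply hx
    have h1 := MvPolynomial.comp_aeval_apply (f := g)
      (aeval x : MvPolynomial (Prm ι) K →ₐ[K] K) (genQ F a b 3)
    rw [← aeval_eval] at h0 ⊢
    rw [h1, ← h0]
    congr 2
    funext i
    by_cases hi : i = Sum.inl 2
    · simp [hg, hi]
    · simp [hg, hi]
  have hU0 : eval t0 (genU F a b) = 0 := by rw [eval_genU, ht0, mul_zero]
  have hU : genU F a b ≠ 0 := by
    intro h
    set v1 : Prm ι → M := Sum.elim ![1, t1, 1] (Sum.elim c1 D1) with hv1'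
    have h1 := aeval_genU F a b v1
    rw [h, map_zero] at h1
    have h2 : WW F a b v1 = WW F a b vM := rfl
    rw [h2, hWM] at h1
    have h3 : v1 (Sum.inl 2) = 1 := rfl
    rw [h3, mul_one] at h1
    exact hW h1.symm
  -- apply the 2-adic theorem
  set P : Polynomial (MvPolynomial (Prm ι) M) :=
    lp N (fun j => X (Sum.inl 0) * pt (MvPolynomial (Prm ι) M) a b (X (Sum.inl 1)) j)
      (fun j => X (Sum.inl 0) * DD F a b X j) with hP
  have evP : ∀ (v : Prm ι → M) (s : M), Polynomial.eval s (P.map (eval v)) =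
      aeval (fun j => v (Sum.inl 0) * (pt M a b (v (Sum.inl 1)) j + DD F a b v j * s)) N := by
    intro v s
    have e1 := lp_map (aeval v : MvPolynomial (Prm ι) M →ₐ[M] M) N
      (fun j => X (Sum.inl 0) * pt (MvPolynomial (Prm ι) M) a b (X (Sum.inl 1)) j)
      (fun j => X (Sum.inl 0) * DD F a b X j)
    have e2 : ((aeval v : MvPolynomial (Prm ι) M →ₐ[M] M) : MvPolynomial (Prm ι) M →+* M) =
        eval v := RingHom.ext fun p => aeval_eval v p
    rw [e2] at e1
    rw [hP, e1, lp_eval]
    congr 2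
    funext j
    have e3 := congrFun (map_pt ((aeval v : MvPolynomial (Prm ι) M →ₐ[M] M).restrictScalars K)
      a b (X (Sum.inl 1))) j
    have e4 := congrFun (map_DD ((aeval v : MvPolynomial (Prm ι) M →ₐ[M] M).restrictScalars K)
      F a b X) j
    simp only [AlgHom.coe_restrictScalars', aeval_X] at e3 e4
    simp only [map_mul, aeval_X, e3, e4]
    ring
  have hPz : P = 0 := by
    refine thmG (genU F a b) (genQ F a b 3) (genQ F a b 4) (genQ F a b 5) (genQ F a b 6) t0 hU0 hU
      hq0 P ?_
    rintro t s ⟨w, hw⟩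
    rw [evP]
    have h5 := aeval_line hF a b hline t (t (Sum.inl 0)) s
    simp only [eval_genU, eval_genQ] at hw
    rw [← hw] at h5
    have h6 := hN (fun j => t (Sum.inl 0) * (pt K a b (t (Sum.inl 1)) j + DD F a b t j * s))
      (t (Sum.inl 0) ^ 3 * s * w) (by rw [h5]; ring)
    rw [← h6]
    congr 2
    funext j
    have e3 := congrFun (map_pt (Algebra.ofId K M) a b (t (Sum.inl 1))) j
    have e4 := congrFun (map_DD (Algebra.ofId K M) F a b t) j
    simp only [Algebra.ofId_apply] at e3 e4
    simp only [map_mul, map_add, e3, e4]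
  intro v s
  rw [← evP, hPz]
  simp

end main

end Pool.Agent.H952R2.Sextic
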