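import Pool.Agent.H952R2.Sextic.Lagr
import Pool.Agent.H952R2.Sextic.Hess
import Pool.Agent.H952R2.Sextic.Param

/-! Existence of good tangent directions, over `ℂ`. -/

namespace Pool.Agent.H952R2.Sextic

open MvPolynomial Topology Filter

section

variable {ι : Type*} [Fintype ι]

omit [Fintype ι] in
theorem aevalC (p : ι → ℂ) (q : MvPolynomial ι ℂ) : aeval p q = eval p q := aeval_eval p q

/-- dual vectors -/
theorem exists_dual {S : Submodule ℂ (ι → ℂ)} {x : ι → ℂ} (hx : x ∉ S) :
    ∃ u : ι → ℂ, (∀ s ∈ S, ∑ j, s j * u j = 0) ∧ ∑ j, x j * u j = 1 := by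
  classical
  obtain ⟨f, hf, hS⟩ := Submodule.exists_dual_map_eq_bot_of_notMem hx inferInstance
  have hrep : ∀ v : ι → ℂ, f v = ∑ j, v j * f (Pi.single j 1) := by
    intro v
    conv_lhs => rw [pi_eq_sum_univ' v]
    rw [map_sum]
    refine Finset.sum_congr rfl fun j _ => ?_
    rw [map_smul, smul_eq_mul]
  refine ⟨fun j => f (Pi.single j 1) / f x, ?_, ?_⟩
  · intro s hs
    have h1 : f s = 0 := by
      have : f s ∈ S.map f := Submodule.mem_map_of_mem hs
      rw [hS] at this
      simpa using this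
    have h2 : ∑ j, s j * (f (Pi.single j 1) / f x) = f s / f x := by
      rw [hrep s, Finset.sum_div]
      exact Finset.sum_congr rfl fun j _ => by ring
    rw [h2, h1, zero_div]
  · have h2 : ∑ j, x j * (f (Pi.single j 1) / f x) = f x / f x := by
      conv_rhs => rw [hrep x]
      rw [Finset.sum_div]
      refine Finset.sum_congr rfl fun j _ => ?_
      rw [← hrep x]
      ring
    rw [h2, div_self hf]

/-- solving with the Hessian -/
theorem exists_hs {F : MvPolynomial ι ℂ} [DecidableEq ι] {p : ι → ℂ}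
    (hdet : (Matrix.of fun i j => eval p (pderiv j (pderiv i F))).det ≠ 0) (u : ι → ℂ) :
    ∃ e : ι → ℂ, ∀ x, hs F p x e = ∑ j, x j * u j := by
  set H := Matrix.of fun i j => eval p (pderiv j (pderiv i F)) with hH
  refine ⟨H⁻¹.mulVec u, fun x => ?_⟩
  have h1 : H.mulVec (H⁻¹.mulVec u) = u := by
    rw [Matrix.mulVec_mulVec, Matrix.mul_nonsing_inv _ (isUnit_iff_ne_zero.mpr hdet),
      Matrix.one_mulVec]
  have h2 : ∀ j, ∑ k, (H⁻¹.mulVec u) k * aeval p (pderiv k (pderiv j F)) = u j := by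
    intro j
    have := congrFun h1 j
    rw [Matrix.mulVec, dotProduct] at this
    rw [← this]
    refine Finset.sum_congr rfl fun k _ => ?_
    rw [hH, Matrix.of_apply, aevalC, mul_comm]
  rw [hs]
  exact Finset.sum_congr rfl fun j _ => by rw [h2]

theorem hs_point {F : MvPolynomial ι ℂ} (hF : F.IsHomogeneous 6) (p x : ι → ℂ) :
    hs F p x p = 5 * (lp F p x).coeff 1 := by
  rw [lp_coeff_one, hs, Finset.mul_sum]
  refine Finset.sum_congr rfl fun j _ => ?_
  have h1 := congrArg (aeval p : MvPolynomial ι ℂ →ₐ[ℂ] ℂ) (hF.pderiv (i := j)).sum_X_mul_pderiv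
  rw [map_sum, map_nsmul] at h1
  simp only [map_mul, aeval_X] at h1
  rw [h1]
  simp
  ring

theorem lp_pderiv_one (F : MvPolynomial ι ℂ) (p D x : ι → ℂ) :
    ∑ j, x j * (lp (pderiv j F) p D).coeff 1 = hs F p x D := by
  rw [hs]
  refine Finset.sum_congr rfl fun j _ => ?_
  rw [lp_coeff_one]

/-- multiples of the base point -/
theorem lp_self_smul {F : MvPolynomial ι ℂ} (hF : F.IsHomogeneous 6) {p : ι → ℂ}
    (hp : eval p F = 0) (c : ℂ) : lp F p (fun j => c * p j) = 0 := by
  apply Polynomial.funext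
  intro s
  rw [lp_eval]
  have h1 : (fun j => p j + c * p j * s) = fun j => (1 + c * s) * p j := by
    funext j; ring
  rw [h1, aeval_homog hF, aevalC, hp]
  simp

theorem surj3 {F : MvPolynomial ι ℂ} (hF : F.IsHomogeneous 6) [DecidableEq ι] {p : ι → ℂ}
    (hdet : (Matrix.of fun i j => eval p (pderiv j (pderiv i F))).det ≠ 0) {D : ι → ℂ}
    (hD : D ∉ Submodule.span ℂ {p}) (hp : p ∉ Submodule.span ℂ {D}) :
    ∃ e0 e1 : ι → ℂ, ∑ j, e0 j * aeval p (pderiv j F) = 1 ∧
      ∑ j, e0 j * (lp (pderiv j F) p D).coeff 1 = 0 ∧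
      ∑ j, e1 j * aeval p (pderiv j F) = 0 ∧ ∑ j, e1 j * (lp (pderiv j F) p D).coeff 1 = 1 := by
  obtain ⟨u1, hu1, hu1'⟩ := exists_dual hD
  obtain ⟨u0, hu0, hu0'⟩ := exists_dual hp
  obtain ⟨e1, he1⟩ := exists_hs hdet u1
  obtain ⟨e0, he0⟩ := exists_hs hdet (fun j => 5 * u0 j)
  refine ⟨e0, e1, ?_, ?_, ?_, ?_⟩
  · have h1 := hs_point hF p e0
    rw [hs_comm, he0, lp_coeff_one] at h1
    have h2 : ∑ j, p j * (5 * u0 j) = 5 := by
      have : ∑ j, p j * (5 * u0 j) = 5 * ∑ j, p j * u0 j := by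
        rw [Finset.mul_sum]; exact Finset.sum_congr rfl fun j _ => by ring
      rw [this, hu0', mul_one]
    rw [h2] at h1
    have h5 : (5 : ℂ) ≠ 0 := by norm_num
    exact mul_left_cancel₀ h5 (by rw [mul_one]; exact h1.symm)
  · rw [lp_pderiv_one, hs_comm, he0]
    have : ∑ j, D j * (5 * u0 j) = 5 * ∑ j, D j * u0 j := by
      rw [Finset.mul_sum]; exact Finset.sum_congr rfl fun j _ => by ring
    rw [this, hu0 D (Submodule.mem_span_singleton_self D), mul_zero]
  · have h1 := hs_point hF p e1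
    rw [hs_comm, he1, lp_coeff_one, hu1 p (Submodule.mem_span_singleton_self p)] at h1
    have h5 : (5 : ℂ) ≠ 0 := by norm_num
    exact (mul_eq_zero.mp h1.symm).resolve_left h5
  · rw [lp_pderiv_one, hs_comm, he1, hu1']

theorem lagr_step {F : MvPolynomial ι ℂ} (hF : F.IsHomogeneous 6) [DecidableEq ι]
    {p0 D0 : ι → ℂ} (hdet : (Matrix.of fun i j => eval p0 (pderiv j (pderiv i F))).det ≠ 0)
    (hD : D0 ∉ Submodule.span ℂ {p0}) (hp : p0 ∉ Submodule.span ℂ {D0})
    (h0 : eval p0 F = 0) (h1 : (lp F p0 D0).coeff 1 = 0) (h2 : (lp F p0 D0).coeff 2 = 0) (k : ℕ)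
    (hk : ∀ p D : ι → ℂ, eval p F = 0 →
      (Matrix.of fun i j => eval p (pderiv j (pderiv i F))).det ≠ 0 →
      (lp F p D).coeff 1 = 0 → (lp F p D).coeff 2 = 0 → (lp F p D).coeff k = 0)
    (v : (ι → ℂ) × (ι → ℂ))
    (v0 : ∑ j, v.1 j * (lp (pderiv j F) p0 D0).coeff 0 = 0)
    (v1 : ∑ j, (v.1 j * (lp (pderiv j F) p0 D0).coeff 1 +
      v.2 j * (lp (pderiv j F) p0 D0).coeff 0) = 0)
    (v2 : ∑ j, (v.1 j * (lp (pderiv j F) p0 D0).coeff 2 +
      v.2 j * (lp (pderiv j F) p0 D0).coeff 1) = 0) :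
    ∑ j, (v.1 j * (lp (pderiv j F) p0 D0).coeff k +
      v.2 j * (Polynomial.X * lp (pderiv j F) p0 D0).coeff k) = 0 := by
  have hdF : F.totalDegree ≤ 6 := hF.totalDegree_le
  have hdF' : ∀ j, (pderiv j F).totalDegree ≤ 5 := fun j => (hF.pderiv (i := j)).totalDegree_le
  obtain ⟨L0, hL0, hL0'⟩ := hasStrictFDerivAt_coeff F hdF hdF' p0 D0 0
  obtain ⟨L1, hL1, hL1'⟩ := hasStrictFDerivAt_coeff F hdF hdF' p0 D0 1
  obtain ⟨L2, hL2, hL2'⟩ := hasStrictFDerivAt_coeff F hdF hdF' p0 D0 2
  obtain ⟨Lk, hLk, hLk'⟩ := hasStrictFDerivAt_coeff F hdF hdF' p0 D0 k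
  simp only [Polynomial.mul_coeff_zero, Polynomial.coeff_X_zero, zero_mul, mul_zero,
    add_zero] at hL0
  have cX : ∀ (q : Polynomial ℂ) (i : ℕ), (Polynomial.X * q).coeff (i + 1) = q.coeff i :=
    fun q i => Polynomial.coeff_X_mul q i
  have cX1 : ∀ (q : Polynomial ℂ), (Polynomial.X * q).coeff 1 = q.coeff 0 := fun q => cX q 0
  have cX2 : ∀ (q : Polynomial ℂ), (Polynomial.X * q).coeff 2 = q.coeff 1 := fun q => cX q 1
  simp only [cX1] at hL1
  simp only [cX2] at hL2
  have hf := hL0'.prodMk (hL1'.prodMk hL2')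
  have hsurj : Function.Surjective (L0.prod (L1.prod L2)) := by
    obtain ⟨e0, e1, a0, a1, b0, b1⟩ := surj3 hF hdet hD hp
    rintro ⟨y0, y1, y2⟩
    set c2 := ∑ j, e0 j * (lp (pderiv j F) p0 D0).coeff 2 with hc2
    refine ⟨(fun j => y0 * e0 j, fun j => y1 * e0 j + (y2 - y0 * c2) * e1 j), ?_⟩
    have z0 : ∀ j, (lp (pderiv j F) p0 D0).coeff 0 = aeval p0 (pderiv j F) := fun j =>
      lp_coeff_zero _ _ _
    refine Prod.ext ?_ (Prod.ext ?_ ?_)
    · change L0 _ = y0
      rw [hL0]
      simp only [z0]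
      have : ∑ j, y0 * e0 j * aeval p0 (pderiv j F) = y0 * ∑ j, e0 j * aeval p0 (pderiv j F) := by
        rw [Finset.mul_sum]; exact Finset.sum_congr rfl fun j _ => by ring
      rw [this, a0, mul_one]
    · change L1 _ = y1
      rw [hL1]
      simp only [z0]
      have : ∑ j, (y0 * e0 j * (lp (pderiv j F) p0 D0).coeff 1 +
          (y1 * e0 j + (y2 - y0 * c2) * e1 j) * aeval p0 (pderiv j F)) =
          y0 * ∑ j, e0 j * (lp (pderiv j F) p0 D0).coeff 1 +
          (y1 * ∑ j, e0 j * aeval p0 (pderiv j F) +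
            (y2 - y0 * c2) * ∑ j, e1 j * aeval p0 (pderiv j F)) := by
        simp only [Finset.mul_sum, ← Finset.sum_add_distrib]
        exact Finset.sum_congr rfl fun j _ => by ring
      rw [this, a1, a0, b0]
      ring
    · change L2 _ = y2
      rw [hL2]
      have : ∑ j, (y0 * e0 j * (lp (pderiv j F) p0 D0).coeff 2 +
          (y1 * e0 j + (y2 - y0 * c2) * e1 j) * (lp (pderiv j F) p0 D0).coeff 1) =
          y0 * c2 + (y1 * ∑ j, e0 j * (lp (pderiv j F) p0 D0).coeff 1 +
            (y2 - y0 * c2) * ∑ j, e1 j * (lp (pderiv j F) p0 D0).coeff 1) := by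
        simp only [hc2, Finset.mul_sum, ← Finset.sum_add_distrib]
        exact Finset.sum_congr rfl fun j _ => by ring
      rw [this, a1, b1]
      ring
  have hcont : ContinuousAt (fun z : (ι → ℂ) × (ι → ℂ) =>
      (Matrix.of fun i j => eval z.1 (pderiv j (pderiv i F))).det) (p0, D0) := by
    apply Continuous.continuousAt
    apply Continuous.matrix_det
    refine continuous_matrix fun i j => ?_
    exact (MvPolynomial.continuous_eval _).comp continuous_fst
  have hev : ∀ᶠ z : (ι → ℂ) × (ι → ℂ) in 𝓝 (p0, D0),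
      (Matrix.of fun i j => eval z.1 (pderiv j (pderiv i F))).det ≠ 0 :=
    hcont.eventually_ne hdet
  have hz0 : (lp F p0 D0).coeff 0 = 0 := by rw [lp_coeff_zero, aevalC, h0]
  have := lagrange_complex hf hLk' hsurj (by
    filter_upwards [hev] with z hz hfz
    simp only [Prod.mk.injEq, hz0, h1, h2] at hfz
    obtain ⟨q0, q1, q2⟩ := hfz
    rw [lp_coeff_zero, aevalC] at q0
    exact hk z.1 z.2 q0 hz q1 q2) v (by
    refine Prod.ext ?_ (Prod.ext ?_ ?_)
    · change L0 v = 0
      rw [hL0]; exact v0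
    · change L1 v = 0
      rw [hL1]; exact v1
    · change L2 v = 0
      rw [hL2]; exact v2)
  rw [hLk] at this
  exact this

/-- if all asymptotic directions have contact of order at least four, they have infinite contact -/
theorem all_coeff_zero {F : MvPolynomial ι ℂ} (hF : F.IsHomogeneous 6) [DecidableEq ι]
    (h3 : ∀ p D : ι → ℂ, eval p F = 0 →
      (Matrix.of fun i j => eval p (pderiv j (pderiv i F))).det ≠ 0 →
      (lp F p D).coeff 1 = 0 → (lp F p D).coeff 2 = 0 → (lp F p D).coeff 3 = 0) (k : ℕ)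
    (hk : 3 ≤ k) :
    ∀ p D : ι → ℂ, eval p F = 0 →
      (Matrix.of fun i j => eval p (pderiv j (pderiv i F))).det ≠ 0 →
      (lp F p D).coeff 1 = 0 → (lp F p D).coeff 2 = 0 → (lp F p D).coeff k = 0 := by
  induction k, hk using Nat.le_induction with
  | base => exact h3
  | succ k hk ih =>
    intro p D h0 hdet h1 h2
    by_cases hD : D ∈ Submodule.span ℂ {p}
    · obtain ⟨c, rfl⟩ := Submodule.mem_span_singleton.mp hD
      have h4 := lp_self_smul hF h0 c
      have h5 : (c • p) = fun j => c * p j := by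
        funext j; simp
      rw [h5, h4, Polynomial.coeff_zero]
    · have hp0 : p ∉ Submodule.span ℂ {D} := by
        intro hp
        obtain ⟨c, hc⟩ := Submodule.mem_span_singleton.mp hp
        by_cases hc0 : c = 0
        · -- then `p = 0`, whose Hessian vanishes
          have hpz : p = 0 := by rw [← hc, hc0, zero_smul]
          apply hdet
          subst hpz
          by_cases hne : Nonempty ι
          · have : (Matrix.of fun i j => eval (0 : ι → ℂ) (pderiv j (pderiv i F))) = 0 := by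
              ext i j
              rw [Matrix.of_apply, Matrix.zero_apply]
              have h6 : (pderiv j (pderiv i F)).IsHomogeneous 4 :=
                (hF.pderiv (i := i)).pderiv (i := j)
              have := aeval_homog h6 (0 : ℂ) (0 : ι → ℂ)
              simp only [aevalC] at this
              simpa using this
            rw [this, Matrix.det_zero]
          · rw [not_nonempty_iff] at hne
            exfalso
            apply hD
            have : D = 0 := Subsingleton.elim _ _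
            rw [this]
            exact Submodule.zero_mem _
        · apply hD
          rw [Submodule.mem_span_singleton]
          refine ⟨c⁻¹, ?_⟩
          rw [← hc, smul_smul, inv_mul_cancel₀ hc0, one_smul]
      have hst := lagr_step hF hdet hD hp0 h0 h1 h2 k ih (D, 0) (by
        have := lp_coeff_succ F p D 0
        simp only [← this]
        simp [h1]) (by
        have := lp_coeff_succ F p D 1
        simp only [Pi.zero_apply, zero_mul, add_zero, ← this]
        simp [h2]) (by
        have := lp_coeff_succ F p D 2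
        simp only [Pi.zero_apply, zero_mul, add_zero, ← this]
        simp [h3 p D h0 hdet h1 h2])
      have h7 := lp_coeff_succ F p D k
      simp only [Pi.zero_apply, zero_mul, add_zero, ← h7] at hst
      have h8 : ((k : ℂ) + 1) ≠ 0 := by exact_mod_cast Nat.succ_ne_zero k
      exact (mul_eq_zero.mp hst).resolve_right h8

end

end Pool.Agent.H952R2.Sextic
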