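import Pool.Agent.H952R2.Sextic.LinePoly

/-! Complex Lagrange multipliers and derivatives of the coefficients of `F(p + σ x)`. -/

namespace Pool.Agent.H952R2.Sextic

open MvPolynomial Topology Filter

theorem lagrange_complex {E G : Type*} [NormedAddCommGroup E] [NormedSpace ℂ E] [CompleteSpace E]
    [NormedAddCommGroup G] [NormedSpace ℂ G] [CompleteSpace G] {f : E → G} {φ : E → ℂ} {x₀ : E}
    {f' : E →L[ℂ] G} {φ' : E →L[ℂ] ℂ} (hf : HasStrictFDerivAt f f' x₀)
    (hφ : HasStrictFDerivAt φ φ' x₀) (hsurj : Function.Surjective f')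
    (hzero : ∀ᶠ x in 𝓝 x₀, f x = f x₀ → φ x = 0) (v : E) (hv : f' v = 0) : φ' v = 0 := by
  by_contra hv0
  let _ : NormedSpace ℝ E := NormedSpace.restrictScalars ℝ ℂ E
  let _ : NormedSpace ℝ G := NormedSpace.restrictScalars ℝ ℂ G
  have hf1 : HasStrictFDerivAt f (f'.restrictScalars ℝ) x₀ := hf.restrictScalars ℝ
  have hφ1 : HasStrictFDerivAt (fun x => (φ x).re)
      (Complex.reCLM.comp (φ'.restrictScalars ℝ)) x₀ :=
    Complex.reCLM.hasStrictFDerivAt.comp x₀ (hφ.restrictScalars ℝ)
  have hx0 : φ x₀ = 0 := hzero.self_of_nhds rfl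
  have hext : IsLocalExtrOn (fun x => (φ x).re) {x | f x = f x₀} x₀ := by
    left
    change ∀ᶠ x in 𝓝[{x | f x = f x₀}] x₀, (φ x₀).re ≤ (φ x).re
    rw [eventually_nhdsWithin_iff]
    filter_upwards [hzero] with x hx hfx
    rw [hx hfx, hx0]
  refine hext.range_ne_top_of_hasStrictFDerivAt hf1 hφ1 ?_
  rw [eq_top_iff]
  rintro ⟨y, r⟩ _
  obtain ⟨w, hw⟩ := hsurj y
  set c : ℂ := ((r : ℂ) - φ' w) / φ' v with hc
  refine ⟨w + c • v, ?_⟩
  have h1 : f' (w + c • v) = y := by rw [map_add, map_smul, hv, smul_zero, add_zero, hw]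
  have h2 : φ' (w + c • v) = r := by
    rw [map_add, map_smul, smul_eq_mul, hc]
    field_simp
    ring
  change (f' (w + c • v), (φ' (w + c • v)).re) = (y, r)
  rw [h1, h2, Complex.ofReal_re]

theorem hasStrictFDerivAt_eval {ι : Type*} [Fintype ι] (F : MvPolynomial ι ℂ) (z : ι → ℂ) :
    ∃ L : (ι → ℂ) →L[ℂ] ℂ, (∀ v, L v = ∑ j, v j * eval z (pderiv j F)) ∧
      HasStrictFDerivAt (fun z => eval z F) L z := by
  classical
  induction F using MvPolynomial.induction_on with
  | C a =>
    refine ⟨0, by simp, ?_⟩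
    simpa using hasStrictFDerivAt_const a z
  | add p q hp hq =>
    obtain ⟨L1, h1, h1'⟩ := hp
    obtain ⟨L2, h2, h2'⟩ := hq
    refine ⟨L1 + L2, ?_, ?_⟩
    · intro v
      simp [h1, h2, mul_add, Finset.sum_add_distrib]
    · have h3 := h1'.add h2'
      have h4 : (fun z => eval z (p + q)) = (fun z => eval z p) + fun z => eval z q := by
        funext z
        simp
      rw [h4]
      exact h3
  | mul_X p i hp =>
    obtain ⟨L1, h1, h1'⟩ := hp
    have h2 := h1'.mul ((ContinuousLinearMap.proj (R := ℂ) (φ := fun _ : ι => ℂ)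
      i).hasStrictFDerivAt (x := z))
    have h4 : (fun z => eval z (p * X i)) = (fun z => eval z p) *
        fun z => (ContinuousLinearMap.proj (R := ℂ) (φ := fun _ : ι => ℂ) i) z := by
      funext z
      simp
    refine ⟨eval z p • ContinuousLinearMap.proj i + (z i) • L1, ?_, ?_⟩
    rotate_left
    · rw [h4]
      exact h2
    · intro v
      simp only [add_apply, smul_apply,
        ContinuousLinearMap.proj_apply, smul_eq_mul, h1, Derivation.leibniz, pderiv_X, map_add,
        map_mul, eval_X, mul_add, Finset.sum_add_distrib, Finset.mul_sum]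
      congr 1
      · rw [Finset.sum_eq_single i]
        · simp; ring
        · intro j _ hj
          rw [Pi.single_eq_of_ne hj.symm]
          simp
        · simp
      · exact Finset.sum_congr rfl fun j _ => by ring

/-- interpolation nodes and weights -/
theorem exists_weights : ∃ w : ℕ → Fin 7 → ℂ, ∀ P : Polynomial ℂ, P.natDegree ≤ 6 →
    ∀ i, P.coeff i = ∑ m : Fin 7, P.eval (m : ℂ) * w i m := by
  classical
  refine ⟨fun i m => (Lagrange.basis Finset.univ (fun m : Fin 7 => ((m : ℕ) : ℂ)) m).coeff i,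
    fun P hP i => ?_⟩
  have hinj : Set.InjOn (fun m : Fin 7 => ((m : ℕ) : ℂ)) (Finset.univ : Finset (Fin 7)) := by
    intro a _ b _ h
    exact Fin.ext (Nat.cast_injective h)
  have h1 := Lagrange.eq_interpolate (s := Finset.univ) (f := P) hinj (by
    rw [Finset.card_univ, Fintype.card_fin]
    exact lt_of_le_of_lt Polynomial.degree_le_natDegree (by exact_mod_cast Nat.lt_succ_of_le hP))
  conv_lhs => rw [h1]
  rw [Lagrange.interpolate_apply, Polynomial.finsetSum_coeff]
  refine Finset.sum_congr rfl fun m _ => ?_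
  rw [Polynomial.coeff_C_mul]

theorem hasStrictFDerivAt_coeff {ι : Type*} [Fintype ι] (F : MvPolynomial ι ℂ)
    (hF : F.totalDegree ≤ 6) (hF' : ∀ j, (pderiv j F).totalDegree ≤ 5) (p x : ι → ℂ) (i : ℕ) :
    ∃ L : ((ι → ℂ) × (ι → ℂ)) →L[ℂ] ℂ,
      (∀ v, L v = ∑ j, (v.1 j * (lp (pderiv j F) p x).coeff i +
        v.2 j * (Polynomial.X * lp (pderiv j F) p x).coeff i)) ∧
      HasStrictFDerivAt (fun z : (ι → ℂ) × (ι → ℂ) => (lp F z.1 z.2).coeff i) L (p, x) := by
  classical
  obtain ⟨w, hw⟩ := exists_weights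
  choose L hL hL' using hasStrictFDerivAt_eval (ι := ι)
  -- the affine maps
  let A : Fin 7 → ((ι → ℂ) × (ι → ℂ)) →L[ℂ] (ι → ℂ) := fun m =>
    ContinuousLinearMap.fst ℂ _ _ + ((m : ℕ) : ℂ) • ContinuousLinearMap.snd ℂ _ _
  have hA : ∀ m z j, A m z j = z.1 j + z.2 j * ((m : ℕ) : ℂ) := by
    intro m z j
    simp [A, mul_comm]
  refine ⟨∑ m : Fin 7, w i m • (L F (A m (p, x))).comp (A m), ?_, ?_⟩
  · intro v
    set Pv : Polynomial ℂ := ∑ j, ((Polynomial.C (v.1 j) + Polynomial.C (v.2 j) * Polynomial.X) *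
      lp (pderiv j F) p x) with hPv
    have hdeg : Pv.natDegree ≤ 6 := by
      refine Polynomial.natDegree_sum_le_of_forall_le _ _ fun j _ => ?_
      refine Polynomial.natDegree_mul_le.trans ?_
      have h1 : (Polynomial.C (v.1 j) + Polynomial.C (v.2 j) * Polynomial.X).natDegree ≤ 1 := by
        refine (Polynomial.natDegree_add_le _ _).trans (max_le ?_ ?_)
        · simp
        · exact (Polynomial.natDegree_C_mul_le _ _).trans Polynomial.natDegree_X_le
      have h2 := lp_natDegree_le (hF' j) p x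
      omega
    have h1 : ∑ j, (v.1 j * (lp (pderiv j F) p x).coeff i +
        v.2 j * (Polynomial.X * lp (pderiv j F) p x).coeff i) = Pv.coeff i := by
      rw [hPv, Polynomial.finsetSum_coeff]
      refine Finset.sum_congr rfl fun j _ => ?_
      rw [add_mul, Polynomial.coeff_add, Polynomial.coeff_C_mul, mul_assoc, Polynomial.coeff_C_mul]
    rw [h1, hw Pv hdeg i]
    simp only [sum_apply, smul_apply,
      ContinuousLinearMap.comp_apply, hL, smul_eq_mul]
    refine Finset.sum_congr rfl fun m _ => ?_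
    rw [mul_comm]
    congr 1
    rw [hPv, Polynomial.eval_finsetSum]
    refine Finset.sum_congr rfl fun j _ => ?_
    rw [Polynomial.eval_mul, lp_eval, hA]
    congr 1
    · simp
    · rw [aeval_def, Algebra.algebraMap_self]
      change _ = eval _ _
      congr 2
      funext k
      rw [hA]
  · have h1 : (fun z : (ι → ℂ) × (ι → ℂ) => (lp F z.1 z.2).coeff i) =
        fun z => ∑ m : Fin 7, w i m • eval (A m z) F := by
      funext z
      rw [hw _ (lp_natDegree_le hF _ _) i]
      refine Finset.sum_congr rfl fun m _ => ?_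
      rw [lp_eval, smul_eq_mul, mul_comm, aeval_def, Algebra.algebraMap_self]
      congr 1
      change eval _ _ = _
      congr 2
      funext k
      rw [hA]
    rw [h1]
    refine HasStrictFDerivAt.fun_sum fun m _ => ?_
    exact ((hL' F (A m (p, x))).comp (p, x) (A m).hasStrictFDerivAt).const_smul (w i m)

end Pool.Agent.H952R2.Sextic
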