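import Pool.Agent.H952R2.Sextic.ThmG

/-! Restriction of a polynomial to a line. -/

namespace Pool.Agent.H952R2.Sextic

open MvPolynomial

section

variable {A : Type*} [CommRing A] {ι : Type*}
variable {R : Type*} [CommRing R] [Algebra A R]

/-- `F (p + x s)` as a polynomial in `s`. -/
noncomputable def lp (F : MvPolynomial ι A) (p x : ι → R) : Polynomial R :=
  aeval (fun j => Polynomial.C (p j) + Polynomial.C (x j) * Polynomial.X) F

theorem lp_eval (F : MvPolynomial ι A) (p x : ι → R) (s : R) :
    (lp F p x).eval s = aeval (fun j => p j + x j * s) F := by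
  have h := MvPolynomial.comp_aeval_apply
    (f := fun j => Polynomial.C (p j) + Polynomial.C (x j) * Polynomial.X)
    ((Polynomial.aeval s : Polynomial R →ₐ[R] R).restrictScalars A) F
  simp only [AlgHom.coe_restrictScalars', Polynomial.coe_aeval_eq_eval] at h
  rw [lp, h]
  congr 2
  funext j
  simp

theorem lp_map {R' : Type*} [CommRing R'] [Algebra A R'] (φ : R →ₐ[A] R') (F : MvPolynomial ι A)
    (p x : ι → R) : (lp F p x).map (φ : R →+* R') = lp F (fun j => φ (p j)) (fun j => φ (x j)) := by
  have h := MvPolynomial.comp_aeval_apply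
    (f := fun j => Polynomial.C (p j) + Polynomial.C (x j) * Polynomial.X)
    (Polynomial.mapAlgHom φ) F
  simp only [Polynomial.coe_mapAlgHom] at h
  rw [lp, h, lp]
  congr 2
  funext j
  simp

theorem lp_coeff_map {R' : Type*} [CommRing R'] [Algebra A R'] (φ : R →ₐ[A] R')
    (F : MvPolynomial ι A) (p x : ι → R) (i : ℕ) :
    φ ((lp F p x).coeff i) = (lp F (fun j => φ (p j)) (fun j => φ (x j))).coeff i := by
  rw [← lp_map, Polynomial.coeff_map]
  rfl

theorem lp_map_algebraMap (F : MvPolynomial ι A) (p x : ι → R) :
    lp (MvPolynomial.map (algebraMap A R) F) p x = lp F p x := by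
  rw [lp, lp, MvPolynomial.aeval_def, MvPolynomial.eval₂_map, MvPolynomial.aeval_def]
  rfl

theorem lp_natDegree_le {F : MvPolynomial ι A} {d : ℕ} (hF : F.totalDegree ≤ d) (p x : ι → R) :
    (lp F p x).natDegree ≤ d := by
  rw [← lp_map_algebraMap]
  have hsub : (MvPolynomial.map (algebraMap A R) F).support ⊆ F.support :=
    MvPolynomial.support_map_subset _ _
  have hdeg : (MvPolynomial.map (algebraMap A R) F).totalDegree ≤ d :=
    le_trans (Finset.sup_mono hsub) hF
  have := MvPolynomial.aeval_natDegree_le (n := 1) (MvPolynomial.map (algebraMap A R) F) hdeg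
    (fun j => Polynomial.C (p j) + Polynomial.C (x j) * Polynomial.X) (fun j => by
      refine (Polynomial.natDegree_add_le _ _).trans (max_le ?_ ?_)
      · simp
      · exact (Polynomial.natDegree_C_mul_le _ _).trans Polynomial.natDegree_X_le)
  rw [mul_one] at this
  exact this

theorem lp_smul (F : MvPolynomial ι A) (p x : ι → R) (W : R) :
    lp F p (fun j => W * x j) = (lp F p x).comp (Polynomial.C W * Polynomial.X) := by
  have h := MvPolynomial.comp_aeval_apply
    (f := fun j => Polynomial.C (p j) + Polynomial.C (x j) * Polynomial.X)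
    ((Polynomial.aeval (Polynomial.C W * Polynomial.X) :
      Polynomial R →ₐ[R] Polynomial R).restrictScalars A) F
  simp only [AlgHom.coe_restrictScalars'] at h
  rw [Polynomial.comp_eq_aeval, lp, lp, h]
  congr 2
  funext j
  simp only [map_add, map_mul, Polynomial.aeval_C, Polynomial.aeval_X,
    Polynomial.algebraMap_eq]
  ring

theorem lp_smul_coeff (F : MvPolynomial ι A) (p x : ι → R) (W : R) (i : ℕ) :
    (lp F p (fun j => W * x j)).coeff i = W ^ i * (lp F p x).coeff i := by
  rw [lp_smul, Polynomial.comp_C_mul_X_coeff, mul_comm]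

end

section deriv

variable {A : Type*} [CommRing A] {ι : Type*} [Fintype ι]
variable {R : Type*} [CommRing R] [Algebra A R]

theorem derivative_aeval (F : MvPolynomial ι A) (g : ι → Polynomial R) :
    Polynomial.derivative (aeval g F) =
      ∑ j, aeval g (pderiv j F) * Polynomial.derivative (g j) := by
  induction F using MvPolynomial.induction_on with
  | C a =>
    simp [Polynomial.algebraMap_apply]
  | add p q hp hq =>
    simp only [map_add, hp, hq, add_mul, Finset.sum_add_distrib]
  | mul_X p i hp =>
    classical
    have h1 : ∀ x : ι, (aeval g) (pderiv x (p * X i)) * Polynomial.derivative (g x) =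
        (if i = x then aeval g p * Polynomial.derivative (g i) else 0) +
          (aeval g (pderiv x p) * Polynomial.derivative (g x)) * g i := by
      intro x
      simp only [Derivation.leibniz, smul_eq_mul, pderiv_X, map_add, map_mul, aeval_X,
        Pi.single_apply]
      split_ifs with h
      · subst h
        simp; ring
      · simp; ring
    simp only [h1, Finset.sum_add_distrib, Finset.sum_ite_eq, Finset.mem_univ, if_true,
      ← Finset.sum_mul, ← hp]
    simp [Polynomial.derivative_mul, add_comm]

theorem lp_derivative (F : MvPolynomial ι A) (p x : ι → R) :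
    Polynomial.derivative (lp F p x) = ∑ j, Polynomial.C (x j) * lp (pderiv j F) p x := by
  rw [lp, derivative_aeval]
  refine Finset.sum_congr rfl fun j _ => ?_
  rw [mul_comm, lp]
  simp

omit [Fintype ι] in
theorem lp_coeff_zero (F : MvPolynomial ι A) (p x : ι → R) :
    (lp F p x).coeff 0 = aeval p F := by
  rw [Polynomial.coeff_zero_eq_eval_zero, lp_eval]
  simp

theorem lp_coeff_succ (F : MvPolynomial ι A) (p x : ι → R) (i : ℕ) :
    (lp F p x).coeff (i + 1) * (i + 1) = ∑ j, x j * (lp (pderiv j F) p x).coeff i := by
  rw [← Polynomial.coeff_derivative, lp_derivative, Polynomial.finsetSum_coeff]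
  simp

theorem lp_coeff_one (F : MvPolynomial ι A) (p x : ι → R) :
    (lp F p x).coeff 1 = ∑ j, x j * aeval p (pderiv j F) := by
  have := lp_coeff_succ F p x 0
  simp only [lp_coeff_zero] at this
  simpa using this

theorem lp_coeff_two (F : MvPolynomial ι A) (p x : ι → R) :
    (lp F p x).coeff 2 * 2 = ∑ j, x j * ∑ k, x k * aeval p (pderiv k (pderiv j F)) := by
  have := lp_coeff_succ F p x 1
  simp only [lp_coeff_one] at this
  rw [← this]
  norm_num

omit [Fintype ι] in
theorem pderiv_comm (i j : ι) (F : MvPolynomial ι A) :
    pderiv i (pderiv j F) = pderiv j (pderiv i F) := by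
  classical
  have : ⁅(pderiv i : Derivation A (MvPolynomial ι A) (MvPolynomial ι A)),
      (pderiv j : Derivation A (MvPolynomial ι A) (MvPolynomial ι A))⁆ = 0 := by
    apply MvPolynomial.derivation_ext
    intro k
    rw [Derivation.commutator_apply, pderiv_X, pderiv_X]
    simp [Pi.single_apply]
    split_ifs <;> simp
  have h2 := congrArg (fun D => D F) this
  simp only [Derivation.commutator_apply, Derivation.coe_zero, Pi.zero_apply] at h2
  exact sub_eq_zero.mp h2

/-- The polar form of the second order term. -/
noncomputable def hs (F : MvPolynomial ι A) (p x y : ι → R) : R :=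
  ∑ j, x j * ∑ k, y k * aeval p (pderiv k (pderiv j F))

theorem hs_comm (F : MvPolynomial ι A) (p x y : ι → R) : hs F p x y = hs F p y x := by
  simp only [hs, Finset.mul_sum]
  rw [Finset.sum_comm]
  refine Finset.sum_congr rfl fun j _ => Finset.sum_congr rfl fun k _ => ?_
  rw [pderiv_comm]; ring

theorem hs_self (F : MvPolynomial ι A) (p x : ι → R) : hs F p x x = (lp F p x).coeff 2 * 2 :=
  (lp_coeff_two F p x).symm

theorem hs_add_left (F : MvPolynomial ι A) (p x x' y : ι → R) :
    hs F p (fun j => x j + x' j) y = hs F p x y + hs F p x' y := by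
  simp only [hs, add_mul, Finset.sum_add_distrib]

theorem hs_smul_left (F : MvPolynomial ι A) (p x y : ι → R) (W : R) :
    hs F p (fun j => W * x j) y = W * hs F p x y := by
  simp only [hs, Finset.mul_sum, mul_assoc]

end deriv

end Pool.Agent.H952R2.Sextic
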