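import Pool.Agent.H952R2.Sextic.Descent
import Pool.Agent.H952R2.Sextic.Defs

/-! Density for double covers branched along smooth sextics: the parts. -/

set_option autoImplicit false

open MvPolynomial

namespace Pool.Agent.H952R2.SexticDefs

open Pool.Agent.H952R2.Sextic

theorem along_eq {L R : Type} [Field L] [Field R] [Algebra L R] {n : ℕ}
    (F : MvPolynomial (Fin (n + 1)) L) (p D : Fin (n + 1) → R) : along F p D = lp F p D := rfl

theorem polar_ne {L R : Type} [Field L] [Field R] [CharZero R] [Algebra L R] {n : ℕ}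
    (F : MvPolynomial (Fin (n + 1)) L) (p D b : Fin (n + 1) → R) (hb : lp F p b = 0)
    (hD : (lp F p D).coeff 2 = 0) (h : (lp F p (fun j => D j + b j)).coeff 2 ≠ 0) :
    hs F p D b ≠ 0 := by
  intro h0
  apply h
  have h1 := hs_add_smul F p D b 1 1
  simp only [one_mul] at h1
  rw [hs_self, hs_self, hs_self, h0, hD, hb, Polynomial.coeff_zero] at h1
  have h3 : (lp F p (fun j => D j + b j)).coeff 2 * 2 = 0 := by rw [h1]; ring
  exact (mul_eq_zero.mp h3).resolve_right two_ne_zero

theorem part1 (L : Type) [Field L] [NumberField L] (n : ℕ) (F : MvPolynomial (Fin (n + 1)) L)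
    (hF : IsSmoothSextic F) (hline : HasGoodLine F) : DensePoints F := by
  obtain ⟨a, b, hab, hl, t, D, p, rfl, h1, h2, h3, h4⟩ := hline
  have hl' : lp F a b = (0 : Polynomial L) := by
    apply Polynomial.funext
    intro s
    rw [lp_eval, Polynomial.eval_zero, aeval_eval, ← hl 1 s]
    congr 2
    funext j
    ring
  intro G hG x w hw
  have hp := lp_line (R := AlgebraicClosure L) F a b hl' t
  refine cover_density (M := AlgebraicClosure L) hF.1 hF.2 a b hab hl' ⟨t, D, h1, h2, h3, ?_⟩ G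
    hG x w hw
  exact polar_ne F _ D _ hp h2 h4

theorem part2_aux (k : Type) [Field k] [NumberField k] (n : ℕ)
    (F : MvPolynomial (Fin (n + 1)) k) (hF6 : F.IsHomogeneous 6) (kb : Type) [Field kb]
    [Algebra k kb] [IsAlgClosed kb] [Algebra.IsAlgebraic k kb]
    (hsm : ∀ x : Fin (n + 1) → kb, (∀ j, aeval x (pderiv j F) = 0) → x = 0)
    (L : Type) [Field L] [NumberField L] [Algebra k L] [Algebra L kb] [IsScalarTower k L kb]
    (a' b' : Fin (n + 1) → L) (D : Fin (n + 1) → kb) (i0 i1 : Fin (n + 1))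
    (h1 : a' i0 ≠ 0) (h2 : b' i0 = 0) (h3 : b' i1 ≠ 0)
    (h4 : lp F (fun j => algebraMap L kb (a' j)) (fun j => algebraMap L kb (b' j)) = 0)
    (h5 : (lp F (fun j => algebraMap L kb (a' j)) D).coeff 1 = 0)
    (h6 : (lp F (fun j => algebraMap L kb (a' j)) D).coeff 2 = 0)
    (h7 : (lp F (fun j => algebraMap L kb (a' j)) D).coeff 3 ≠ 0)
    (h8 : hs F (fun j => algebraMap L kb (a' j)) D (fun j => algebraMap L kb (b' j)) ≠ 0) :
    DensePoints (MvPolynomial.map (algebraMap k L) F) := by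
  have hab : LinearIndependent L ![a', b'] := by
    rw [LinearIndependent.pair_iff]
    intro s t hst
    have e0 := congrFun hst i0
    have e1 := congrFun hst i1
    simp only [Pi.add_apply, Pi.smul_apply, smul_eq_mul, Pi.zero_apply] at e0 e1
    rw [h2, mul_zero, add_zero] at e0
    have hs0 : s = 0 := (mul_eq_zero.mp e0).resolve_right h1
    rw [hs0, zero_mul, zero_add] at e1
    exact ⟨hs0, (mul_eq_zero.mp e1).resolve_right h3⟩
  let j0 : L →ₐ[k] kb := IsScalarTower.toAlgHom k L kb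
  have hline : lp (MvPolynomial.map (algebraMap k L) F) a' b' = (0 : Polynomial L) := by
    rw [lp_base]
    have e1 := lp_map j0 F a' b'
    have e2 : lp F (fun j => j0 (a' j)) (fun j => j0 (b' j)) = 0 := h4
    rw [e2] at e1
    exact (Polynomial.map_eq_zero_iff (f := (j0 : L →+* kb)) (j0 : L →+* kb).injective).mp e1
  have halg : Algebra.IsAlgebraic L kb := Algebra.IsAlgebraic.tower_top (K := k) L
  let ψ : kb →ₐ[L] AlgebraicClosure L := IsAlgClosed.lift
  let ψk : kb →ₐ[k] AlgebraicClosure L := ψ.restrictScalars k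
  have hψ : ∀ x : L, ψk (algebraMap L kb x) = algebraMap L (AlgebraicClosure L) x := fun x =>
    ψ.commutes x
  have hψp : (fun j => ψk (algebraMap L kb (a' j))) = pt (AlgebraicClosure L) a' b' 0 := by
    funext j
    simp [pt, hψ]
  have hψb : (fun j => ψk (algebraMap L kb (b' j))) = cst (AlgebraicClosure L) b' := by
    funext j
    exact hψ (b' j)
  have hmap : ∀ i, (lp (MvPolynomial.map (algebraMap k L) F) (pt (AlgebraicClosure L) a' b' 0)
      (fun j => ψk (D j))).coeff i = ψk ((lp F (fun j => algebraMap L kb (a' j)) D).coeff i) := by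
    intro i
    rw [lp_base, ← hψp]
    exact (lp_coeff_map ψk F _ D i).symm
  have hinj : Function.Injective ψk := ψk.toRingHom.injective
  intro G hG x w hw
  refine cover_density (M := AlgebraicClosure L) (hF6.map _) ?_ a' b' hab hline
    ⟨0, fun j => ψk (D j), ?_, ?_, ?_, ?_⟩ G hG x w hw
  · intro y hy
    refine smooth_transfer (kb := kb) hsm y fun j => ?_
    have := hy j
    rwa [pderiv_map, aeval_base] at this
  · rw [hmap, h5, map_zero]
  · rw [hmap, h6, map_zero]
  · rw [hmap]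
    exact fun h => h7 ((map_eq_zero_iff ψk hinj).mp h)
  · have e1 := map_hs ψk F (fun j => algebraMap L kb (a' j)) D (fun j => algebraMap L kb (b' j))
    rw [hψp, hψb] at e1
    rw [hs_base, ← e1]
    exact fun h => h8 ((map_eq_zero_iff ψk hinj).mp h)

theorem part2 (k : Type) [Field k] [NumberField k] (n : ℕ) (hn : 7 ≤ n)
    (F : MvPolynomial (Fin (n + 1)) k) (hF : IsSmoothSextic F) :
    ∃ (L : Type) (_ : Field L) (_ : NumberField L) (_ : Algebra k L),
      DensePoints (MvPolynomial.map (algebraMap k L) F) := by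
  classical
  obtain ⟨hF6, hsm⟩ := hF
  obtain ⟨p, b, D, i0, i1, h1, h2, h3, h4, h5, h6, h7, h8⟩ :=
    exists_data_closure (kb := AlgebraicClosure k) hF6 (by simpa using hn) hsm
  set S : Set (AlgebraicClosure k) := Set.range p ∪ Set.range b with hS
  have hSfin : S.Finite := (Set.finite_range p).union (Set.finite_range b)
  set L : IntermediateField k (AlgebraicClosure k) := IntermediateField.adjoin k S with hL
  have : Finite S := hSfin.to_subtype
  have hfin : FiniteDimensional k L := IntermediateField.finiteDimensional_adjoin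
    (fun x _ => (Algebra.IsAlgebraic.isAlgebraic (R := k) x).isIntegral)
  have hfinQ : FiniteDimensional ℚ L := FiniteDimensional.trans ℚ k L
  have hNF : NumberField L := ⟨⟩
  have hpL : ∀ j, p j ∈ L := fun j =>
    IntermediateField.subset_adjoin k S (Or.inl ⟨j, rfl⟩)
  have hbL : ∀ j, b j ∈ L := fun j =>
    IntermediateField.subset_adjoin k S (Or.inr ⟨j, rfl⟩)
  exact ⟨L, inferInstance, hNF, inferInstance,
    part2_aux k n F hF6 (AlgebraicClosure k) hsm L (fun j => ⟨p j, hpL j⟩)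
      (fun j => ⟨b j, hbL j⟩) D i0 i1 (fun h => h1 (congrArg Subtype.val h)) (Subtype.ext h2)
      (fun h => h3 (congrArg Subtype.val h)) h4 h5 h6 h7 h8⟩

theorem six_expand {R : Type} [Field R] (a b : R) :
    ((Polynomial.C a + Polynomial.C b * Polynomial.X) ^ 6).coeff 1 = 6 * a ^ 5 * b ∧
    ((Polynomial.C a + Polynomial.C b * Polynomial.X) ^ 6).coeff 2 = 15 * a ^ 4 * b ^ 2 ∧
    ((Polynomial.C a + Polynomial.C b * Polynomial.X) ^ 6).coeff 3 = 20 * a ^ 3 * b ^ 3 := by
  have h : (Polynomial.C a + Polynomial.C b * Polynomial.X) ^ 6 =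
      Polynomial.C (a ^ 6) + Polynomial.C (6 * a ^ 5 * b) * Polynomial.X ^ 1 +
      Polynomial.C (15 * a ^ 4 * b ^ 2) * Polynomial.X ^ 2 +
      Polynomial.C (20 * a ^ 3 * b ^ 3) * Polynomial.X ^ 3 +
      Polynomial.C (15 * a ^ 2 * b ^ 4) * Polynomial.X ^ 4 +
      Polynomial.C (6 * a * b ^ 5) * Polynomial.X ^ 5 +
      Polynomial.C (b ^ 6) * Polynomial.X ^ 6 := by
    simp only [Polynomial.C_mul, Polynomial.C_pow, map_ofNat]
    ring
  rw [h]
  refine ⟨?_, ?_, ?_⟩ <;>
    simp only [Polynomial.coeff_add, Polynomial.coeff_C_mul, Polynomial.coeff_X_pow,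
      Polynomial.coeff_C] <;> norm_num

theorem diag_coeff {L R : Type} [Field L] [Field R] [Algebra L R] {n : ℕ} (c : Fin (n + 1) → L)
    (p D : Fin (n + 1) → R) :
    (along (diag c) p D).coeff 1 = ∑ i, algebraMap L R (c i) * (6 * p i ^ 5 * D i) ∧
    (along (diag c) p D).coeff 2 = ∑ i, algebraMap L R (c i) * (15 * p i ^ 4 * D i ^ 2) ∧
    (along (diag c) p D).coeff 3 = ∑ i, algebraMap L R (c i) * (20 * p i ^ 3 * D i ^ 3) := by
  have h : along (diag c) p D = ∑ i, Polynomial.C (algebraMap L R (c i)) *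
      (Polynomial.C (p i) + Polynomial.C (D i) * Polynomial.X) ^ 6 := by
    rw [along, diag, map_sum]
    refine Finset.sum_congr rfl fun i _ => ?_
    rw [map_mul, map_pow, aeval_X]
    congr 1
    rw [← algebraMap_eq, AlgHom.commutes, Polynomial.algebraMap_apply]
  rw [h]
  refine ⟨?_, ?_, ?_⟩ <;> rw [Polynomial.finsetSum_coeff] <;>
    refine Finset.sum_congr rfl fun i _ => ?_ <;> rw [Polynomial.coeff_C_mul]
  · rw [(six_expand (p i) (D i)).1]
  · rw [(six_expand (p i) (D i)).2.1]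
  · rw [(six_expand (p i) (D i)).2.2]

theorem diag_smooth {L : Type} [Field L] [CharZero L] {n : ℕ} (c : Fin (n + 1) → L)
    (hc : ∀ i, c i ≠ 0) : IsSmoothSextic (diag c) := by
  classical
  refine ⟨?_, fun x hx => ?_⟩
  · refine IsHomogeneous.sum _ _ _ fun i _ => ?_
    have := (isHomogeneous_C (Fin (n + 1)) (c i)).mul ((isHomogeneous_X L i).pow 6)
    simpa using this
  · funext j
    have h1 := hx j
    have h2 : pderiv j (diag c) = C (c j * 6) * X j ^ 5 := by
      rw [diag, map_sum, Finset.sum_eq_single j]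
      · rw [pderiv_C_mul, pderiv_pow, pderiv_X_self, C_mul,
          show (C (6 : L) : MvPolynomial (Fin (n + 1)) L) = 6 from map_ofNat C 6]
        simp
        ring
      · intro i _ hij
        rw [pderiv_C_mul, pderiv_pow, pderiv_X_of_ne hij]
        simp
      · simp
    rw [h2, map_mul, map_pow, aeval_X, ← algebraMap_eq, AlgHom.commutes] at h1
    rcases mul_eq_zero.mp h1 with h | h
    · exfalso
      have := (algebraMap L (AlgebraicClosure L)).injective (h.trans (map_zero _).symm)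
      exact (mul_ne_zero (hc j) (by norm_num)) this
    · exact pow_eq_zero_iff (by norm_num) |>.mp h

theorem diag_line {L : Type} [Field L] [CharZero L] {m : ℕ} (c : Fin (m + 3 + 1) → L)
    (hc : ∀ i, c i ≠ 0) (α β : L) (h1 : c 0 + c 1 * α ^ 6 = 0) (h2 : c 2 + c 3 * β ^ 6 = 0) :
    HasGoodLine (diag c) := by
  classical
  set a : Fin (m + 3 + 1) → L := Fin.cons 1 (Fin.cons α (Fin.cons 0 (Fin.cons 0 0))) with ha
  set b : Fin (m + 3 + 1) → L := Fin.cons 0 (Fin.cons 0 (Fin.cons 1 (Fin.cons β 0))) with hb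
  have sum4 : ∀ (R : Type) [AddCommMonoid R] (f : Fin (m + 3 + 1) → R),
      (∀ i : Fin m, f i.succ.succ.succ.succ = 0) → ∑ i, f i = f 0 + (f 1 + (f 2 + f 3)) := by
    intro R _ f hf
    rw [Fin.sum_univ_succ, Fin.sum_univ_succ, Fin.sum_univ_succ, Fin.sum_univ_succ]
    simp only [hf, Finset.sum_const_zero, add_zero]
    rfl
  have a0 : a 0 = 1 := rfl
  have a1 : a 1 = α := rfl
  have a2 : a 2 = 0 := rfl
  have a3 : a 3 = 0 := rfl
  have as : ∀ i : Fin m, a i.succ.succ.succ.succ = 0 := fun i => rfl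
  have b0 : b 0 = 0 := rfl
  have b1 : b 1 = 0 := rfl
  have b2 : b 2 = 1 := rfl
  have b3 : b 3 = β := rfl
  have bs : ∀ i : Fin m, b i.succ.succ.succ.succ = 0 := fun i => rfl
  -- the parameter
  obtain ⟨t, ht0, ht⟩ : ∃ t : L, t ≠ 0 ∧ c 0 ^ 2 - t ^ 12 * c 2 ^ 2 ≠ 0 := by
    by_cases h : c 0 ^ 2 - 1 ^ 12 * c 2 ^ 2 = 0
    · refine ⟨2, two_ne_zero, ?_⟩
      intro h'
      have h3 : (4095 : L) * c 2 ^ 2 = 0 := by linear_combination h - h'
      exact (mul_ne_zero (by norm_num) (pow_ne_zero 2 (hc 2))) h3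
    · exact ⟨1, one_ne_zero, h⟩
  set D : Fin (m + 3 + 1) → L := Fin.cons (-(t ^ 5 * c 2)) (Fin.cons (α * (t ^ 5 * c 2))
    (Fin.cons (c 0) (Fin.cons (-(β * c 0)) 0))) with hD
  have d0 : D 0 = -(t ^ 5 * c 2) := rfl
  have d1 : D 1 = α * (t ^ 5 * c 2) := rfl
  have d2 : D 2 = c 0 := rfl
  have d3 : D 3 = -(β * c 0) := rfl
  have ds : ∀ i : Fin m, D i.succ.succ.succ.succ = 0 := fun i => rfl
  set ρ := algebraMap L (AlgebraicClosure L) with hρ
  refine ⟨a, b, ?_, ?_, ρ t, fun j => ρ (D j), fun j => ρ (a j) + ρ (b j) * ρ t, rfl,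
    ?_, ?_, ?_, ?_⟩
  · rw [LinearIndependent.pair_iff]
    intro s t hst
    have e0 := congrFun hst 0
    have e2 := congrFun hst 2
    simp only [Pi.add_apply, Pi.smul_apply, smul_eq_mul, Pi.zero_apply, a0, b0, a2, b2] at e0 e2
    exact ⟨by simpa using e0, by simpa using e2⟩
  · intro s t
    rw [diag, map_sum]
    simp only [map_mul, map_pow, eval_C, eval_X]
    rw [sum4 L _ (fun i => by rw [as, bs]; ring), a0, a1, a2, a3, b0, b1, b2, b3]
    linear_combination s ^ 6 * h1 + t ^ 6 * h2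
  · rw [(diag_coeff c _ _).1]
    rw [sum4 (AlgebraicClosure L) _ (fun i => by rw [as, bs]; simp), a0, a1, a2, a3, b0, b1, b2,
      b3, d0, d1, d2, d3]
    have h3 := congrArg ρ h1
    have h4 := congrArg ρ h2
    simp only [map_add, map_mul, map_pow, map_zero, map_one, map_neg] at h3 h4 ⊢
    linear_combination (6 * ρ t ^ 5 * ρ (c 2)) * h3 - (6 * ρ t ^ 5 * ρ (c 0)) * h4
  · rw [(diag_coeff c _ _).2.1]
    rw [sum4 (AlgebraicClosure L) _ (fun i => by rw [as, bs]; simp), a0, a1, a2, a3, b0, b1, b2,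
      b3, d0, d1, d2, d3]
    have h3 := congrArg ρ h1
    have h4 := congrArg ρ h2
    simp only [map_add, map_mul, map_pow, map_zero, map_one, map_neg] at h3 h4 ⊢
    linear_combination (15 * ρ t ^ 10 * ρ (c 2) ^ 2) * h3 + (15 * ρ t ^ 4 * ρ (c 0) ^ 2) * h4
  · have h5 : (along (diag c) (fun j => ρ (a j) + ρ (b j) * ρ t) fun j => ρ (D j)).coeff 3 =
        ρ (40 * t ^ 3 * c 0 * c 2 * (c 0 ^ 2 - t ^ 12 * c 2 ^ 2)) := by
      rw [(diag_coeff c _ _).2.2]
      rw [sum4 (AlgebraicClosure L) _ (fun i => by rw [as, bs]; simp), a0, a1, a2, a3, b0, b1, b2,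
        b3, d0, d1, d2, d3]
      have h3 := congrArg ρ h1
      have h4 := congrArg ρ h2
      simp only [map_add, map_mul, map_pow, map_zero, map_one, map_neg, map_sub, map_ofNat]
        at h3 h4 ⊢
      linear_combination (20 * ρ t ^ 15 * ρ (c 2) ^ 3) * h3 - (20 * ρ t ^ 3 * ρ (c 0) ^ 3) * h4
    rw [h5]
    intro h6
    have h7 := ρ.injective (h6.trans (map_zero ρ).symm)
    exact (mul_ne_zero (mul_ne_zero (mul_ne_zero (mul_ne_zero (by norm_num) (pow_ne_zero 3 ht0))
      (hc 0)) (hc 2)) ht) h7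
  · have h5 : (along (diag c) (fun j => ρ (a j) + ρ (b j) * ρ t)
        fun j => ρ (D j) + ρ (b j)).coeff 2 = ρ (60 * t ^ 4 * c 0 * c 2) := by
      rw [(diag_coeff c _ _).2.1]
      rw [sum4 (AlgebraicClosure L) _ (fun i => by rw [as, bs]; simp), a0, a1, a2, a3, b0, b1, b2,
        b3, d0, d1, d2, d3]
      have h3 := congrArg ρ h1
      have h4 := congrArg ρ h2
      simp only [map_add, map_mul, map_pow, map_zero, map_one, map_neg, map_ofNat]
        at h3 h4 ⊢
      linear_combination (15 * ρ t ^ 10 * ρ (c 2) ^ 2) * h3 +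
        (15 * ρ t ^ 4 * (1 - ρ (c 0)) ^ 2) * h4
    rw [h5]
    intro h6
    have h7 := ρ.injective (h6.trans (map_zero ρ).symm)
    exact (mul_ne_zero (mul_ne_zero (mul_ne_zero (by norm_num) (pow_ne_zero 4 ht0))
      (hc 0)) (hc 2)) h7

end Pool.Agent.H952R2.SexticDefs
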