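import Pool.Agent.H952R2.Sextic.TwoAdic

/-! A 2-adic density theorem for families of genus one curves
`w² = u² + q₁s + q₂s² + q₃s³ + q₄s⁴` over an affine space, with `u(t₀) = 0 ≠ q₁(t₀)`. -/

namespace Pool.Agent.H952R2.Sextic

open MvPolynomial Topology Filter

theorem thmG_normed {K : Type*} [NontriviallyNormedField K] [IsUltrametricDist K]
    {σ : Type*} [Fintype σ] (h20 : (2 : K) ≠ 0) (h2 : ‖(2 : K)‖ < 1)
    {M : Type*} [Field M] [Algebra K M]
    (u q1 q2 q3 q4 : MvPolynomial σ K) (t0 : σ → K) (hu0 : eval t0 u = 0) (hu : u ≠ 0)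
    (hq1 : eval t0 q1 ≠ 0) (P : Polynomial (MvPolynomial σ M))
    (hP : ∀ (t : σ → K) (s : K), (∃ w, w ^ 2 = (eval t u) ^ 2 + eval t q1 * s +
      eval t q2 * s ^ 2 + eval t q3 * s ^ 3 + eval t q4 * s ^ 4) →
      Polynomial.eval (algebraMap K M s) (P.map (eval (fun i => algebraMap K M (t i)))) = 0) :
    P = 0 := by
  have h40 : (4 : K) ≠ 0 := by
    have : (4 : K) = 2 * 2 := by norm_num
    rw [this]; exact mul_ne_zero h20 h20
  set B : MvPolynomial σ K := q1 * q3 - C 4 * u ^ 2 * q4 with hB
  set C' : MvPolynomial σ K := q1 ^ 2 * q4 + u ^ 2 * q3 ^ 2 - C 4 * u ^ 2 * q2 * q4 with hC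
  have cont : ∀ p : MvPolynomial σ K, Continuous fun t => ‖eval t p‖ := fun p =>
    (MvPolynomial.continuous_eval p).norm
  set R : ℝ := 1 + ‖eval t0 q2‖ + ‖eval t0 B‖ + ‖eval t0 C'‖ with hR
  have hR1 : 1 ≤ R := by
    have := norm_nonneg (eval t0 q2); have := norm_nonneg (eval t0 B)
    have := norm_nonneg (eval t0 C'); linarith
  have near : ∀ p : MvPolynomial σ K, ‖eval t0 p‖ < R → ∀ᶠ t in 𝓝 t0, ‖eval t p‖ < R :=
    fun p hp => (cont p).continuousAt.eventually_lt continuousAt_const hp
  have nA : ∀ᶠ t in 𝓝 t0, ‖eval t q2‖ < R := near _ (by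
    have := norm_nonneg (eval t0 B); have := norm_nonneg (eval t0 C'); linarith)
  have nB : ∀ᶠ t in 𝓝 t0, ‖eval t B‖ < R := near _ (by
    have := norm_nonneg (eval t0 q2); have := norm_nonneg (eval t0 C'); linarith)
  have nC : ∀ᶠ t in 𝓝 t0, ‖eval t C'‖ < R := near _ (by
    have := norm_nonneg (eval t0 q2); have := norm_nonneg (eval t0 B); linarith)
  have nQ : ∀ᶠ t in 𝓝 t0, R * ‖eval t (C 4 * u ^ 2)‖ < ‖eval t (q1 ^ 2)‖ := by
    refine ContinuousAt.eventually_lt (continuousAt_const.mul (cont _).continuousAt)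
      (cont _).continuousAt ?_
    simp [hu0, hq1]
  obtain ⟨ε, hε, hball⟩ := Metric.eventually_nhds_iff.mp (nA.and (nB.and (nC.and nQ)))
  -- all coefficients vanish
  have hcoef : ∀ k, P.coeff k * MvPolynomial.map (algebraMap K M) u = 0 := by
    intro k
    have hinf : ∀ i : σ, (algebraMap K M '' Metric.ball (t0 i) ε).Infinite := fun i =>
      (infinite_of_mem_nhds (t0 i) (Metric.ball_mem_nhds _ hε)).image
        (algebraMap K M).injective.injOn
    refine MvPolynomial.funext_set _ hinf ?_
    intro x hx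
    have hx' : ∀ i, ∃ y ∈ Metric.ball (t0 i) ε, algebraMap K M y = x i := fun i => hx i trivial
    choose t ht htx using hx'
    have hxt : x = fun i => algebraMap K M (t i) := funext fun i => (htx i).symm
    have hdist : dist t t0 < ε := (dist_pi_lt_iff hε).mpr fun i => Metric.mem_ball.mp (ht i)
    obtain ⟨gA, gB, gC, gQ⟩ := hball hdist
    rw [map_mul, map_zero]
    have hev : ∀ p : MvPolynomial σ K, eval x (MvPolynomial.map (algebraMap K M) p) =
        algebraMap K M (eval t p) := by
      intro p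
      rw [hxt, MvPolynomial.eval_map, ← MvPolynomial.coe_eval₂Hom,
        ← RingHom.comp_apply (algebraMap K M) (eval t)]
      congr 1
      ext i <;> simp
    rw [hev]
    by_cases hut : eval t u = 0
    · rw [hut, map_zero, mul_zero]
    · have hbig : R < ‖eval t q1 ^ 2 / (4 * eval t u ^ 2) - eval t q2‖ := by
        have h1 : R < ‖eval t q1 ^ 2 / (4 * eval t u ^ 2)‖ := by
          rw [norm_div, lt_div_iff₀ (norm_pos_iff.mpr (mul_ne_zero h40 (pow_ne_zero 2 hut)))]
          simpa using gQ
        rw [sub_eq_add_neg, norm_add_left (by rw [norm_neg]; exact gA.trans h1)]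
        exact h1
      have hinf2 := quartic_infinite h20 h2 hut hR1 gA.le (by simpa [hB] using gB.le)
        (by simpa [hC] using gC.le) hbig
      have hzero : P.map (eval (fun i => algebraMap K M (t i))) = 0 := by
        apply Polynomial.eq_zero_of_infinite_isRoot
        refine (hinf2.image (algebraMap K M).injective.injOn).mono ?_
        rintro _ ⟨s, hs, rfl⟩
        exact hP t s hs
      have := congrArg (fun p => Polynomial.coeff p k) hzero
      simp only [Polynomial.coeff_map, Polynomial.coeff_zero] at this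
      rw [hxt, this, zero_mul]
  ext1 k
  have hu' : MvPolynomial.map (algebraMap K M) u ≠ 0 := by
    intro h
    apply hu
    apply MvPolynomial.map_injective _ (algebraMap K M).injective
    rw [h, map_zero]
  rw [Polynomial.coeff_zero]
  exact (mul_eq_zero.mp (hcoef k)).resolve_right hu'

/-- The same for any field of characteristic zero which is algebraic over `ℚ`. -/
theorem thmG {K : Type*} [Field K] [CharZero K] [Algebra.IsAlgebraic ℚ K]
    {σ : Type*} [Fintype σ] {M : Type*} [Field M] [Algebra K M]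
    (u q1 q2 q3 q4 : MvPolynomial σ K) (t0 : σ → K) (hu0 : eval t0 u = 0) (hu : u ≠ 0)
    (hq1 : eval t0 q1 ≠ 0) (P : Polynomial (MvPolynomial σ M))
    (hP : ∀ (t : σ → K) (s : K), (∃ w, w ^ 2 = (eval t u) ^ 2 + eval t q1 * s +
      eval t q2 * s ^ 2 + eval t q3 * s ^ 3 + eval t q4 * s ^ 4) →
      Polynomial.eval (algebraMap K M s) (P.map (eval (fun i => algebraMap K M (t i)))) = 0) :
    P = 0 := by
  have : Fact (Nat.Prime 2) := ⟨Nat.prime_two⟩
  let f : K →ₐ[ℚ] PadicAlgCl 2 := IsAlgClosed.lift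
  let inst1 : NormedField K := NormedField.induced K (PadicAlgCl 2) f.toRingHom f.injective
  have hnorm : ∀ x : K, ‖x‖ = ‖f x‖ := fun x => rfl
  have h2n : ‖(2 : K)‖ = 1 / 2 := by
    rw [hnorm, map_ofNat]
    have := PadicAlgCl.norm_extends (p := 2) (2 : ℚ_[2])
    rw [show ((2 : ℚ_[2]) : PadicAlgCl 2) = 2 from map_ofNat _ 2] at this
    rw [this]
    have := Padic.norm_p (p := 2)
    norm_num at this ⊢
    exact this
  let inst2 : NontriviallyNormedField K :=
    { inst1 with non_trivial := ⟨1 / 2, by rw [norm_div, h2n, norm_one]; norm_num⟩ }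
  have : IsUltrametricDist K :=
    IsUltrametricDist.isUltrametricDist_of_forall_norm_add_le_max_norm (fun x y => by
      rw [hnorm, hnorm, hnorm, map_add]
      exact PadicAlgCl.isNonarchimedean 2 _ _)
  exact thmG_normed (K := K) two_ne_zero (by rw [h2n]; norm_num) u q1 q2 q3 q4 t0 hu0 hu hq1 P hP

end Pool.Agent.H952R2.Sextic
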