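import Mathlib

/-! 2-adic infinite order lemmas for genus one curves `W² = u² + q₁s + q₂s² + q₃s³ + q₄s⁴`. -/

namespace Pool.Agent.H952R2.Sextic

variable {K : Type*} [NormedField K] [IsUltrametricDist K]

theorem norm_add_left {x y : K} (h : ‖y‖ < ‖x‖) : ‖x + y‖ = ‖x‖ := by
  rw [IsUltrametricDist.norm_add_eq_max_of_norm_ne_norm h.ne', max_eq_left h.le]

theorem norm_two_pow_lt {K : Type*} [NormedField K] (h2 : ‖(2 : K)‖ < 1) : ‖(2 : K)‖ ≤ 1 := h2.le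

/-- On a point of the cubic with large `x`, `‖Y‖² = ‖x‖³`. -/
theorem norm_cubic {A B C x : K} {R : ℝ} (hR : 1 ≤ R) (hA : ‖A‖ ≤ R) (hB : ‖B‖ ≤ R) (hC : ‖C‖ ≤ R)
    (hx : R < ‖x‖) : ‖x ^ 3 + A * x ^ 2 + B * x + C‖ = ‖x‖ ^ 3 := by
  have hx1 : 1 < ‖x‖ := lt_of_le_of_lt hR hx
  have hx0 : 0 < ‖x‖ := by linarith
  have h1 : ‖x ^ 3 + A * x ^ 2‖ = ‖x‖ ^ 3 := by
    rw [norm_add_left, norm_pow]
    rw [norm_mul, norm_pow, norm_pow]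
    have : ‖x‖ ^ 3 = ‖x‖ * ‖x‖ ^ 2 := by ring
    rw [this]
    have := pow_pos hx0 2
    nlinarith
  have h2 : ‖x ^ 3 + A * x ^ 2 + B * x‖ = ‖x‖ ^ 3 := by
    rw [norm_add_left, h1]
    rw [h1, norm_mul]
    nlinarith [mul_pos hx0 hx0]
  rw [norm_add_left, h2]
  rw [h2]
  nlinarith [mul_pos hx0 hx0]

theorem dbl_step {A B C x Y : K} {R : ℝ} (h20 : (2 : K) ≠ 0) (h2 : ‖(2 : K)‖ < 1) (hR : 1 ≤ R)
    (hA : ‖A‖ ≤ R) (hB : ‖B‖ ≤ R) (hC : ‖C‖ ≤ R)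
    (hx : R < ‖x‖) (hY : Y ^ 2 = x ^ 3 + A * x ^ 2 + B * x + C) :
    ∃ x' Y' : K, Y' ^ 2 = x' ^ 3 + A * x' ^ 2 + B * x' + C ∧ ‖x‖ < ‖x'‖ := by
  have hx1 : 1 < ‖x‖ := lt_of_le_of_lt hR hx
  have hx0 : 0 < ‖x‖ := by linarith
  have hYn : ‖Y‖ ^ 2 = ‖x‖ ^ 3 := by rw [← norm_pow, hY, norm_cubic hR hA hB hC hx]
  have hY0 : Y ≠ 0 := by
    rintro rfl
    rw [norm_zero] at hYn
    have := pow_pos hx0 3
    rw [← hYn] at this
    simp at this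
  have hnum : ‖x ^ 4 + (-(2 * B * x ^ 2) - 8 * C * x + B ^ 2 - 4 * A * C)‖ = ‖x‖ ^ 4 := by
    have h4 : ‖(4 : K)‖ ≤ 1 := by
      have : (4 : K) = 2 * 2 := by norm_num
      rw [this, norm_mul]; nlinarith [norm_nonneg (2 : K)]
    have h8 : ‖(8 : K)‖ ≤ 1 := by
      have : (8 : K) = 2 * 4 := by norm_num
      rw [this, norm_mul]; nlinarith [norm_nonneg (2 : K), norm_nonneg (4 : K)]
    have hx2 : 0 < ‖x‖ ^ 2 := pow_pos hx0 2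
    have hx34 : ‖x‖ ^ 3 < ‖x‖ ^ 4 := pow_lt_pow_right₀ hx1 (by norm_num)
    have hx24 : ‖x‖ ^ 2 < ‖x‖ ^ 4 := pow_lt_pow_right₀ hx1 (by norm_num)
    have e1 : ‖-(2 * B * x ^ 2)‖ < ‖x‖ ^ 4 := by
      rw [norm_neg, norm_mul, norm_mul, norm_pow]
      have : ‖(2 : K)‖ * ‖B‖ ≤ ‖x‖ := by
        nlinarith [norm_nonneg (2 : K), norm_nonneg B]
      have : ‖(2 : K)‖ * ‖B‖ * ‖x‖ ^ 2 ≤ ‖x‖ * ‖x‖ ^ 2 := by gcongr
      calc _ ≤ ‖x‖ * ‖x‖ ^ 2 := this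
        _ = ‖x‖ ^ 3 := by ring
        _ < _ := hx34
    have e2 : ‖8 * C * x‖ < ‖x‖ ^ 4 := by
      rw [norm_mul, norm_mul]
      have : ‖(8 : K)‖ * ‖C‖ ≤ ‖x‖ := by
        nlinarith [norm_nonneg (8 : K), norm_nonneg C]
      have : ‖(8 : K)‖ * ‖C‖ * ‖x‖ ≤ ‖x‖ * ‖x‖ := by gcongr
      calc _ ≤ ‖x‖ * ‖x‖ := this
        _ = ‖x‖ ^ 2 := by ring
        _ < _ := hx24
    have e3 : ‖B ^ 2‖ < ‖x‖ ^ 4 := by
      rw [norm_pow]
      have : ‖B‖ ^ 2 ≤ ‖x‖ ^ 2 := by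
        have : ‖B‖ ≤ ‖x‖ := by linarith
        gcongr
      linarith
    have e4 : ‖4 * A * C‖ < ‖x‖ ^ 4 := by
      rw [norm_mul, norm_mul]
      have h5 : ‖(4 : K)‖ * ‖A‖ ≤ ‖x‖ := by
        nlinarith [norm_nonneg (4 : K), norm_nonneg A]
      have h6 : ‖C‖ ≤ ‖x‖ := by linarith
      have : ‖(4 : K)‖ * ‖A‖ * ‖C‖ ≤ ‖x‖ * ‖x‖ := by gcongr
      calc _ ≤ ‖x‖ * ‖x‖ := this
        _ = ‖x‖ ^ 2 := by ring
        _ < _ := hx24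
    have m : ∀ {a b : K} {M : ℝ}, ‖a‖ < M → ‖b‖ < M → ‖a + b‖ < M := fun ha hb =>
      lt_of_le_of_lt (IsUltrametricDist.norm_add_le_max _ _) (max_lt ha hb)
    have m' : ∀ {a b : K} {M : ℝ}, ‖a‖ < M → ‖b‖ < M → ‖a - b‖ < M := fun ha hb => by
      rw [sub_eq_add_neg]; exact m ha (by rwa [norm_neg])
    rw [norm_add_left, norm_pow]
    rw [norm_pow]
    exact m' (m (m' e1 e2) e3) e4
  obtain ⟨l, hl⟩ : ∃ l : K, 2 * Y * l = 3 * x ^ 2 + 2 * A * x + B :=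
    ⟨(3 * x ^ 2 + 2 * A * x + B) / (2 * Y), by field_simp⟩
  refine ⟨l ^ 2 - A - 2 * x, -(Y + l * (l ^ 2 - A - 2 * x - x)), ?_, ?_⟩
  · linear_combination hY + (l ^ 2 - A - 2 * x - x) * hl
  · have key : (l ^ 2 - A - 2 * x) * (4 * Y ^ 2) =
        x ^ 4 + (-(2 * B * x ^ 2) - 8 * C * x + B ^ 2 - 4 * A * C) := by
      linear_combination (2 * Y * l + (3 * x ^ 2 + 2 * A * x + B)) * hl - 4 * (A + 2 * x) * hY
    have h1 := congrArg norm key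
    rw [hnum, norm_mul, norm_mul, norm_pow, hYn] at h1
    have h4 : ‖(4 : K)‖ = ‖(2 : K)‖ * ‖(2 : K)‖ := by
      have : (4 : K) = 2 * 2 := by norm_num
      rw [this, norm_mul]
    have h2p : 0 < ‖(2 : K)‖ := norm_pos_iff.mpr h20
    have h41 : ‖(4 : K)‖ < 1 := by rw [h4]; nlinarith
    have h3 : 0 < ‖x‖ ^ 3 := by positivity
    have h5 : ‖l ^ 2 - A - 2 * x‖ * ‖(4 : K)‖ = ‖x‖ := by
      have : (‖l ^ 2 - A - 2 * x‖ * ‖(4 : K)‖) * ‖x‖ ^ 3 = ‖x‖ * ‖x‖ ^ 3 := by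
        rw [mul_assoc, h1]; ring
      exact mul_right_cancel₀ h3.ne' this
    have h6 : 0 ≤ ‖l ^ 2 - A - 2 * x‖ := norm_nonneg _
    nlinarith [norm_nonneg (4 : K)]

/-- A point with large `x`-coordinate gives infinitely many points. -/
theorem dbl_infinite {A B C x Y : K} {R : ℝ} (h20 : (2 : K) ≠ 0) (h2 : ‖(2 : K)‖ < 1)
    (hR : 1 ≤ R) (hA : ‖A‖ ≤ R) (hB : ‖B‖ ≤ R) (hC : ‖C‖ ≤ R)
    (hx : R < ‖x‖) (hY : Y ^ 2 = x ^ 3 + A * x ^ 2 + B * x + C) :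
    {x : K | ∃ Y, Y ^ 2 = x ^ 3 + A * x ^ 2 + B * x + C}.Infinite := by
  intro hfin
  obtain ⟨z, ⟨⟨Z, hZ⟩, hRz⟩, hmax⟩ :=
    (hfin.inter_of_left {x : K | R < ‖x‖}).exists_maximalFor (fun x => ‖x‖) _ ⟨x, ⟨Y, hY⟩, hx⟩
  obtain ⟨x', Y', h1, h3⟩ := dbl_step h20 h2 hR hA hB hC hRz hZ
  have := hmax (j := x') ⟨⟨Y', h1⟩, lt_trans hRz h3⟩ h3.le
  exact absurd this (not_le.mpr h3)

/-- Infinitely many `s` such that the quartic takes a square value. -/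
theorem quartic_infinite {u q1 q2 q3 q4 : K} {R : ℝ} (h20 : (2 : K) ≠ 0) (h2 : ‖(2 : K)‖ < 1)
    (hu : u ≠ 0) (hR : 1 ≤ R) (hA : ‖q2‖ ≤ R) (hB : ‖q1 * q3 - 4 * u ^ 2 * q4‖ ≤ R)
    (hC : ‖q1 ^ 2 * q4 + u ^ 2 * q3 ^ 2 - 4 * u ^ 2 * q2 * q4‖ ≤ R)
    (hx : R < ‖q1 ^ 2 / (4 * u ^ 2) - q2‖) :
    {s : K | ∃ w, w ^ 2 = u ^ 2 + q1 * s + q2 * s ^ 2 + q3 * s ^ 3 + q4 * s ^ 4}.Infinite := by
  set xP := q1 ^ 2 / (4 * u ^ 2) - q2 with hxP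
  have h40 : (4 : K) ≠ 0 := by
    have : (4 : K) = 2 * 2 := by norm_num
    rw [this]; exact mul_ne_zero h20 h20
  have hxP' : 4 * u ^ 2 * (xP + q2) = q1 ^ 2 := by rw [hxP]; field_simp; ring
  set A := q2 with hAdef
  set B := q1 * q3 - 4 * u ^ 2 * q4 with hBdef
  set C := q1 ^ 2 * q4 + u ^ 2 * q3 ^ 2 - 4 * u ^ 2 * A * q4 with hCdef
  have hYP : ((-(q1 * xP / u) - 2 * u * q3) / 2) ^ 2 = xP ^ 3 + A * xP ^ 2 + B * xP + C := by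
    have e : ((-(q1 * xP / u) - 2 * u * q3) / 2) ^ 2 =
        (q1 ^ 2 * xP ^ 2 + 4 * u ^ 2 * q1 * q3 * xP + 4 * u ^ 4 * q3 ^ 2) / (4 * u ^ 2) := by
      field_simp
      ring
    rw [e, div_eq_iff (mul_ne_zero h40 (pow_ne_zero 2 hu)), hBdef, hCdef]
    linear_combination (-(xP ^ 2) + 4 * u ^ 2 * q4) * hxP'
  have hinf := dbl_infinite h20 h2 hR hA hB hC hx hYP
  intro hS
  apply hinf
  -- the exceptional values
  have hfinE : ({xP} ∪ {x : K | x ^ 2 = 4 * u ^ 2 * q4} : Set K).Finite := by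
    refine (Set.finite_singleton _).union ?_
    have hp : (Polynomial.X ^ 2 - Polynomial.C (4 * u ^ 2 * q4) : Polynomial K) ≠ 0 :=
      (Polynomial.monic_X_pow_sub_C _ (by norm_num)).ne_zero
    refine (Polynomial.finite_setOfPred_isRoot hp).subset ?_
    intro x hx
    simp only [Set.mem_ofPred_eq] at hx
    simp [Polynomial.IsRoot.def, hx]
  -- each `s` yields at most two `x`
  have hfinT : (⋃ s ∈ {s : K | ∃ w, w ^ 2 = u ^ 2 + q1 * s + A * s ^ 2 + q3 * s ^ 3 + q4 * s ^ 4},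
      (fun w => (2 * u * (w + u) + q1 * s) / s ^ 2) ''
        {w : K | w ^ 2 = u ^ 2 + q1 * s + A * s ^ 2 + q3 * s ^ 3 + q4 * s ^ 4}).Finite := by
    refine hS.biUnion fun s _ => Set.Finite.image _ ?_
    have hp : (Polynomial.X ^ 2 - Polynomial.C (u ^ 2 + q1 * s + A * s ^ 2 + q3 * s ^ 3 +
        q4 * s ^ 4) : Polynomial K) ≠ 0 :=
      (Polynomial.monic_X_pow_sub_C _ (by norm_num)).ne_zero
    refine (Polynomial.finite_setOfPred_isRoot hp).subset ?_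
    intro x hx
    simp only [Set.mem_ofPred_eq] at hx
    simp [Polynomial.IsRoot.def, hx]
  refine (hfinE.union hfinT).subset ?_
  rintro x ⟨Y, hY⟩
  by_cases hxE : x ∈ ({xP} ∪ {x : K | x ^ 2 = 4 * u ^ 2 * q4} : Set K)
  · exact Or.inl hxE
  · right
    rw [Set.mem_union, not_or] at hxE
    obtain ⟨hx1, hx2⟩ := hxE
    have hx1' : x - xP ≠ 0 := sub_ne_zero.mpr hx1
    have hx2' : x ^ 2 - 4 * u ^ 2 * q4 ≠ 0 := sub_ne_zero.mpr hx2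
    obtain ⟨r, hr⟩ : ∃ r : K, 2 * u * r = q1 := ⟨q1 / (2 * u), by field_simp⟩
    set y := Y - r * x - u * q3 with hy
    have hxP2 : xP + A = r ^ 2 := by
      have h44 : (4 * u ^ 2) * (xP + A) = (4 * u ^ 2) * r ^ 2 := by
        rw [hxP', ← hr]; ring
      exact mul_left_cancel₀ (mul_ne_zero h40 (pow_ne_zero 2 hu)) h44
    have hprod : y * (Y + r * x + u * q3) = (x - xP) * (x ^ 2 - 4 * u ^ 2 * q4) := by
      rw [hy]
      have : (Y - r * x - u * q3) * (Y + r * x + u * q3) = Y ^ 2 - (r * x + u * q3) ^ 2 := by ring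
      rw [this, hY, hBdef, hCdef, ← hr]
      linear_combination (x ^ 2 - 4 * u ^ 2 * q4) * hxP2
    have hy0 : y ≠ 0 := by
      intro h0
      rw [h0, zero_mul] at hprod
      exact (mul_ne_zero hx1' hx2') hprod.symm
    -- `s = 2u(x+A) - q1²/(2u) over y = 2u (x - xP)/y`
    set s := 2 * u * (x - xP) / y with hs
    have hs0 : s ≠ 0 := div_ne_zero (mul_ne_zero (mul_ne_zero h20 hu) hx1') hy0
    have hsy : s * y = 2 * u * (x - xP) := by rw [hs]; field_simp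
    -- `W = -u + s (s x - q1)/(2u)`
    obtain ⟨W, hW⟩ : ∃ W : K, 2 * u * (W + u) = s * (s * x - q1) :=
      ⟨-u + s * (s * x - q1) / (2 * u), by field_simp; ring⟩
    have hk : s * (x ^ 2 - 4 * u ^ 2 * q4) = 2 * u * (y + 2 * (r * x + u * q3)) := by
      have h5 : y * (s * (x ^ 2 - 4 * u ^ 2 * q4)) =
          y * (2 * u * (y + 2 * (r * x + u * q3))) := by
        have h6 : y * (y + 2 * (r * x + u * q3)) = (x - xP) * (x ^ 2 - 4 * u ^ 2 * q4) := by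
          rw [← hprod, hy]; ring
        linear_combination (x ^ 2 - 4 * u ^ 2 * q4) * hsy - 2 * u * h6
      exact mul_left_cancel₀ hy0 h5
    have hWQ : W ^ 2 = u ^ 2 + q1 * s + A * s ^ 2 + q3 * s ^ 3 + q4 * s ^ 4 := by
      have h7 : (4 * u ^ 2) * W ^ 2 =
          (4 * u ^ 2) * (u ^ 2 + q1 * s + A * s ^ 2 + q3 * s ^ 3 + q4 * s ^ 4) := by
        rw [← hr] at hW ⊢
        linear_combination (2 * u * W + (s * (s * x - 2 * u * r) - 2 * u ^ 2)) * hW +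
          s ^ 2 * (s * hk + 2 * u * hsy - 4 * u ^ 2 * hxP2)
      exact mul_left_cancel₀ (mul_ne_zero h40 (pow_ne_zero 2 hu)) h7
    refine Set.mem_biUnion (x := s) ⟨W, hWQ⟩ ⟨W, hWQ, ?_⟩
    simp only
    rw [hW]
    field_simp
    ring

end Pool.Agent.H952R2.Sextic
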